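import Mathlib

set_option autoImplicit false

/-!
# Windows in all directions modulo `2 ^ L`: the statements of the combinatorial lemmas
-/

namespace Pool.Agent.H558.PP

open Finset

/-- the row of the point `p = (t, b)` in the direction `a` -/
def II (k : ℕ) (n a : ZMod (2 ^ k)) (p : ZMod (2 ^ k) × ZMod (2 ^ k)) : ZMod (2 ^ k) :=
  p.2 + a * (p.1 - 24 * p.2) - n

/-- is the point `p = (t, b)` in the window of width `2 ^ w` with the pattern `S`? -/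
def Fa (k w : ℕ) (n a : ZMod (2 ^ k)) (S : Finset (ℕ × ℕ)) (p : ZMod (2 ^ k) × ZMod (2 ^ k)) :
    Prop :=
  (p.1.val % 2 ^ w, (II k n a p).val) ∈ S

instance (k w : ℕ) (n a : ZMod (2 ^ k)) (S : Finset (ℕ × ℕ)) (p : ZMod (2 ^ k) × ZMod (2 ^ k)) :
    Decidable (Fa k w n a S p) := by
  unfold Fa
  infer_instance

/-- reduction modulo `2 ^ k` -/
abbrev cc {L k : ℕ} (h : k ≤ L) : ZMod (2 ^ L) →+* ZMod (2 ^ k) :=
  ZMod.castHom (pow_dvd_pow 2 h) (ZMod (2 ^ k))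

/-- E1: the number of the points in two windows -/
def S_E1 : Prop := ∀ (L w : ℕ) (n n' a a' : ZMod (2 ^ L)), w ≤ L →
  #{p : ZMod (2 ^ L) × ZMod (2 ^ L) | (II L n a p).val < 2 ^ w ∧ (II L n' a' p).val < 2 ^ w} ≤
    2 ^ w * max (2 ^ w) (Nat.gcd (a - a').val (2 ^ L))

/-- E2: the number of the points in two windows with patterns is not larger than at level `k` -/
def S_E2 : Prop := ∀ (L k w : ℕ) (hk : k ≤ L), 2 * w ≤ k → ∀ (n n' a a' : ZMod (2 ^ L)),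
  Nat.gcd (a - a').val (2 ^ L) ≤ 2 ^ w → ∀ S S' : Finset (ℕ × ℕ),
  S ⊆ range (2 ^ w) ×ˢ range (2 ^ w) → S' ⊆ range (2 ^ w) ×ˢ range (2 ^ w) →
  #{p : ZMod (2 ^ L) × ZMod (2 ^ L) | Fa L w n a S p ∧ Fa L w n' a' S' p} ≤
    #{ν : ZMod (2 ^ k) × ZMod (2 ^ k) |
      Fa k w (cc hk n) (cc hk a) S ν ∧ Fa k w (cc hk n') (cc hk a') S' ν}

/-- E3: the sum of the greatest common divisors -/
def S_E3 : Prop := ∀ L : ℕ, 2 * ∑ a : ZMod (2 ^ L), ∑ a' : ZMod (2 ^ L),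
  Nat.gcd (a - a').val (2 ^ L) ≤ 4 ^ L * (L + 2)

/-- E4: the number of the points of a window over a point of level `k` -/
def S_E4 : Prop := ∀ (L k w : ℕ) (hk : k ≤ L), w ≤ k → ∀ (n a : ZMod (2 ^ L)) (S : Finset (ℕ × ℕ)),
  S ⊆ range (2 ^ w) ×ˢ range (2 ^ w) → ∀ ν : ZMod (2 ^ k) × ZMod (2 ^ k),
  #{p : ZMod (2 ^ L) × ZMod (2 ^ L) | cc hk p.1 = ν.1 ∧ cc hk p.2 = ν.2 ∧ Fa L w n a S p} =
    if Fa k w (cc hk n) (cc hk a) S ν then 2 ^ (L - k) else 0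

/-- E4': the number of the points of a window -/
def S_E4' : Prop := ∀ (L w : ℕ), w ≤ L → ∀ (n a : ZMod (2 ^ L)) (S : Finset (ℕ × ℕ)),
  S ⊆ range (2 ^ w) ×ˢ range (2 ^ w) →
  #{p : ZMod (2 ^ L) × ZMod (2 ^ L) | Fa L w n a S p} = 2 ^ (L - w) * #S

open scoped Classical in
/-- PZ: many blocks with a small number of dead points -/
def S_PZ : Prop := ∀ (ι : Type) [Fintype ι] (h d v : ι → ℝ) (H c V R E : ℝ),
  (∀ i, 0 ≤ h i) → (∀ i, 0 ≤ d i) → (∀ i, 0 ≤ v i) → 0 < H → 0 < c → 1 ≤ R → 1 ≤ E → 0 ≤ V →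
  ∑ i, h i = H * Fintype.card ι → ∑ i, h i ^ 2 ≤ 2 * R ^ 2 * H ^ 2 * Fintype.card ι →
  (∀ i, d i * h i ^ 2 ≤ c * v i) → ∑ i, v i ≤ V →
  64 * E * R ^ 2 * V ≤ H ^ 2 * Fintype.card ι →
  (Fintype.card ι : ℝ) ≤ 16 * R ^ 2 * (#{i : ι | E * d i ≤ c} : ℝ)

open scoped Classical in
/-- E5: for many points of level `2 w`, the part of the dead points over it is small -/
def S_E5 : Prop := ∀ (L w R E : ℕ) (hw : 2 * w ≤ L), 1 ≤ R → 1 ≤ E →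
  32 * E * R ^ 4 * (L + 2) ≤ 2 ^ w → ∀ (n : ZMod (2 ^ L) → ZMod (2 ^ L))
  (S : ZMod (2 ^ L) → Finset (ℕ × ℕ)), (∀ a, S a ⊆ range (2 ^ w) ×ˢ range (2 ^ w)) →
  (∀ a, (2 ^ w) ^ 2 ≤ R * #(S a)) → ∀ D : Finset (ZMod (2 ^ L) × ZMod (2 ^ L)),
  (∀ p ∈ D, ∀ a, ¬ Fa L w (n a) a (S a) p) →
  4 ^ (2 * w) ≤ 16 * R ^ 2 * #{ν : ZMod (2 ^ (2 * w)) × ZMod (2 ^ (2 * w)) |
    E * #{p ∈ D | cc hw p.1 = ν.1 ∧ cc hw p.2 = ν.2} ≤ 4 ^ (L - 2 * w)}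

end Pool.Agent.H558.PP
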