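import Pool.Agent.H558.KK.Ld
import Pool.Agent.H558.PP.CStm

set_option autoImplicit false

/-!
# Positive proportion of odd values: the statements of the lemmas on the tree of sections
-/

namespace Pool.Agent.H558.PP

open PowerSeries Finset Pool.Agent.R836.PP Pool.Agent.H558.KK
open Pool.Agent.K7.H72.MT hiding W few dis DD dis_stable dis_vary DD_stable DD_sum DD_block few_bad
  dis_le DD_le base count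

open scoped Classical in
/-- the number of the pairs `(t, b)` below `2 ^ k` with a dead section at level `k` and a good
section at level `m` -/
noncomputable def XX (k T m T' : ℕ) (U : S) : ℕ :=
  #{p ∈ range (2 ^ k) ×ˢ range (2 ^ k) | ¬ Gv T (node P2 k p.2 p.1 U) ∧
    Gv T' (node P2 m (p.2 % 2 ^ m) (p.1 % 2 ^ m) U)}

/-- `node` and addition of levels -/
def S_N1 : Prop := ∀ (G : S) (k k' b t : ℕ) (U : S),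
  node G (k + k') b t U = node G k' (b / 2 ^ k) (t / 2 ^ k) (node G k (b % 2 ^ k) (t % 2 ^ k) U) ∧
  node G k (b % 2 ^ k) (t % 2 ^ k) U = node G k b t U

/-- a good section has a good parent -/
def S_N3 : Prop := ∀ (k b t x : ℕ) (U : S), Gv x (node P2 k b t U) → Gv (2 ^ k * x) U

open scoped Classical in
/-- the fat line lemma: it is proved by helper558 -/
def S_FL : Prop := ∀ (m V V' : ℕ), V + 4 * (2 ^ (m + 1)) ^ 4 ≤ 2 ^ (m + 1) * V' → ∀ U : S, Gv V U →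
  ∀ a : ZMod (2 ^ (m + 1)), ∃ (n : ZMod (2 ^ (m + 1))) (Y : S), coeff 0 Y = 1 ∧
    ∀ t b : ZMod (2 ^ (m + 1)),
      coeff (II (m + 1) n a (t, b)).val (Y * P2 ^ t.val) ≠ 0 →
        Gv V' (node P2 (m + 1) b.val t.val U)

open scoped Classical in
/-- NR: the number of the nonzero coefficients in a square window -/
def S_NR : Prop := ∀ (w : ℕ), 7 ≤ w → ∀ Y : S, coeff 0 Y = 1 →
  (2 ^ w) ^ 2 ≤ 128 * lam w * #{p ∈ range (2 ^ w) ×ˢ range (2 ^ w) | coeff p.2 (Y * P2 ^ p.1) ≠ 0}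

open scoped Classical in
/-- for many points of level `2 w` the part of the dead points of level `l` over it is small -/
def P1 (l w R E : ℕ) : Prop := ∀ V V' : ℕ, V + 4 * (2 ^ l) ^ 4 ≤ 2 ^ l * V' → ∀ U : S, Gv V U →
  4 ^ (2 * w) ≤ 16 * R ^ 2 * #{ν ∈ range (2 ^ (2 * w)) ×ˢ range (2 ^ (2 * w)) |
    E * #{p ∈ range (2 ^ l) ×ˢ range (2 ^ l) | p.1 % 2 ^ (2 * w) = ν.1 ∧ p.2 % 2 ^ (2 * w) = ν.2 ∧
      ¬ Gv V' (node P2 l p.2 p.1 U)} ≤ 4 ^ (l - 2 * w)}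

/-- T0: the window lemma for sections -/
def S_T0 : Prop := ∀ (l w E : ℕ), 7 ≤ w → 2 * w ≤ l → 1 ≤ E →
  32 * E * (128 * lam w) ^ 4 * (l + 2) ≤ 2 ^ w → P1 l w (128 * lam w) E

/-- T1: repeated trials -/
def S_T1 : Prop := ∀ (L w R E J : ℕ), 1 ≤ w → J * (2 * w) ≤ L → 1 ≤ R → 1 ≤ E →
  (∀ l, 2 * w ≤ l → l ≤ L → P1 l w R E) → ∀ (U : S) (v : ℕ),
  (XX L (v + 4 * 8 ^ L) (J * (2 * w)) (2 ^ (L - J * (2 * w)) * v) U : ℝ) ≤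
    ((1 - 1 / (16 * (R : ℝ) ^ 2)) ^ J + 1 / E) * 4 ^ L

/-- the error of one step -/
noncomputable def eps (L : ℕ) : ℝ := 1 / ((L : ℝ) ^ 3 * 2 ^ (Nat.log 2 L) ^ 3)

/-- T2: the choice of the parameters -/
def S_T2 : Prop := ∃ L0 : ℕ, 1 ≤ L0 ∧ ∀ L ≥ L0, ∃ w J : ℕ, 7 ≤ w ∧
  32 * (4 * L ^ 3 * 2 ^ (Nat.log 2 L) ^ 3) * (128 * lam w) ^ 4 * (L + 2) ≤ 2 ^ w ∧
  4 * (J * (2 * w)) ≤ L ∧
  (1 - 1 / (16 * ((128 * lam w : ℕ) : ℝ) ^ 2)) ^ J +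
    1 / ((4 * L ^ 3 * 2 ^ (Nat.log 2 L) ^ 3 : ℕ) : ℝ) ≤ eps L

/-- the step of the recurrence -/
def Stp (L0 : ℕ) : Prop := ∀ L ≥ L0, ∃ B : ℕ, 4 * B ≤ L ∧ ∀ (i : ℕ) (U : S) (v : ℕ),
  (XX (i + L) (v + 4 * 8 ^ L) (i + B) (2 ^ (L - B) * v) U : ℝ) ≤ eps L * 4 ^ (i + L)

/-- T3: the step -/
def S_T3 : Prop := ∃ L0 : ℕ, 6 ≤ L0 ∧ Stp L0

/-- X: transitivity -/
def S_X : Prop := ∀ (k T m T' n T'' : ℕ) (U : S), n ≤ m → m ≤ k →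
  XX k T n T'' U ≤ XX k T m T' U + 4 ^ (k - m) * XX m T' n T'' U

/-- T4: the chain -/
def S_T4 : Prop := ∀ L0 : ℕ, 6 ≤ L0 → Stp L0 → ∀ m0 : ℕ, L0 ≤ m0 → ∀ V0 M0 : ℕ, V0 ≤ 8 ^ M0 →
  ∀ k : ℕ, (M0 - m0) * M0 ≤ k → ∃ m T : ℕ, m < m0 ∧ m ≤ k ∧ V0 + 16 * 8 ^ m ≤ T ∧ ∀ U : S,
    (XX k (8 * 8 ^ m0) m T U : ℝ) ≤ 2 / (((m0 : ℝ) - 1) ^ 2 * 2 ^ (Nat.log 2 m0) ^ 3) * 4 ^ k

open scoped Classical in
/-- T5: for almost all `t` a positive proportion of the sections is good -/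
def S_T5 : Prop := ∀ ε : ℝ, 0 < ε → ∃ (δ : ℝ) (V : ℕ), 0 < δ ∧ ∀ V0 : ℕ, ∃ k0 : ℕ,
  ∀ U : S, Gv V0 U → ∀ k ≥ k0,
    (#{t ∈ range (2 ^ k) | (#{b ∈ range (2 ^ k) | Gv V (node P2 k b t U)} : ℝ) < δ * 2 ^ k} : ℝ) ≤
      ε * 2 ^ k

/-- T6: disagreement with a prescribed sequence at one scale -/
def S_T6 : Prop := ∀ (R : ℕ), 1 ≤ R → ∀ ε : ℝ, 0 < ε → ∃ δ : ℝ, 0 < δ ∧ ∀ V0 : ℕ, ∃ i0 : ℕ,
  ∀ (U : S) (w : ℕ → ZMod 2) (A : ℕ → Prop), Gv V0 U → Dn R A → ∀ K i : ℕ, i0 ≤ i → i ≤ K →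
    (#{t ∈ range (2 ^ K) | (N1 P2 (2 ^ i) (U, w, A) t : ℝ) < δ * 2 ^ i} : ℝ) ≤ ε * 2 ^ K

/-- T7: all progressions and all patterns -/
def S_T7 : Prop := ∀ (M : ℕ), 0 < M → ∀ ε : ℝ, 0 < ε → ∃ δ : ℝ, 0 < δ ∧
  ∀ (ρ L : ℕ) (c : Fin (L + 1) → ZMod 2), c ≠ 0 → ∃ x0 : ℕ, ∀ (w : ℕ → ZMod 2) (x K : ℕ),
    x0 ≤ x → x < 2 ^ K →
    (#{t ∈ range (2 ^ K) | t % 2 = 1 ∧ (cntP M ρ c w t x : ℝ) < δ * x} : ℝ) ≤ ε * 2 ^ K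

/-- T8: almost all 2-adic `t` -/
def S_T8 : Prop := ∀ (w : ℕ → ZMod 2) [MeasurableSpace ℤ_[2]] [BorelSpace ℤ_[2]]
  (μ : MeasureTheory.Measure ℤ_[2]) [MeasureTheory.IsProbabilityMeasure μ] [μ.IsAddLeftInvariant],
  ∀ᵐ t ∂μ, t.appr 1 = 1 → ∀ M : ℕ, 0 < M → ∀ (ρ L : ℕ) (c : Fin (L + 1) → ZMod 2), c ≠ 0 →
    ∃ δ : ℝ, 0 < δ ∧ ∀ x₁ : ℕ, ∃ x : ℕ, x₁ ≤ x ∧ δ * x ≤ cntZ M ρ c w t x

end Pool.Agent.H558.PP
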