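import Pool.Agent.H558.PP.E1

set_option autoImplicit false

/-!
# Windows in all directions modulo `2 ^ L`: comparison of level `L` and level `k` (E2)
-/

namespace Pool.Agent.H139.PPE2

open Finset Pool.Agent.H558.PP Pool.Agent.H139.PPE1

theorem ker_iff {Q : ℕ} [NeZero Q] (d y : ZMod Q) : d * y = 0 ↔ Q / Nat.gcd d.val Q ∣ y.val := by
  have hQ : 0 < Q := Nat.pos_of_ne_zero (NeZero.ne Q)
  rw [← dvd_mul_iff hQ, ← ZMod.natCast_eq_zero_iff]
  push_cast
  rw [ZMod.natCast_zmod_val, ZMod.natCast_zmod_val]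

theorem cc_val {L k : ℕ} (h : k ≤ L) (x : ZMod (2 ^ L)) : (cc h x).val = x.val % 2 ^ k := by
  have e : cc h x = ((x.val : ℕ) : ZMod (2 ^ k)) := by
    conv_lhs => rw [← ZMod.natCast_zmod_val x]
    exact map_natCast _ _
  rw [e, ZMod.val_natCast]

/-- the gcd at level `k` -/
theorem gcd_cc {L k w : ℕ} (hk : k ≤ L) (hw : w ≤ k) (d : ZMod (2 ^ L))
    (hg : Nat.gcd d.val (2 ^ L) ≤ 2 ^ w) :
    Nat.gcd (cc hk d).val (2 ^ k) = Nat.gcd d.val (2 ^ L) := by
  obtain ⟨s, hs, hgs⟩ := gcd_pow L d.val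
  have hsw : s ≤ w := by
    rw [hgs] at hg
    exact (Nat.pow_le_pow_iff_right (by norm_num)).1 hg
  have h1 : Nat.gcd (d.val % 2 ^ k) (2 ^ k) = Nat.gcd d.val (2 ^ k) := by
    rw [← Nat.gcd_rec, Nat.gcd_comm]
  have h2 : Nat.gcd (2 ^ L) (2 ^ k) = 2 ^ k := Nat.gcd_eq_right (pow_dvd_pow 2 hk)
  have h3 : Nat.gcd d.val (2 ^ k) = Nat.gcd (Nat.gcd d.val (2 ^ L)) (2 ^ k) := by
    rw [Nat.gcd_assoc, h2]
  rw [cc_val, h1, h3, hgs]
  exact Nat.gcd_eq_left (pow_dvd_pow 2 (hsw.trans hw))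

theorem fib_le (L : ℕ) (n n' a a' : ZMod (2 ^ L)) (A : Finset (ZMod (2 ^ L) × ZMod (2 ^ L)))
    (i i' : ℕ) : #{p ∈ A | ((II L n a p).val, (II L n' a' p).val) = (i, i')} ≤
      Nat.gcd (a - a').val (2 ^ L) := by
  rw [← ker_card]
  rcases ({p ∈ A | ((II L n a p).val, (II L n' a' p).val) = (i, i')}).eq_empty_or_nonempty with
    h | ⟨p0, h0⟩
  · rw [h, card_empty]
    exact Nat.zero_le _
  · rw [mem_filter, Prod.mk.injEq] at h0
    have key : ∀ p : ZMod (2 ^ L) × ZMod (2 ^ L),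
        p ∈ ({p ∈ A | ((II L n a p).val, (II L n' a' p).val) = (i, i')} :
          Finset (ZMod (2 ^ L) × ZMod (2 ^ L))) →
        II L n a p = II L n a p0 ∧ II L n' a' p = II L n' a' p0 := by
      intro p hp
      rw [mem_filter, Prod.mk.injEq] at hp
      exact ⟨ZMod.val_injective _ (hp.2.1.trans h0.2.1.symm),
        ZMod.val_injective _ (hp.2.2.trans h0.2.2.symm)⟩
    refine card_le_card_of_injOn (fun p => (p.1 - 24 * p.2) - (p0.1 - 24 * p0.2)) ?_ ?_
    · intro p hp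
      obtain ⟨h1, h2⟩ := key p hp
      rw [mem_coe, mem_filter]
      refine ⟨mem_univ _, ?_⟩
      unfold II at h1 h2
      linear_combination h1 - h2
    · intro p hp q hq h
      obtain ⟨h1, -⟩ := key p hp
      obtain ⟨h2, -⟩ := key q hq
      simp only at h
      have h3 := h1.trans h2.symm
      unfold II at h3
      have h4 : p.2 = q.2 := by linear_combination h3 - a * h
      refine Prod.ext ?_ h4
      linear_combination h + 24 * h4

theorem e2 : S_E2 := by
  intro L k w hk hwk n n' a a' hg S S' hS hS'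
  have hw : w ≤ k := by omega
  have hWk : 2 ^ w ≤ 2 ^ k := Nat.pow_le_pow_right (by norm_num) hw
  set A : Finset (ZMod (2 ^ L) × ZMod (2 ^ L)) :=
    {p : ZMod (2 ^ L) × ZMod (2 ^ L) | Fa L w n a S p ∧ Fa L w n' a' S' p} with hA
  set B : Finset (ZMod (2 ^ k) × ZMod (2 ^ k)) :=
    {ν : ZMod (2 ^ k) × ZMod (2 ^ k) |
      Fa k w (cc hk n) (cc hk a) S ν ∧ Fa k w (cc hk n') (cc hk a') S' ν} with hB
  have hmA : ∀ p ∈ A, ((II L n a p).val, (II L n' a' p).val) ∈ range (2 ^ w) ×ˢ range (2 ^ w) := by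
    intro p hp
    rw [hA, mem_filter] at hp
    rw [mem_product]
    exact ⟨(mem_product.1 (hS hp.2.1)).2, (mem_product.1 (hS' hp.2.2)).2⟩
  have hmB : ∀ ν ∈ B, ((II k (cc hk n) (cc hk a) ν).val, (II k (cc hk n') (cc hk a') ν).val) ∈
      range (2 ^ w) ×ˢ range (2 ^ w) := by
    intro ν hν
    rw [hB, mem_filter] at hν
    rw [mem_product]
    exact ⟨(mem_product.1 (hS hν.2.1)).2, (mem_product.1 (hS' hν.2.2)).2⟩
  rw [card_eq_sum_card_fiberwise hmA, card_eq_sum_card_fiberwise hmB]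
  refine sum_le_sum fun x hx => ?_
  obtain ⟨i, i'⟩ := x
  rw [mem_product, mem_range, mem_range] at hx
  obtain ⟨hi, hi'⟩ := hx
  simp only at hi hi'
  rcases ({p ∈ A | ((II L n a p).val, (II L n' a' p).val) = (i, i')}).eq_empty_or_nonempty with
    h | ⟨p0, h0⟩
  · rw [h, card_empty]
    exact Nat.zero_le _
  refine (fib_le L n n' a a' A i i').trans ?_
  rw [← gcd_cc hk hw _ hg, ← ker_card]
  rw [mem_filter, hA, mem_filter, Prod.mk.injEq] at h0
  obtain ⟨⟨-, hF, hF'⟩, h1, h2⟩ := h0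
  refine card_le_card_of_injOn (fun y => (cc hk p0.1 + y * (1 - 24 * cc hk a),
    cc hk p0.2 - cc hk a * y)) ?_ ?_
  · intro y hy
    rw [mem_coe, mem_filter] at hy
    have hy0 := hy.2
    have hyd : 2 ^ w ∣ y.val := by
      have h3 := (ker_iff _ _).1 hy0
      refine dvd_trans ?_ h3
      rw [gcd_cc hk hw _ hg]
      obtain ⟨s, hs, hgs⟩ := gcd_pow L (a - a').val
      have hsw : s ≤ w := by
        rw [hgs] at hg
        exact (Nat.pow_le_pow_iff_right (by norm_num)).1 hg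
      rw [hgs, Nat.pow_div (by omega) (by norm_num)]
      exact pow_dvd_pow 2 (by omega)
    have e1 : II k (cc hk n) (cc hk a) (cc hk p0.1 + y * (1 - 24 * cc hk a),
        cc hk p0.2 - cc hk a * y) = cc hk (II L n a p0) := by
      unfold II
      simp only [map_add, map_sub, map_mul, map_ofNat]
      ring
    have e2 : II k (cc hk n') (cc hk a') (cc hk p0.1 + y * (1 - 24 * cc hk a),
        cc hk p0.2 - cc hk a * y) = cc hk (II L n' a' p0) := by
      rw [map_sub] at hy0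
      unfold II
      simp only [map_add, map_sub, map_mul, map_ofNat]
      linear_combination (-1 : ZMod (2 ^ k)) * hy0
    have v1 : (cc hk (II L n a p0)).val = (II L n a p0).val := by
      rw [cc_val, h1]
      exact Nat.mod_eq_of_lt (by omega)
    have v2 : (cc hk (II L n' a' p0)).val = (II L n' a' p0).val := by
      rw [cc_val, h2]
      exact Nat.mod_eq_of_lt (by omega)
    have ht : (cc hk p0.1 + y * (1 - 24 * cc hk a)).val % 2 ^ w = p0.1.val % 2 ^ w := by
      rw [val_mod hw _ _ _ hyd, cc_val, Nat.mod_mod_of_dvd _ (pow_dvd_pow 2 hw)]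
    rw [mem_coe, mem_filter, hB, mem_filter]
    refine ⟨⟨mem_univ _, ?_, ?_⟩, ?_⟩
    · unfold Fa
      rw [e1, v1]
      simp only
      rw [ht]
      exact hF
    · unfold Fa
      rw [e2, v2]
      simp only
      rw [ht]
      exact hF'
    · rw [e1, e2, v1, v2, h1, h2]
  · intro y _ z _ h
    rw [Prod.mk.injEq] at h
    obtain ⟨h3, h4⟩ := h
    linear_combination h3 - 24 * h4

end Pool.Agent.H139.PPE2
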