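import Pool.Agent.H558.PP.CStm

set_option autoImplicit false

namespace Pool.Agent.H903.PP

open Finset Pool.Agent.H558.PP

lemma sum_range_two (f : ℕ → ℕ) (m : ℕ) :
    ∑ i ∈ range (2 * m), f i = ∑ j ∈ range m, (f (2 * j) + f (2 * j + 1)) := by
  induction m with
  | zero => simp
  | succ m ih =>
    rw [show 2 * (m + 1) = 2 * m + 1 + 1 by ring, sum_range_succ, sum_range_succ, ih,
      sum_range_succ _ m]
    ring

lemma gcd_sum (L : ℕ) : 2 * ∑ i ∈ range (2 ^ L), Nat.gcd i (2 ^ L) = 2 ^ L * (L + 2) := by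
  induction L with
  | zero => simp
  | succ L ih =>
    have h1 : ∑ i ∈ range (2 ^ (L + 1)), Nat.gcd i (2 ^ (L + 1)) =
        2 * ∑ i ∈ range (2 ^ L), Nat.gcd i (2 ^ L) + 2 ^ L := by
      rw [show (2 : ℕ) ^ (L + 1) = 2 * 2 ^ L by ring, sum_range_two, sum_add_distrib, mul_sum]
      congr 1
      · refine sum_congr rfl fun j _ => ?_
        exact Nat.gcd_mul_left 2 j (2 ^ L)
      · rw [show (2 : ℕ) ^ L = ∑ j ∈ range (2 ^ L), 1 by simp]
        refine sum_congr (by simp) fun j _ => ?_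
        rw [sum_const, card_range, smul_eq_mul, mul_one]
        have h2 : Nat.Coprime (2 * j + 1) (2 * 2 ^ L) := by
          rw [show 2 * 2 ^ L = 2 ^ (L + 1) by ring]
          apply Nat.Coprime.pow_right
          rw [Nat.coprime_two_right]
          exact ⟨j, rfl⟩
        exact h2
    rw [h1, mul_add, ← mul_assoc, mul_comm 2 2, mul_assoc, ih, pow_succ]
    ring

lemma sum_zmod (N : ℕ) [NeZero N] (F : ℕ → ℕ) :
    ∑ d : ZMod N, F d.val = ∑ i ∈ range N, F i := by
  refine Finset.sum_bij' (fun d _ => d.val) (fun i _ => (i : ZMod N)) ?_ ?_ ?_ ?_ ?_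
  · intro a _
    exact mem_range.2 (ZMod.val_lt a)
  · intro i _
    exact mem_univ _
  · intro a _
    exact ZMod.natCast_zmod_val a
  · intro i hi
    exact ZMod.val_cast_of_lt (mem_range.1 hi)
  · intro a _
    rfl

theorem e3 : S_E3 := by
  intro L
  have h1 : ∀ a : ZMod (2 ^ L), ∑ a' : ZMod (2 ^ L), Nat.gcd (a - a').val (2 ^ L) =
      ∑ i ∈ range (2 ^ L), Nat.gcd i (2 ^ L) := by
    intro a
    rw [← sum_zmod (2 ^ L) (fun i => Nat.gcd i (2 ^ L))]
    exact Equiv.sum_comp (Equiv.subLeft a) (fun d : ZMod (2 ^ L) => Nat.gcd d.val (2 ^ L))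
  simp only [h1, sum_const, card_univ, ZMod.card, smul_eq_mul]
  rw [← mul_assoc, mul_comm 2 (2 ^ L), mul_assoc, gcd_sum, ← mul_assoc, ← mul_pow]
  norm_num

open scoped Classical in
theorem pz : S_PZ := by
  intro ι _ h d v H c V R E hh hd hv hH hc hR hE hV hsum hsq hdv hVs hbig
  set n : ℝ := (Fintype.card ι : ℝ) with hn
  have hn0 : 0 ≤ n := Nat.cast_nonneg _
  set G : Finset ι := univ.filter (fun i => H / 2 ≤ h i) with hG
  set B : Finset ι := G.filter (fun i => c < E * d i) with hB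
  -- the sum over `G`
  have hGs : H * n / 2 ≤ ∑ i ∈ G, h i := by
    have h1 : ∑ i, h i = ∑ i ∈ G, h i + ∑ i ∈ univ.filter (fun i => ¬ H / 2 ≤ h i), h i := by
      rw [hG]
      exact (sum_filter_add_sum_filter_not univ (fun i => H / 2 ≤ h i) h).symm
    have h2 : ∑ i ∈ univ.filter (fun i => ¬ H / 2 ≤ h i), h i ≤ n * (H / 2) := by
      calc ∑ i ∈ univ.filter (fun i => ¬ H / 2 ≤ h i), h i
          ≤ ∑ i ∈ univ.filter (fun i => ¬ H / 2 ≤ h i), H / 2 := by
            refine sum_le_sum fun i hi => ?_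
            exact le_of_lt (not_le.1 (mem_filter.1 hi).2)
        _ = (#(univ.filter (fun i => ¬ H / 2 ≤ h i)) : ℝ) * (H / 2) := by
            rw [sum_const, nsmul_eq_mul]
        _ ≤ n * (H / 2) := by
            refine mul_le_mul_of_nonneg_right ?_ (by positivity)
            rw [hn]
            exact_mod_cast card_le_univ _
    rw [hsum] at h1
    linarith
  have hCS : (∑ i ∈ G, h i) ^ 2 ≤ (#G : ℝ) * (2 * R ^ 2 * H ^ 2 * n) := by
    calc (∑ i ∈ G, h i) ^ 2 ≤ (#G : ℝ) * ∑ i ∈ G, h i ^ 2 := by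
          exact sq_sum_le_card_mul_sum_sq
      _ ≤ (#G : ℝ) * ∑ i, h i ^ 2 := by
          refine mul_le_mul_of_nonneg_left ?_ (Nat.cast_nonneg _)
          exact sum_le_sum_of_subset_of_nonneg (subset_univ _) (fun i _ _ => sq_nonneg _)
      _ ≤ (#G : ℝ) * (2 * R ^ 2 * H ^ 2 * n) :=
          mul_le_mul_of_nonneg_left hsq (Nat.cast_nonneg _)
  have hGcard : n ≤ 8 * R ^ 2 * (#G : ℝ) := by
    rcases hn0.eq_or_lt with h0 | h0
    · rw [← h0]; positivity
    · have h1 : (H * n / 2) ^ 2 ≤ (∑ i ∈ G, h i) ^ 2 :=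
        pow_le_pow_left₀ (by positivity) hGs 2
      have h2 : (H ^ 2 * n) * n ≤ (H ^ 2 * n) * (8 * R ^ 2 * (#G : ℝ)) := by nlinarith
      exact le_of_mul_le_mul_left h2 (by positivity)
  have hBcard : (#B : ℝ) * H ^ 2 ≤ 4 * E * V := by
    have h1 : ∑ i ∈ B, H ^ 2 / (4 * E) ≤ ∑ i ∈ B, v i := by
      refine sum_le_sum fun i hi => ?_
      have hi1 : H / 2 ≤ h i := (mem_filter.1 (mem_filter.1 hi).1).2
      have hi2 : c < E * d i := (mem_filter.1 hi).2
      have h3 : (H / 2) ^ 2 ≤ h i ^ 2 := pow_le_pow_left₀ (by positivity) hi1 2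
      have h4 : d i * (H / 2) ^ 2 ≤ c * v i :=
        le_trans (mul_le_mul_of_nonneg_left h3 (hd i)) (hdv i)
      have h5 : c * (H / 2) ^ 2 ≤ E * (c * v i) := by
        calc c * (H / 2) ^ 2 ≤ (E * d i) * (H / 2) ^ 2 :=
              mul_le_mul_of_nonneg_right hi2.le (by positivity)
          _ = E * (d i * (H / 2) ^ 2) := by ring
          _ ≤ E * (c * v i) := mul_le_mul_of_nonneg_left h4 (by linarith)
      rw [div_le_iff₀ (by positivity)]
      have h6 : c * H ^ 2 ≤ c * (v i * (4 * E)) := by nlinarith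
      exact le_of_mul_le_mul_left h6 hc
    have h2 : ∑ i ∈ B, v i ≤ V :=
      le_trans (sum_le_sum_of_subset_of_nonneg (subset_univ _) (fun i _ _ => hv i)) hVs
    rw [sum_const, nsmul_eq_mul] at h1
    have h3 : (#B : ℝ) * (H ^ 2 / (4 * E)) ≤ V := le_trans h1 h2
    rw [mul_div_assoc', div_le_iff₀ (by positivity)] at h3
    linarith
  have hBn : 16 * R ^ 2 * (#B : ℝ) ≤ n := by
    have h1 : H ^ 2 * (16 * R ^ 2 * (#B : ℝ)) ≤ H ^ 2 * n := by
      have h2 : 16 * R ^ 2 * ((#B : ℝ) * H ^ 2) ≤ 16 * R ^ 2 * (4 * E * V) :=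
        mul_le_mul_of_nonneg_left hBcard (by positivity)
      nlinarith
    exact le_of_mul_le_mul_left h1 (by positivity)
  have hsub : (#G : ℝ) - #B ≤ (#{i : ι | E * d i ≤ c} : ℝ) := by
    have h1 : G ⊆ B ∪ univ.filter (fun i => E * d i ≤ c) := by
      intro i hi
      by_cases hci : E * d i ≤ c
      · exact mem_union_right _ (mem_filter.2 ⟨mem_univ _, hci⟩)
      · exact mem_union_left _ (mem_filter.2 ⟨hi, not_le.1 hci⟩)
    have h2 : #G ≤ #B + #(univ.filter (fun i => E * d i ≤ c)) :=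
      le_trans (card_le_card h1) (card_union_le _ _)
    have h3 : (#G : ℝ) ≤ (#B : ℝ) + (#(univ.filter (fun i => E * d i ≤ c)) : ℝ) := by
      exact_mod_cast h2
    linarith
  have hR2 : 0 ≤ 16 * R ^ 2 := by positivity
  have h7 := mul_le_mul_of_nonneg_left hsub hR2
  nlinarith

end Pool.Agent.H903.PP
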