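import Pool.Agent.H558.PP.TStm

set_option autoImplicit false

/-!
# T0: the window lemma for sections
-/

namespace Pool.Agent.H707.PPT0

open PowerSeries Finset Pool.Agent.R836.PP Pool.Agent.H558.KK Pool.Agent.H558.PP
open Pool.Agent.K7.H72.MT hiding W few dis DD dis_stable dis_vary DD_stable DD_sum DD_block few_bad
  dis_le DD_le base count

theorem lam_pos (k : ℕ) : 1 ≤ lam k := Nat.one_le_two_pow

/-- natural numbers with the same residue -/
theorem cast_of_mod {k : ℕ} {x : ℕ} {ν : ZMod (2 ^ k)} (h : x % 2 ^ k = ν.val) :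
    ((x : ℕ) : ZMod (2 ^ k)) = ν := by
  rw [← ZMod.natCast_mod, h, ZMod.natCast_zmod_val]

theorem t0 (hFL : S_FL) (hNR : S_NR) (hE5 : S_E5) : S_T0 := by
  intro l w E hw hwl hE hbig V V' hV U hU
  obtain ⟨m, rfl⟩ : ∃ m, l = m + 1 := ⟨l - 1, by omega⟩
  choose n Y hY0 hY using hFL m V V' hV U hU
  classical
  obtain ⟨Sf, hSf⟩ : ∃ Sf : ZMod (2 ^ (m + 1)) → Finset (ℕ × ℕ), ∀ a, ∀ p : ℕ × ℕ, p ∈ Sf a ↔
      p ∈ range (2 ^ w) ×ˢ range (2 ^ w) ∧ coeff p.2 (Y a * P2 ^ p.1) ≠ 0 :=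
    ⟨fun a => (range (2 ^ w) ×ˢ range (2 ^ w)).filter (fun p => coeff p.2 (Y a * P2 ^ p.1) ≠ 0),
      fun a p => Finset.mem_filter⟩
  obtain ⟨D, hD⟩ : ∃ D : Finset (ZMod (2 ^ (m + 1)) × ZMod (2 ^ (m + 1))), ∀ p, p ∈ D ↔
      ¬ Gv V' (node P2 (m + 1) p.2.val p.1.val U) :=
    ⟨univ.filter (fun p => ¬ Gv V' (node P2 (m + 1) p.2.val p.1.val U)),
      fun p => by rw [Finset.mem_filter]; simp⟩
  have hlam : 1 ≤ 128 * lam w := by
    have := lam_pos w
    omega
  have h1 : ∀ a, (2 ^ w) ^ 2 ≤ 128 * lam w * #(Sf a) := by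
    intro a
    refine (hNR w hw (Y a) (hY0 a)).trans (Nat.mul_le_mul_left _ (Finset.card_le_card fun p hp => ?_))
    rw [Finset.mem_filter] at hp
    exact (hSf a p).2 hp
  have h2 : ∀ p ∈ D, ∀ a, ¬ Fa (m + 1) w (n a) a (Sf a) p := by
    intro p hp a hF
    have h3 := (hSf a _).1 hF
    obtain ⟨h4, h5⟩ := h3
    simp only at h5
    rw [Finset.mem_product, Finset.mem_range, Finset.mem_range] at h4
    refine (hD p).1 hp (hY a p.1 p.2 ?_)
    have h6 : P2 ^ p.1.val = P2 ^ (p.1.val % 2 ^ w) * P2 ^ (2 ^ w * (p.1.val / 2 ^ w)) := by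
      rw [← pow_add, Nat.mod_add_div]
    rw [h6, ← mul_assoc, coeff_stable isP_P2.zero (Y a * P2 ^ (p.1.val % 2 ^ w)) w
      (p.1.val / 2 ^ w) _ 0 (fun i hi => absurd hi (Nat.not_lt_zero i)) (by simpa using h4.2)]
    exact h5
  have h3 := hE5 (m + 1) w (128 * lam w) E hwl hlam hE hbig n Sf
    (fun a p hp => ((hSf a p).1 hp).1) h1 D h2
  refine h3.trans (Nat.mul_le_mul_left _ ?_)
  refine Finset.card_le_card_of_injOn (fun ν => (ν.1.val, ν.2.val)) ?_ ?_
  · intro ν hν
    have hν' := (Finset.mem_filter.1 (Finset.mem_coe.1 hν)).2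
    refine Finset.mem_coe.2 (Finset.mem_filter.2 ⟨?_, ?_⟩)
    · rw [Finset.mem_product, Finset.mem_range, Finset.mem_range]
      exact ⟨ZMod.val_lt _, ZMod.val_lt _⟩
    · refine le_trans (Nat.mul_le_mul_left _ ?_) hν'
      refine Finset.card_le_card_of_injOn
        (fun p => ((p.1 : ZMod (2 ^ (m + 1))), (p.2 : ZMod (2 ^ (m + 1))))) ?_ ?_
      · intro p hp
        have hp' := Finset.mem_filter.1 (Finset.mem_coe.1 hp)
        obtain ⟨hp1, hp2, hp3, hp4⟩ := hp'
        rw [Finset.mem_product, Finset.mem_range, Finset.mem_range] at hp1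
        refine Finset.mem_coe.2 (Finset.mem_filter.2 ⟨?_, ?_, ?_⟩)
        · rw [hD]
          simp only
          rw [ZMod.val_cast_of_lt hp1.1, ZMod.val_cast_of_lt hp1.2]
          exact hp4
        · simp only
          rw [map_natCast]
          exact cast_of_mod hp2
        · simp only
          rw [map_natCast]
          exact cast_of_mod hp3
      · intro p hp p' hp' h
        have hq := (Finset.mem_filter.1 (Finset.mem_coe.1 hp)).1
        have hq' := (Finset.mem_filter.1 (Finset.mem_coe.1 hp')).1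
        rw [Finset.mem_product, Finset.mem_range, Finset.mem_range] at hq hq'
        simp only [Prod.mk.injEq] at h
        have e1 := congrArg ZMod.val h.1
        have e2 := congrArg ZMod.val h.2
        rw [ZMod.val_cast_of_lt hq.1, ZMod.val_cast_of_lt hq'.1] at e1
        rw [ZMod.val_cast_of_lt hq.2, ZMod.val_cast_of_lt hq'.2] at e2
        exact Prod.ext e1 e2
  · intro ν _ ν' _ h
    simp only [Prod.mk.injEq] at h
    exact Prod.ext (ZMod.val_injective _ h.1) (ZMod.val_injective _ h.2)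

end Pool.Agent.H707.PPT0
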