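import Pool.Agent.H558.PP.TStm

set_option autoImplicit false

/-!
# Positive proportion of odd values, T4: the chain
-/

namespace Pool.Agent.H558.PP

open PowerSeries Finset Pool.Agent.R836.PP Pool.Agent.H558.KK
open Pool.Agent.K7.H72.MT hiding W few dis DD dis_stable dis_vary DD_stable DD_sum DD_block few_bad
  dis_le DD_le base count

namespace PPT4

open scoped Classical in
theorem XX_mono {k T m T' T1' : ℕ} {U : S} (hT' : T' ≤ T1') :
    XX k T m T' U ≤ XX k T m T1' U := by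
  unfold XX
  apply card_le_card
  intro p hp
  rw [mem_filter] at hp ⊢
  exact ⟨hp.1, hp.2.1, hp.2.2.mono hT'⟩

open scoped Classical in
theorem XX_self (k T : ℕ) (U : S) : XX k T k T U = 0 := by
  unfold XX
  rw [card_eq_zero, filter_eq_empty_iff]
  rintro p hp ⟨h1, h2⟩
  rw [mem_product, mem_range, mem_range] at hp
  rw [Nat.mod_eq_of_lt hp.2, Nat.mod_eq_of_lt hp.1] at h2
  exact h1 h2

theorem eps_nonneg (L : ℕ) : 0 ≤ eps L := by
  unfold eps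
  positivity

theorem comb (hX : S_X) {k T m T' n T'' : ℕ} {U : S} {a b : ℝ} (h1 : n ≤ m) (h2 : m ≤ k)
    (ha : (XX k T m T' U : ℝ) ≤ a * 4 ^ k) (hb : (XX m T' n T'' U : ℝ) ≤ b * 4 ^ m) :
    (XX k T n T'' U : ℝ) ≤ (a + b) * 4 ^ k := by
  have h3 : (XX k T n T'' U : ℝ) ≤ XX k T m T' U + 4 ^ (k - m) * XX m T' n T'' U := by
    exact_mod_cast hX k T m T' n T'' U h1 h2
  have h4 : (4 : ℝ) ^ (k - m) * 4 ^ m = 4 ^ k := pow_sub_mul_pow 4 h2
  have h5 : (4 : ℝ) ^ (k - m) * XX m T' n T'' U ≤ b * 4 ^ k := by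
    calc (4 : ℝ) ^ (k - m) * XX m T' n T'' U ≤ 4 ^ (k - m) * (b * 4 ^ m) :=
          mul_le_mul_of_nonneg_left hb (by positivity)
      _ = b * (4 ^ (k - m) * 4 ^ m) := by ring
      _ = b * 4 ^ k := by rw [h4]
  calc (XX k T n T'' U : ℝ) ≤ XX k T m T' U + 4 ^ (k - m) * XX m T' n T'' U := h3
    _ ≤ a * 4 ^ k + b * 4 ^ k := add_le_add ha h5
    _ = (a + b) * 4 ^ k := by ring

theorem phase1 (hX : S_X) {L0 : ℕ} (hL0 : 6 ≤ L0) (hS : Stp L0) (M0 : ℕ) :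
    ∀ k L : ℕ, L0 ≤ L → (M0 - L) * M0 ≤ k →
    ∃ k' L' : ℕ, k' < L' ∧ L ≤ L' ∧ M0 ≤ L' ∧ k' ≤ k ∧ ∀ U : S,
      (XX k (8 * 8 ^ L) k' (8 * 8 ^ L') U : ℝ) ≤ (∑ j ∈ Ico L L', eps j) * 4 ^ k := by
  intro k
  induction k using Nat.strong_induction_on with
  | _ k ih =>
    intro L hL hk
    rcases lt_or_ge k L with h | h
    · refine ⟨k, L, h, le_rfl, ?_, le_rfl, fun U => ?_⟩
      · by_contra hM
        push Not at hM
        have h1 : 1 ≤ M0 - L := by omega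
        have h2 : M0 ≤ (M0 - L) * M0 := Nat.le_mul_of_pos_left _ h1
        omega
      · rw [XX_self]
        simp
    · obtain ⟨B, hB, hB2⟩ := hS L hL
      have hk1 : k - L + B < k := by omega
      have hM : (M0 - (L + 1)) * M0 ≤ k - L + B := by
        rcases le_or_gt M0 (L + 1) with h1 | h1
        · have h2 : M0 - (L + 1) = 0 := by omega
          rw [h2, zero_mul]
          exact Nat.zero_le _
        · have h2 : (M0 - L) * M0 = (M0 - (L + 1)) * M0 + M0 := by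
            have h3 : M0 - L = (M0 - (L + 1)) + 1 := by omega
            rw [h3, add_mul, one_mul]
          omega
      obtain ⟨k', L', h1, h2, h3, h4, h5⟩ := ih _ hk1 (L + 1) (by omega) hM
      refine ⟨k', L', h1, by omega, h3, by omega, fun U => ?_⟩
      have h6 := hB2 (k - L) U (4 * 8 ^ L)
      have e1 : 4 * 8 ^ L + 4 * 8 ^ L = 8 * 8 ^ L := by ring
      have e2 : k - L + L = k := by omega
      rw [e1, e2] at h6
      have h7 : 8 * 8 ^ (L + 1) ≤ 2 ^ (L - B) * (4 * 8 ^ L) := by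
        have h8 : 2 ^ 4 ≤ 2 ^ (L - B) := Nat.pow_le_pow_right (by norm_num) (by omega)
        calc 8 * 8 ^ (L + 1) = 2 ^ 4 * (4 * 8 ^ L) := by ring
          _ ≤ _ := Nat.mul_le_mul_right _ h8
      have h8 : (XX k (8 * 8 ^ L) (k - L + B) (8 * 8 ^ (L + 1)) U : ℝ) ≤ eps L * 4 ^ k := by
        refine le_trans ?_ h6
        exact_mod_cast XX_mono h7
      rw [Finset.sum_eq_sum_Ico_succ_bot (show L < L' by omega)]
      exact comb hX h4 hk1.le h8 (h5 U)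

theorem phase2 (hX : S_X) {L0 : ℕ} (hL0 : 6 ≤ L0) (hS : Stp L0) {m0 : ℕ} (hm0 : L0 ≤ m0)
    (V0 : ℕ) : ∀ k T : ℕ, V0 + 16 * 8 ^ k ≤ T →
    ∃ m Tf : ℕ, m < m0 ∧ m ≤ k ∧ V0 + 16 * 8 ^ m ≤ Tf ∧ ∀ U : S,
      (XX k T m Tf U : ℝ) ≤ (∑ j ∈ Ico m0 (k + 1), eps j) * 4 ^ k := by
  intro k
  induction k using Nat.strong_induction_on with
  | _ k ih =>
    intro T hT
    rcases lt_or_ge k m0 with h | h
    · refine ⟨k, T, h, le_rfl, hT, fun U => ?_⟩
      rw [XX_self, Nat.cast_zero]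
      exact mul_nonneg (Finset.sum_nonneg fun j _ => eps_nonneg j) (by positivity)
    · obtain ⟨B, hB, hB2⟩ := hS k (hm0.trans h)
      have hBk : B < k := by omega
      have hv : V0 + 16 * 8 ^ B ≤ 2 ^ (k - B) * (T - 4 * 8 ^ k) := by
        have h1 : 8 * 8 ^ B ≤ 8 ^ k := by
          calc 8 * 8 ^ B = 8 ^ (B + 1) := by ring
            _ ≤ 8 ^ k := Nat.pow_le_pow_right (by norm_num) hBk
        have h2 : V0 + 16 * 8 ^ B ≤ T - 4 * 8 ^ k := by omega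
        exact h2.trans (Nat.le_mul_of_pos_left _ (by positivity))
      obtain ⟨m, Tf, h1, h2, h3, h4⟩ := ih B hBk _ hv
      refine ⟨m, Tf, h1, h2.trans hBk.le, h3, fun U => ?_⟩
      have h6 := hB2 0 U (T - 4 * 8 ^ k)
      have e1 : T - 4 * 8 ^ k + 4 * 8 ^ k = T := by omega
      rw [e1, zero_add, zero_add] at h6
      have h7 := comb hX h2 hBk.le h6 (h4 U)
      refine h7.trans (mul_le_mul_of_nonneg_right ?_ (by positivity))
      rw [Finset.sum_Ico_succ_top h]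
      have h8 : ∑ j ∈ Ico m0 (B + 1), eps j ≤ ∑ j ∈ Ico m0 k, eps j :=
        Finset.sum_le_sum_of_subset_of_nonneg (Finset.Ico_subset_Ico_right hBk)
          fun j _ _ => eps_nonneg j
      linarith

theorem sum_cube_le {m0 : ℕ} (hm : 2 ≤ m0) {N : ℕ} (hN : m0 ≤ N) :
    ∑ j ∈ Ico m0 N, 1 / (j : ℝ) ^ 3 ≤ 1 / ((m0 : ℝ) - 1) ^ 2 - 1 / ((N : ℝ) - 1) ^ 2 := by
  induction N, hN using Nat.le_induction with
  | base => simp
  | succ n hn ih =>
    rw [Finset.sum_Ico_succ_top hn]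
    have hn2 : (2 : ℝ) ≤ n := by exact_mod_cast hm.trans hn
    have h1 : 1 / (n : ℝ) ^ 3 ≤ 1 / ((n : ℝ) - 1) ^ 2 - 1 / (n : ℝ) ^ 2 := by
      have h0 : (0 : ℝ) < n := by linarith
      have h00 : (0 : ℝ) < (n : ℝ) - 1 := by linarith
      rw [div_sub_div _ _ (by positivity) (by positivity), div_le_div_iff₀ (by positivity)
        (by positivity)]
      have h2 : (1 * (n : ℝ) ^ 2 - ((n : ℝ) - 1) ^ 2 * 1) * (n : ℝ) ^ 3 -
          1 * (((n : ℝ) - 1) ^ 2 * (n : ℝ) ^ 2) = (n : ℝ) ^ 2 * ((n : ℝ) ^ 2 + n - 1) := by ring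
      have h3 : 0 ≤ (n : ℝ) ^ 2 * ((n : ℝ) ^ 2 + n - 1) := by
        apply mul_nonneg (by positivity)
        nlinarith
      linarith
    push_cast
    have h4 : (n : ℝ) + 1 - 1 = n := by ring
    rw [h4]
    linarith

theorem sum_eps_le {m0 : ℕ} (hm : 2 ≤ m0) (N : ℕ) :
    ∑ j ∈ Ico m0 N, eps j ≤ 1 / (((m0 : ℝ) - 1) ^ 2 * 2 ^ (Nat.log 2 m0) ^ 3) := by
  have hm' : (2 : ℝ) ≤ m0 := by exact_mod_cast hm
  have h00 : (0 : ℝ) < (m0 : ℝ) - 1 := by linarith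
  rcases le_or_gt m0 N with h | h
  · have h1 : ∀ j ∈ Ico m0 N, eps j ≤ 1 / (j : ℝ) ^ 3 * (1 / 2 ^ (Nat.log 2 m0) ^ 3) := by
      intro j hj
      rw [Finset.mem_Ico] at hj
      have hj0 : (0 : ℝ) < j := by
        have : (2 : ℝ) ≤ j := by exact_mod_cast hm.trans hj.1
        linarith
      unfold eps
      rw [one_div_mul_one_div]
      apply one_div_le_one_div_of_le (by positivity)
      apply mul_le_mul_of_nonneg_left _ (by positivity)
      apply pow_le_pow_right₀ (by norm_num)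
      exact Nat.pow_le_pow_left (Nat.log_mono_right hj.1) 3
    refine (Finset.sum_le_sum h1).trans ?_
    rw [← Finset.sum_mul]
    have h2 := sum_cube_le hm h
    have h3 : (0 : ℝ) ≤ 1 / ((N : ℝ) - 1) ^ 2 := by positivity
    calc (∑ j ∈ Ico m0 N, 1 / (j : ℝ) ^ 3) * (1 / 2 ^ (Nat.log 2 m0) ^ 3)
        ≤ 1 / ((m0 : ℝ) - 1) ^ 2 * (1 / 2 ^ (Nat.log 2 m0) ^ 3) :=
          mul_le_mul_of_nonneg_right (by linarith) (by positivity)
      _ = _ := by rw [one_div_mul_one_div]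
  · rw [Finset.Ico_eq_empty (by omega), Finset.sum_empty]
    positivity

end PPT4

open PPT4 in
/-- T4: the chain -/
theorem t4 (hX : S_X) : S_T4 := by
  intro L0 hL0 hS m0 hm0 V0 M0 hV0 k hk
  obtain ⟨k', L', h1, h2, h3, h4, h5⟩ := phase1 hX hL0 hS M0 k m0 hm0 hk
  have hT : V0 + 16 * 8 ^ k' ≤ 8 * 8 ^ L' := by
    have h6 : 8 * 8 ^ k' ≤ 8 ^ L' := by
      calc 8 * 8 ^ k' = 8 ^ (k' + 1) := by ring
        _ ≤ 8 ^ L' := Nat.pow_le_pow_right (by norm_num) h1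
    have h7 : 8 ^ M0 ≤ 8 ^ L' := Nat.pow_le_pow_right (by norm_num) h3
    omega
  obtain ⟨m, T, g1, g2, g3, g4⟩ := phase2 hX hL0 hS hm0 V0 k' (8 * 8 ^ L') hT
  refine ⟨m, T, g1, g2.trans h4, g3, fun U => ?_⟩
  refine (comb hX g2 h4 (h5 U) (g4 U)).trans (mul_le_mul_of_nonneg_right ?_ (by positivity))
  have e1 := sum_eps_le (show 2 ≤ m0 by omega) L'
  have e2 := sum_eps_le (show 2 ≤ m0 by omega) (k' + 1)
  calc ∑ j ∈ Ico m0 L', eps j + ∑ j ∈ Ico m0 (k' + 1), eps j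
      ≤ 1 / (((m0 : ℝ) - 1) ^ 2 * 2 ^ (Nat.log 2 m0) ^ 3) +
        1 / (((m0 : ℝ) - 1) ^ 2 * 2 ^ (Nat.log 2 m0) ^ 3) := add_le_add e1 e2
    _ = 2 / (((m0 : ℝ) - 1) ^ 2 * 2 ^ (Nat.log 2 m0) ^ 3) := by ring

end Pool.Agent.H558.PP
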