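import Pool.Agent.H558.PP.TStm

set_option autoImplicit false

/-!
# Positive proportion of odd values: all progressions and patterns (helper726, for helper558)
-/

namespace Pool.Agent.H558.PP

open PowerSeries Finset Pool.Agent.R836.PP Pool.Agent.H558.KK
open Pool.Agent.K7.H72.MT hiding W few dis DD dis_stable dis_vary DD_stable DD_sum DD_block few_bad
  dis_le DD_le base count

namespace T7aux

open scoped Classical in
/-- one residue class modulo `2 ^ b` -/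
theorem cls (U : S) (b β t₀ L : ℕ) (hβ : β < 2 ^ b) (w : ℕ → ZMod 2) (A : ℕ → Prop)
    {ε δ : ℝ} (hδ : 0 < δ) (K x i : ℕ) (hx2 : 2 ^ (b + i) ≤ x) (hx3 : x < 2 ^ (b + i + 1))
    (hxK : x < 2 ^ K) (hL : (L : ℝ) ≤ δ / 2 * 2 ^ i)
    (h6 : (#{t ∈ range (2 ^ (K - b)) | (N1 P2 (2 ^ i) (node P2 b β t₀ U,
        (fun a => w (β + 2 ^ b * a)), fun a => A (β + 2 ^ b * a)) t : ℝ) < δ * 2 ^ i} : ℝ) ≤
        ε * 2 ^ (K - b)) :
    (#{t ∈ range (2 ^ K) | t % 2 ^ b = t₀ ∧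
      (cnt P2 b β L U w A t x : ℝ) < δ / 2 ^ (b + 2) * x} : ℝ) ≤ ε * 2 ^ (K - b) := by
  have hbK : b + i < K := by
    have : 2 ^ (b + i) < 2 ^ K := by omega
    exact (Nat.pow_lt_pow_iff_right (by norm_num)).1 this
  have hP : 0 < 2 ^ b := by positivity
  have hx3r : (x : ℝ) ≤ 2 ^ (b + 1) * 2 ^ i := by
    rw [← pow_add, show b + 1 + i = b + i + 1 by ring]
    exact_mod_cast hx3.le
  refine le_trans ?_ h6
  have hcard : #{t ∈ range (2 ^ K) | t % 2 ^ b = t₀ ∧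
      (cnt P2 b β L U w A t x : ℝ) < δ / 2 ^ (b + 2) * x} ≤
      #{t ∈ range (2 ^ (K - b)) | (N1 P2 (2 ^ i) (node P2 b β t₀ U,
        (fun a => w (β + 2 ^ b * a)), fun a => A (β + 2 ^ b * a)) t : ℝ) < δ * 2 ^ i} := by
    refine card_le_card_of_injOn (fun t => t / 2 ^ b) ?_ ?_
    · intro t ht
      obtain ⟨htK, ht0, h3⟩ := mem_filter.1 ht
      rw [mem_range] at htK
      have hKb : 2 ^ K = 2 ^ b * 2 ^ (K - b) := by
        rw [← pow_add]
        congr 1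
        omega
      rw [mem_coe, mem_filter, mem_range]
      refine ⟨Nat.div_lt_of_lt_mul (by rw [← hKb]; exact htK), ?_⟩
      have hi1 : 1 ≤ 2 ^ i := Nat.one_le_two_pow
      have h4 := N1_cnt P2 (b := b) (β := β) (t := t) (x := x) (y := 2 ^ i - 1) L U w A hβ (by
        rw [pow_add] at hx2
        have h5 : 2 ^ b * (2 ^ i - 1) + 2 ^ b = 2 ^ b * 2 ^ i := by
          rw [← Nat.mul_succ]
          congr 1
          omega
        omega)
      rw [show 2 ^ i - 1 + 1 = 2 ^ i by omega, ht0] at h4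
      have h5 : (N1 P2 (2 ^ i) (node P2 b β t₀ U, (fun a => w (β + 2 ^ b * a)),
          fun a => A (β + 2 ^ b * a)) (t / 2 ^ b) : ℝ) ≤ L + cnt P2 b β L U w A t x := by
        exact_mod_cast h4
      calc _ ≤ (L : ℝ) + cnt P2 b β L U w A t x := h5
        _ < δ / 2 * 2 ^ i + δ / 2 ^ (b + 2) * x := by linarith
        _ ≤ δ / 2 * 2 ^ i + δ / 2 ^ (b + 2) * (2 ^ (b + 1) * 2 ^ i) := by gcongr
        _ = δ * 2 ^ i := by
            rw [pow_succ 2 (b + 1)]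
            field_simp
            ring
    · intro t1 h1 t2 h2 h
      have h1' := (mem_filter.1 (mem_coe.1 h1)).2.1
      have h2' := (mem_filter.1 (mem_coe.1 h2)).2.1
      simp only at h
      rw [← Nat.mod_add_div t1 (2 ^ b), ← Nat.mod_add_div t2 (2 ^ b), h, h1', h2']
  exact_mod_cast hcard

end T7aux

open T7aux in
/-- **T7** -/
theorem t7 (h6 : S_T6) : S_T7 := by
  classical
  intro M hM ε hε
  obtain ⟨b', m, hm, hMm⟩ := Nat.exists_eq_two_pow_mul_odd hM.ne'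
  obtain ⟨δ, hδ, hT6⟩ := h6 m hm.pos ε hε
  set b : ℕ := b' + 1 with hb
  have hP : 0 < 2 ^ b := by positivity
  have h2b : 2 ∣ 2 ^ b := dvd_pow_self 2 (by omega)
  refine ⟨δ / 2 ^ (b + 2), by positivity, ?_⟩
  intro ρ L c hc
  set β : ℕ := (ρ + L) % 2 ^ b with hβ
  have hβlt : β < 2 ^ b := Nat.mod_lt _ hP
  have hex : ∀ t₀ : ℕ, ∃ i0 : ℕ, t₀ % 2 = 1 → t₀ < 2 ^ b → ∀ (w : ℕ → ZMod 2) (K i : ℕ),
      i0 ≤ i → i ≤ K → (#{t ∈ range (2 ^ K) | (N1 P2 (2 ^ i) (node P2 b β t₀ (CC c),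
        (fun a => w (β + 2 ^ b * a)),
        fun a => (fun n => n % m = (ρ + L) % m) (β + 2 ^ b * a)) t : ℝ) < δ * 2 ^ i} : ℝ) ≤
        ε * 2 ^ K := by
    intro t₀
    by_cases h1 : t₀ % 2 = 1
    · by_cases h2 : t₀ < 2 ^ b
      · obtain ⟨m', hm'⟩ := node_ne c hc hβlt h1 h2
        obtain ⟨i0, hi0⟩ := hT6 (m' + 1)
        refine ⟨i0, fun _ _ w K i h3 h4 => ?_⟩
        exact hi0 (node P2 b β t₀ (CC c)) (fun a => w (β + 2 ^ b * a))
          (fun a => (fun n => n % m = (ρ + L) % m) (β + 2 ^ b * a))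
          ⟨m', Nat.lt_succ_self m', hm'⟩ (Dn_odd hm b β (ρ + L)) K i h3 h4
      · exact ⟨0, fun _ h => absurd h h2⟩
    · exact ⟨0, fun h => absurd h h1⟩
  choose I hI using hex
  obtain ⟨n1, hn1⟩ := exists_nat_gt ((L : ℝ) / (δ / 2))
  set i1 : ℕ := n1 + ∑ t₀ ∈ range (2 ^ b), I t₀ with hi1
  refine ⟨2 ^ (b + i1), ?_⟩
  intro w x K hx0 hxK
  have hx1 : 1 ≤ x := le_trans Nat.one_le_two_pow hx0
  have hlog : b + i1 ≤ Nat.log 2 x := Nat.le_log_of_pow_le (by norm_num) hx0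
  obtain ⟨i, hi⟩ := Nat.exists_eq_add_of_le (show b ≤ Nat.log 2 x by omega)
  have hii : i1 ≤ i := by omega
  have hx2 : 2 ^ (b + i) ≤ x := by
    rw [← hi]
    exact Nat.pow_log_le_self 2 (by omega)
  have hx3 : x < 2 ^ (b + i + 1) := by
    rw [← hi]
    exact Nat.lt_pow_succ_log_self (by norm_num) _
  have hbK : b + i < K := by
    have : 2 ^ (b + i) < 2 ^ K := by omega
    exact (Nat.pow_lt_pow_iff_right (by norm_num)).1 this
  have hL : (L : ℝ) ≤ δ / 2 * 2 ^ i := by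
    have h1 : (n1 : ℝ) ≤ 2 ^ i := by
      have h2 : n1 ≤ i := by omega
      have h3 : n1 ≤ 2 ^ i := h2.trans (Nat.lt_two_pow_self).le
      exact_mod_cast h3
    rw [div_lt_iff₀ (by positivity)] at hn1
    nlinarith
  have hcl : ∀ t₀, t₀ % 2 = 1 → t₀ < 2 ^ b → (#{t ∈ range (2 ^ K) | t % 2 ^ b = t₀ ∧
      (cnt P2 b β L (CC c) (fun n => w (n - L)) (fun n => n % m = (ρ + L) % m) t x : ℝ) <
        δ / 2 ^ (b + 2) * x} : ℝ) ≤ ε * 2 ^ (K - b) := by
    intro t₀ h1 h2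
    refine cls (CC c) b β t₀ L hβlt (fun n => w (n - L)) (fun n => n % m = (ρ + L) % m) hδ K x i
      hx2 hx3 hxK hL ?_
    have h3 : I t₀ ≤ i := by
      have h4 : I t₀ ≤ ∑ t₀ ∈ range (2 ^ b), I t₀ :=
        single_le_sum (f := I) (fun _ _ => Nat.zero_le _) (mem_range.2 h2)
      omega
    exact hI t₀ h1 h2 (fun n => w (n - L)) (K - b) i h3 (by omega)
  have hsub : {t ∈ range (2 ^ K) | t % 2 = 1 ∧ (cntP M ρ c w t x : ℝ) < δ / 2 ^ (b + 2) * x} ⊆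
      ({t₀ ∈ range (2 ^ b) | t₀ % 2 = 1}).biUnion fun t₀ => {t ∈ range (2 ^ K) | t % 2 ^ b = t₀ ∧
        (cnt P2 b β L (CC c) (fun n => w (n - L)) (fun n => n % m = (ρ + L) % m) t x : ℝ) <
          δ / 2 ^ (b + 2) * x} := by
    intro t ht
    obtain ⟨h1, h2, h5⟩ := mem_filter.1 ht
    rw [mem_biUnion]
    refine ⟨t % 2 ^ b, ?_, ?_⟩
    · rw [mem_filter, mem_range]
      refine ⟨Nat.mod_lt _ hP, ?_⟩
      rw [Nat.mod_mod_of_dvd _ h2b]
      exact h2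
    · rw [mem_filter]
      refine ⟨h1, rfl, lt_of_le_of_lt ?_ h5⟩
      exact_mod_cast cnt_le (ρ := ρ) hMm hm (Nat.le_succ b') c w t x
  have h1 := (card_le_card hsub).trans card_biUnion_le
  calc (#{t ∈ range (2 ^ K) | t % 2 = 1 ∧ (cntP M ρ c w t x : ℝ) < δ / 2 ^ (b + 2) * x} : ℝ) ≤
      ((∑ t₀ ∈ range (2 ^ b) with t₀ % 2 = 1, #{t ∈ range (2 ^ K) | t % 2 ^ b = t₀ ∧
        (cnt P2 b β L (CC c) (fun n => w (n - L)) (fun n => n % m = (ρ + L) % m) t x : ℝ) <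
          δ / 2 ^ (b + 2) * x} : ℕ) : ℝ) := by exact_mod_cast h1
    _ = ∑ t₀ ∈ range (2 ^ b) with t₀ % 2 = 1, (#{t ∈ range (2 ^ K) | t % 2 ^ b = t₀ ∧
        (cnt P2 b β L (CC c) (fun n => w (n - L)) (fun n => n % m = (ρ + L) % m) t x : ℝ) <
          δ / 2 ^ (b + 2) * x} : ℝ) := by
        push_cast
        rfl
    _ ≤ ∑ t₀ ∈ range (2 ^ b) with t₀ % 2 = 1, ε * 2 ^ (K - b) := by
        refine sum_le_sum fun t₀ ht => ?_
        rw [mem_filter, mem_range] at ht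
        exact hcl t₀ ht.2 ht.1
    _ ≤ ∑ t₀ ∈ range (2 ^ b), ε * 2 ^ (K - b) := by
        refine sum_le_sum_of_subset_of_nonneg (filter_subset _ _) fun t₀ _ _ => ?_
        positivity
    _ = ε * 2 ^ K := by
        rw [sum_const, card_range, nsmul_eq_mul]
        push_cast
        have h7 : (2 : ℝ) ^ K = 2 ^ b * 2 ^ (K - b) := by
          rw [← pow_add]
          congr 1
          omega
        rw [h7]
        ring

end Pool.Agent.H558.PP
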