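import Pool.Agent.H558.PP.FL
import Pool.Agent.H558.PP.E2
import Pool.Agent.H558.PP.E3
import Pool.Agent.H558.PP.E4
import Pool.Agent.H558.PP.E5
import Pool.Agent.H558.PP.NR
import Pool.Agent.H558.PP.T0
import Pool.Agent.H558.PP.X
import Pool.Agent.H558.PP.T1
import Pool.Agent.H558.PP.T2
import Pool.Agent.H558.PP.T3
import Pool.Agent.H558.PP.T4
import Pool.Agent.H558.PP.T5
import Pool.Agent.H558.PP.T6
import Pool.Agent.H558.PP.T7
import Pool.Agent.H558.PP.T8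

set_option autoImplicit false

/-!
# Assembly
-/

namespace Pool.Agent.H558.PP

theorem hE5 : S_E5 :=
  e5 Pool.Agent.H139.PPE1.e1 Pool.Agent.H139.PPE2.e2 Pool.Agent.H903.PP.e3
    Pool.Agent.H30.PPE4.e4 Pool.Agent.H30.PPE4.e4' Pool.Agent.H903.PP.pz

theorem hT0 : S_T0 := Pool.Agent.H707.PPT0.t0 fl Pool.Agent.H161.PPNR.nr hE5

theorem hN1 : S_N1 := Pool.Agent.H155.PPX.n1

theorem hN3 : S_N3 := Pool.Agent.H155.PPX.n3

theorem hX : S_X := Pool.Agent.H155.PPX.xx_trans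

theorem hT1 : S_T1 := Pool.Agent.H154.PPT1.t1 hN1 hN3

theorem hT3 : S_T3 := Pool.Agent.H195.PPT3.t3 hT0 hT1 Pool.Agent.H399.PP.t2 hN1

theorem hT4 : S_T4 := t4 hX

theorem hT5 : S_T5 := Pool.Agent.H264.PPT5.t5 hT3 hT4 hN1

theorem hT6 : S_T6 := Pool.Agent.H282.PPT6.t6 hT5

theorem hT7 : S_T7 := t7 hT6

theorem hT8 : S_T8 := Pool.Agent.H97.PPT8.t8 hT7

end Pool.Agent.H558.PP
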