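import Pool.Agent.H558.PP.DStm
import Pool.Agent.H558.PP.T4

set_option autoImplicit false

/-!
# Logarithmic density, D1 and D2: the chain with a given number of steps, dead sections of tame elements
-/

namespace Pool.Agent.H571.PPD1

open PowerSeries Finset Pool.Agent.R836.PP Pool.Agent.H558.KK Pool.Agent.H558.PP
  Pool.Agent.H558.PP.PPT4
open Pool.Agent.K7.H72.MT hiding W few dis DD dis_stable dis_vary DD_stable DD_sum DD_block few_bad
  dis_le DD_le base count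

theorem Gl_succ (m0 J : ℕ) : Gl m0 (J + 1) = m0 + Gl (m0 + 1) J := by
  unfold Gl
  rw [Finset.sum_eq_sum_Ico_succ_bot (by omega)]
  congr 2
  congr 1
  omega

theorem chain (hX : S_X) {L0 : ℕ} (hL0 : 6 ≤ L0) (hS : Stp L0) (J : ℕ) :
    ∀ m0 : ℕ, L0 ≤ m0 → ∃ g : ℕ, g ≤ Gl m0 J ∧ ∀ k : ℕ, Gl m0 J ≤ k → ∀ U : S,
      (XX k (8 * 8 ^ m0) (k - g) (8 * 8 ^ (m0 + J)) U : ℝ) ≤
        (∑ L ∈ Ico m0 (m0 + J), eps L) * 4 ^ k := by
  induction J with
  | zero =>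
    intro m0 _
    refine ⟨0, Nat.zero_le _, fun k _ U => ?_⟩
    rw [Nat.sub_zero, Nat.add_zero, XX_self]
    simp
  | succ J ih =>
    intro m0 hm0
    obtain ⟨B, hB, hB2⟩ := hS m0 hm0
    obtain ⟨g1, hg1, h1⟩ := ih (m0 + 1) (by omega)
    refine ⟨(m0 - B) + g1, ?_, fun k hk U => ?_⟩
    · rw [Gl_succ]
      omega
    · rw [Gl_succ] at hk
      have h2 := h1 (k - m0 + B) (by omega) U
      have h6 := hB2 (k - m0) U (4 * 8 ^ m0)
      have e1 : 4 * 8 ^ m0 + 4 * 8 ^ m0 = 8 * 8 ^ m0 := by ring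
      have e2 : k - m0 + m0 = k := by omega
      rw [e1, e2] at h6
      have h7 : 8 * 8 ^ (m0 + 1) ≤ 2 ^ (m0 - B) * (4 * 8 ^ m0) := by
        have h8 : 2 ^ 4 ≤ 2 ^ (m0 - B) := Nat.pow_le_pow_right (by norm_num) (by omega)
        calc 8 * 8 ^ (m0 + 1) = 2 ^ 4 * (4 * 8 ^ m0) := by ring
          _ ≤ _ := Nat.mul_le_mul_right _ h8
      have h8 : (XX k (8 * 8 ^ m0) (k - m0 + B) (8 * 8 ^ (m0 + 1)) U : ℝ) ≤ eps m0 * 4 ^ k := by
        refine le_trans ?_ h6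
        exact_mod_cast XX_mono h7
      have e3 : k - (m0 - B + g1) = k - m0 + B - g1 := by omega
      have e4 : m0 + 1 + J = m0 + (J + 1) := by omega
      rw [e4] at h2
      rw [e3, Finset.sum_eq_sum_Ico_succ_bot (show m0 < m0 + (J + 1) by omega)]
      exact comb hX (Nat.sub_le _ _) (by omega) h8 h2

/-- D1: the chain with a given number of steps -/
theorem d1 (hX : S_X) : S_D1 := by
  intro L0 hL0 hS m0 J hm0
  obtain ⟨g, hg, h⟩ := chain hX hL0 hS J m0 hm0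
  refine ⟨g, hg, fun k hk U => (h k hk U).trans ?_⟩
  apply mul_le_mul_of_nonneg_right _ (by positivity)
  refine (sum_eps_le (show 2 ≤ m0 by omega) (m0 + J)).trans ?_
  have hm' : (2 : ℝ) ≤ m0 := by exact_mod_cast (show 2 ≤ m0 by omega)
  have h00 : (0 : ℝ) < (m0 : ℝ) - 1 := by linarith
  apply one_div_le_one_div_of_le (by positivity)
  exact le_mul_of_one_le_right (by positivity) (one_le_pow₀ (by norm_num))

/-- D2: the dead sections of tame elements -/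
theorem d2 (h4 : S_T4) : S_D2 := by
  classical
  intro L0 hL0 hS C
  obtain ⟨A, hA⟩ : ∃ A : ℕ, C ≤ 8 ^ A := ⟨C, (Nat.lt_pow_self (by norm_num)).le⟩
  refine ⟨A, fun m0 hm0 k hk U hU => ?_⟩
  have hV : C * 4 ^ m0 ≤ 8 ^ (m0 + A) := by
    calc C * 4 ^ m0 ≤ 8 ^ A * 8 ^ m0 :=
          Nat.mul_le_mul hA (Nat.pow_le_pow_left (by norm_num) m0)
      _ = 8 ^ (m0 + A) := by rw [pow_add]; ring
  obtain ⟨m, T, h1, h2, h3, h5⟩ := h4 L0 hL0 hS m0 hm0 (C * 4 ^ m0) (m0 + A) hV k (by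
    have : m0 + A - m0 = A := by omega
    rw [this]
    exact hk)
  have h6 := h5 U
  have hT : C * 4 ^ m ≤ T := by
    have : C * 4 ^ m ≤ C * 4 ^ m0 :=
      Nat.mul_le_mul_left _ (Nat.pow_le_pow_right (by norm_num) h1.le)
    omega
  have h7 : #{p ∈ range (2 ^ k) ×ˢ range (2 ^ k) | ¬ Gv (8 * 8 ^ m0) (node P2 k p.2 p.1 U)} ≤
      XX k (8 * 8 ^ m0) m T U := by
    unfold XX
    apply card_le_card
    intro p hp
    rw [mem_filter] at hp ⊢
    exact ⟨hp.1, hp.2, (hU m _ _).mono hT⟩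
  have h8 : (#{p ∈ range (2 ^ k) ×ˢ range (2 ^ k) | ¬ Gv (8 * 8 ^ m0) (node P2 k p.2 p.1 U)} : ℝ) ≤
      XX k (8 * 8 ^ m0) m T U := by exact_mod_cast h7
  refine le_trans ?_ ((h8.trans h6).trans ?_)
  · exact le_of_eq rfl
  · apply mul_le_mul_of_nonneg_right _ (by positivity)
    have hm' : (2 : ℝ) ≤ m0 := by exact_mod_cast (show 2 ≤ m0 by omega)
    have h00 : (0 : ℝ) < (m0 : ℝ) - 1 := by linarith
    apply div_le_div_of_nonneg_left (by norm_num) (by positivity)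
    exact le_mul_of_one_le_right (by positivity) (one_le_pow₀ (by norm_num))

end Pool.Agent.H571.PPD1
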