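import Pool.Agent.H558.PP.DStm

set_option autoImplicit false

/-!
# Logarithmic density: the conditional version of the chain (S_D3)
-/

namespace Pool.Agent.H591.PPD3

open Finset Pool.Agent.H558.PP Pool.Agent.R836.PP Pool.Agent.H558.KK
open Pool.Agent.K7.H72.MT hiding W few dis DD dis_stable dis_vary DD_stable DD_sum DD_block few_bad
  dis_le DD_le base count

theorem mod_div (p i B : ℕ) : p % 2 ^ (i + B) / 2 ^ i = p / 2 ^ i % 2 ^ B := by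
  rw [pow_add]; exact Nat.mod_mul_right_div_self _ _ _

theorem mod_mod (p i B : ℕ) : p % 2 ^ (i + B) % 2 ^ i = p % 2 ^ i :=
  Nat.mod_mod_of_dvd _ (pow_dvd_pow 2 (Nat.le_add_right i B))

open scoped Classical in
theorem count_le (hN1 : S_N1) (i G B T T' a : ℕ) (ha : a < 2 ^ i) (U : S) :
    ∑ s ∈ range (2 ^ G), #{b ∈ range (2 ^ (i + G)) |
      ¬ Gv T (node P2 (i + G) b (a + 2 ^ i * s) U) ∧
      Gv T' (node P2 (i + B) (b % 2 ^ (i + B)) ((a + 2 ^ i * s) % 2 ^ (i + B)) U)} ≤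
      ∑ b0 ∈ range (2 ^ i), XX G T B T' (node P2 i b0 a U) := by
  have hdiv : ∀ s, (a + 2 ^ i * s) / 2 ^ i = s := by
    intro s
    rw [Nat.add_mul_div_left _ _ (by positivity), Nat.div_eq_of_lt ha, zero_add]
  have hmod : ∀ s, (a + 2 ^ i * s) % 2 ^ i = a := by
    intro s
    rw [Nat.add_mul_mod_self_left, Nat.mod_eq_of_lt ha]
  have e1 : ∑ s ∈ range (2 ^ G), #{b ∈ range (2 ^ (i + G)) |
      ¬ Gv T (node P2 (i + G) b (a + 2 ^ i * s) U) ∧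
      Gv T' (node P2 (i + B) (b % 2 ^ (i + B)) ((a + 2 ^ i * s) % 2 ^ (i + B)) U)} =
      #{p ∈ range (2 ^ G) ×ˢ range (2 ^ (i + G)) |
        ¬ Gv T (node P2 (i + G) p.2 (a + 2 ^ i * p.1) U) ∧
        Gv T' (node P2 (i + B) (p.2 % 2 ^ (i + B)) ((a + 2 ^ i * p.1) % 2 ^ (i + B)) U)} := by
    rw [Finset.card_filter, Finset.sum_product]
    exact Finset.sum_congr rfl fun s _ => Finset.card_filter _ _
  rw [e1]
  unfold XX
  rw [Finset.card_eq_sum_card_fiberwise (f := fun p : ℕ × ℕ => p.2 % 2 ^ i)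
    (t := range (2 ^ i))]
  · apply Finset.sum_le_sum
    intro q _
    apply Finset.card_le_card_of_injOn (fun p : ℕ × ℕ => (p.1, p.2 / 2 ^ i))
    · intro p hp
      rw [Finset.mem_coe, Finset.mem_filter, Finset.mem_filter, Finset.mem_product,
        Finset.mem_range, Finset.mem_range] at hp
      obtain ⟨⟨⟨hp1, hp2⟩, hg1, hg2⟩, hq⟩ := hp
      rw [Finset.mem_coe, Finset.mem_filter, Finset.mem_product, Finset.mem_range,
        Finset.mem_range]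
      rw [pow_add] at hp2
      refine ⟨⟨hp1, Nat.div_lt_of_lt_mul hp2⟩, ?_, ?_⟩
      · rw [(hN1 P2 i G p.2 (a + 2 ^ i * p.1) U).1, hdiv, hmod, hq] at hg1
        exact hg1
      · rw [(hN1 P2 i B (p.2 % 2 ^ (i + B)) ((a + 2 ^ i * p.1) % 2 ^ (i + B)) U).1, mod_div,
          mod_div, mod_mod, mod_mod, hdiv, hmod, hq] at hg2
        exact hg2
    · intro p hp p' hp' hpp
      rw [Finset.mem_coe, Finset.mem_filter] at hp hp'
      have h2 : p.2 % 2 ^ i = p'.2 % 2 ^ i := hp.2.trans hp'.2.symm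
      have hpp' : (p.1, p.2 / 2 ^ i) = (p'.1, p'.2 / 2 ^ i) := hpp
      have h3 : p.1 = p'.1 := (Prod.mk.inj hpp').1
      have h4 : p.2 / 2 ^ i = p'.2 / 2 ^ i := (Prod.mk.inj hpp').2
      apply Prod.ext
      · exact h3
      · rw [← Nat.div_add_mod p.2 (2 ^ i), ← Nat.div_add_mod p'.2 (2 ^ i), h2, h4]
  · intro p _
    rw [Finset.mem_coe, Finset.mem_range]
    exact Nat.mod_lt _ (by positivity)

/-- D3 -/
theorem d3 (h1 : S_D1) (hN1 : S_N1) : S_D3 := by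
  classical
  intro L0 hL0 hS m0 J hm0
  obtain ⟨g, hg, H⟩ := h1 L0 hL0 hS m0 J hm0
  refine ⟨g, hg, ?_⟩
  intro U k hk a ha
  obtain ⟨G, hG⟩ : ∃ G, G = Gl m0 J := ⟨_, rfl⟩
  rw [← hG] at hg hk ha ⊢
  obtain ⟨i, hi⟩ : ∃ i, k = i + G := ⟨k - G, by omega⟩
  have hki : k - G = i := by omega
  have hkg : k - g = i + (G - g) := by omega
  rw [hki] at ha ⊢
  have h2 := count_le hN1 i G (G - g) (8 * 8 ^ m0) (8 * 8 ^ (m0 + J)) a ha U
  have h3 : ∀ b0 ∈ range (2 ^ i), (XX G (8 * 8 ^ m0) (G - g) (8 * 8 ^ (m0 + J))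
      (node P2 i b0 a U) : ℝ) ≤ 1 / ((m0 : ℝ) - 1) ^ 2 * 4 ^ G := by
    intro b0 _
    rw [hG] at *
    exact H _ le_rfl _
  have h4 : ((∑ s ∈ range (2 ^ G), #{b ∈ range (2 ^ (i + G)) |
      ¬ Gv (8 * 8 ^ m0) (node P2 (i + G) b (a + 2 ^ i * s) U) ∧
      Gv (8 * 8 ^ (m0 + J)) (node P2 (i + (G - g)) (b % 2 ^ (i + (G - g)))
        ((a + 2 ^ i * s) % 2 ^ (i + (G - g))) U)} : ℕ) : ℝ) ≤
      2 ^ i * (1 / ((m0 : ℝ) - 1) ^ 2 * 4 ^ G) := by
    refine (Nat.cast_le.2 h2).trans ?_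
    rw [Nat.cast_sum]
    refine (Finset.sum_le_sum h3).trans ?_
    rw [Finset.sum_const, Finset.card_range, nsmul_eq_mul]
    push_cast
    exact le_rfl
  have h5 : ∑ s ∈ range (2 ^ G), Zf (8 * 8 ^ m0) (8 * 8 ^ (m0 + J)) g U k (a + 2 ^ i * s) =
      ((∑ s ∈ range (2 ^ G), #{b ∈ range (2 ^ (i + G)) |
      ¬ Gv (8 * 8 ^ m0) (node P2 (i + G) b (a + 2 ^ i * s) U) ∧
      Gv (8 * 8 ^ (m0 + J)) (node P2 (i + (G - g)) (b % 2 ^ (i + (G - g)))
        ((a + 2 ^ i * s) % 2 ^ (i + (G - g))) U)} : ℕ) : ℝ) / 2 ^ k := by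
    rw [Nat.cast_sum, Finset.sum_div]
    refine Finset.sum_congr rfl fun s _ => ?_
    unfold Zf
    rw [hkg, hi]
  rw [h5, div_le_iff₀ (by positivity)]
  refine h4.trans (le_of_eq ?_)
  rw [hi, pow_add]
  have h6 : (4 : ℝ) ^ G = 2 ^ G * 2 ^ G := by
    rw [← mul_pow]; norm_num
  rw [h6]
  ring

end Pool.Agent.H591.PPD3
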