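import Pool.Agent.H558.PP.DStm
import Pool.Agent.H558.PP.Dis2

set_option autoImplicit false

/-!
# D5: disagreement with a prescribed sequence, mean over the levels
-/

namespace Pool.Agent.H997.PPD5

open PowerSeries Finset Pool.Agent.R836.PP Pool.Agent.H558.PP
open Pool.Agent.K7.H72.MT hiding W few dis DD dis_stable dis_vary DD_stable DD_sum DD_block few_bad
  dis_le DD_le base count
open Pool.Agent.H558.KK hiding dis DD dis_stable dis_vary DD_stable DD_sum DD_block few_bad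
  dis_le DD_le base count
open Pool.Agent.H282.PPDis

theorem AD_desc {R : ℕ} (G : S) (k : ℕ) : ∀ (L : List El) (t : ℕ), AD R L →
    AD R (desc G k L t) := by
  induction k with
  | zero =>
    intro L t h
    exact h
  | succ k ih =>
    intro L t h
    exact ih _ _ (h.ch G _)

/-- none of the blocks gives many disagreements -/
def bad (V R J k : ℕ) (x : El) (s : ℕ) : Prop :=
  ∀ j < J, 2 ^ R * DD V P2 R j (desc P2 k [x] s) (s / 2 ^ k) < gv V (desc P2 k [x] s)

open scoped Classical in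
/-- the indicator of the bad points, shifted by the length of the blocks -/
noncomputable def fb (V R J : ℕ) (x : El) (k t : ℕ) : ℝ :=
  if R * J ≤ k ∧ bad V R J (k - R * J) x (t % 2 ^ k) then 1 else 0

theorem fb_nonneg (V R J : ℕ) (x : El) (k t : ℕ) : 0 ≤ fb V R J x k t := by
  unfold fb
  split_ifs <;> norm_num

theorem fb_le (V R J : ℕ) (x : El) (k t : ℕ) : fb V R J x k t ≤ 1 := by
  unfold fb
  split_ifs <;> norm_num

theorem fb_mod (V R J : ℕ) (x : El) (k t : ℕ) : fb V R J x k (t % 2 ^ k) = fb V R J x k t := by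
  unfold fb
  rw [Nat.mod_mod]

theorem fb_block (V R J : ℕ) (x : El) (hx : Dn R x.2.2) (k : ℕ) (hk : R * J ≤ k) (a : ℕ)
    (ha : a < 2 ^ (k - R * J)) :
    ∑ s ∈ range (2 ^ (R * J)), fb V R J x k (a + 2 ^ (k - R * J) * s) ≤ ((2 ^ R - 1 : ℕ) : ℝ) ^ J := by
  classical
  obtain ⟨m, hm⟩ : ∃ m, k = m + R * J := ⟨k - R * J, by omega⟩
  subst hm
  rw [Nat.add_sub_cancel] at ha ⊢
  have hL : AD R (desc P2 m [x] a) := by
    apply AD_desc
    intro y hy
    rw [List.mem_singleton] at hy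
    rw [hy]
    exact hx
  have h1 : ∀ s ∈ range (2 ^ (R * J)), fb V R J x (m + R * J) (a + 2 ^ m * s) =
      if (∀ j < J, 2 ^ R * DD V P2 R j (desc P2 m [x] a) s < gv V (desc P2 m [x] a)) then 1
        else 0 := by
    intro s hs
    rw [mem_range] at hs
    have e1 : a + 2 ^ m * s < 2 ^ (m + R * J) := by
      rw [pow_add]
      calc a + 2 ^ m * s < 2 ^ m + 2 ^ m * s := by omega
        _ = 2 ^ m * (s + 1) := by ring
        _ ≤ _ := Nat.mul_le_mul_left _ hs
    have e2 : desc P2 m [x] (a + 2 ^ m * s) = desc P2 m [x] a := by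
      rw [← desc_mod P2 m [x] (a + 2 ^ m * s), Nat.add_mul_mod_self_left, desc_mod]
    have e3 : (a + 2 ^ m * s) / 2 ^ m = s := by
      rw [Nat.add_mul_div_left _ _ (by positivity), Nat.div_eq_of_lt ha, zero_add]
    unfold fb bad
    rw [Nat.mod_eq_of_lt e1, Nat.add_sub_cancel, e2, e3]
    simp only [Nat.le_add_left, true_and]
  rw [sum_congr rfl h1, ← sum_filter, sum_const, nsmul_eq_mul, mul_one]
  exact_mod_cast few_bad (V := V) isP_P2 hL J

theorem step_le (V R J X : ℕ) (hX : V + 2 ^ (R * J) ≤ 2 ^ X) (U : S) (w : ℕ → ZMod 2)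
    (A : ℕ → Prop) (hA : Dn R A) (k t : ℕ) :
    (Yf V U k t - fb V R J (U, w, A) (k + R * J) t) / 2 ^ (R + X) ≤
      (N1 P2 (2 ^ (k + X)) (U, w, A) t : ℝ) / 2 ^ (k + X) := by
  classical
  have hY : Yf V U k t ≤ 1 := by
    unfold Yf
    rw [div_le_one (by positivity)]
    have := card_filter_le (range (2 ^ k)) (fun b => Gv V (node P2 k b t U))
    rw [card_range] at this
    exact_mod_cast this
  have h0 : (0 : ℝ) ≤ (N1 P2 (2 ^ (k + X)) (U, w, A) t : ℝ) / 2 ^ (k + X) := by positivity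
  by_cases hb : bad V R J k (U, w, A) (t % 2 ^ (k + R * J))
  · have h1 : fb V R J (U, w, A) (k + R * J) t = 1 := by
      unfold fb
      rw [if_pos]
      exact ⟨Nat.le_add_left _ _, by rw [Nat.add_sub_cancel]; exact hb⟩
    rw [h1]
    refine le_trans ?_ h0
    apply div_nonpos_of_nonpos_of_nonneg
    · linarith
    · positivity
  · have h1 : fb V R J (U, w, A) (k + R * J) t = 0 := by
      unfold fb
      rw [if_neg]
      rintro ⟨-, h⟩
      rw [Nat.add_sub_cancel] at h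
      exact hb h
    rw [h1, sub_zero]
    unfold bad at hb
    push Not at hb
    obtain ⟨j, hj, hb⟩ := hb
    have hL : AD R (desc P2 k [((U, w, A) : El)] t) := by
      apply AD_desc
      intro y hy
      rw [List.mem_singleton] at hy
      rw [hy]
      exact hA
    have e1 : desc P2 k [((U, w, A) : El)] (t % 2 ^ (k + R * J)) =
        desc P2 k [((U, w, A) : El)] t := by
      rw [← desc_mod P2 k _ (t % 2 ^ (k + R * J)), ← desc_mod P2 k _ t]
      congr 1
      rw [pow_add]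
      exact Nat.mod_mul_right_mod _ _ _
    have e2 : t % 2 ^ (k + R * J) / 2 ^ k = t / 2 ^ k % 2 ^ (R * J) := by
      rw [pow_add]
      exact Nat.mod_mul_right_div_self _ _ _
    have e3 : DD V P2 R j (desc P2 k [((U, w, A) : El)] t) (t / 2 ^ k % 2 ^ (R * J)) =
        DD V P2 R j (desc P2 k [((U, w, A) : El)] t) (t / 2 ^ k) := by
      rw [← DD_stable isP_P2 hL hj (t / 2 ^ k / 2 ^ (R * J)), Nat.mod_add_div]
    rw [e1, e2, e3] at hb
    have h2 := DD_le (V := V) (G := P2) hL hj (2 ^ X) (t / 2 ^ k) hX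
    rw [← NN_desc, ← pow_add, NN_single] at h2
    have h3 : nv V k t U ≤ 2 ^ R * N1 P2 (2 ^ (k + X)) (U, w, A) t := by
      refine le_trans (le_of_eq ?_) (hb.trans (Nat.mul_le_mul_left _ h2))
      rw [gv_desc]
      simp
    have h4 : (nv V k t U : ℝ) ≤ 2 ^ R * N1 P2 (2 ^ (k + X)) (U, w, A) t := by
      exact_mod_cast h3
    have h5 : Yf V U k t = (nv V k t U : ℝ) / 2 ^ k := by
      unfold Yf nv
      congr 2
    rw [h5, div_div, div_le_div_iff₀ (by positivity) (by positivity)]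
    calc (nv V k t U : ℝ) * 2 ^ (k + X) ≤
        (2 ^ R * N1 P2 (2 ^ (k + X)) (U, w, A) t) * 2 ^ (k + X) := by gcongr
      _ = (N1 P2 (2 ^ (k + X)) (U, w, A) t : ℝ) * (2 ^ k * 2 ^ (R + X)) := by
        rw [pow_add, pow_add]
        ring

theorem rpow_quarter {K : ℕ} (hK : 1 ≤ K) : (1 : ℝ) / K ≤ (K : ℝ) ^ (-(1 / 4) : ℝ) := by
  have h1 : (1 : ℝ) ≤ K := by exact_mod_cast hK
  rw [one_div, ← Real.rpow_neg_one]
  exact Real.rpow_le_rpow_of_exponent_le h1 (by norm_num)

theorem d5 (h4 : S_D4) (hv : S_VAR) : S_D5 := by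
  classical
  intro R hR
  obtain ⟨V, H4⟩ := h4
  have h2R : (2 : ℝ) ≤ 2 ^ R := by
    calc (2 : ℝ) = 2 ^ 1 := by norm_num
      _ ≤ 2 ^ R := pow_le_pow_right₀ (by norm_num) hR
  obtain ⟨th, hth⟩ : ∃ th : ℝ, th = (2 ^ R - 1) / 2 ^ R := ⟨_, rfl⟩
  have hth0 : 0 < th := by
    rw [hth]
    exact div_pos (by linarith) (by positivity)
  have hth1 : th < 1 := by
    rw [hth, div_lt_one (by positivity)]
    linarith
  obtain ⟨J, hJ⟩ := exists_pow_lt_of_lt_one (show (0 : ℝ) < 1 / 32 by norm_num) hth1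
  have hJ1 : 1 ≤ J := by
    rcases Nat.eq_zero_or_pos J with h | h
    · exfalso
      rw [h, pow_zero] at hJ
      norm_num at hJ
    · exact h
  obtain ⟨g, hg⟩ : ∃ g, g = R * J := ⟨_, rfl⟩
  have hg1 : 1 ≤ g := by
    rw [hg]
    exact Nat.mul_pos hR hJ1
  obtain ⟨X, hXdef⟩ : ∃ X, X = R * J + V := ⟨_, rfl⟩
  have hX : V + 2 ^ (R * J) ≤ 2 ^ X := by
    have h1 : V + 1 ≤ 2 ^ V := Nat.lt_two_pow_self
    have h2 : 1 ≤ 2 ^ (R * J) := Nat.one_le_two_pow
    rw [hXdef, pow_add]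
    calc V + 2 ^ (R * J) ≤ 2 ^ (R * J) * V + 2 ^ (R * J) := by nlinarith
      _ = 2 ^ (R * J) * (V + 1) := by ring
      _ ≤ _ := Nat.mul_le_mul_left _ h1
  refine ⟨X, 1 / (8 * 2 ^ (R + X)), by positivity, fun C => ?_⟩
  obtain ⟨A4, hA4, H⟩ := H4 C
  have hg1' : (1 : ℝ) ≤ g := by exact_mod_cast hg1
  refine ⟨A4 + 4096 * g, by positivity, ?_⟩
  intro U w A' hU hA' K N hK hKN
  have hK1 : (1 : ℝ) ≤ K := by exact_mod_cast hK
  have hq := rpow_quarter hK
  have hq0 : (0 : ℝ) < (K : ℝ) ^ (-(1 / 4) : ℝ) := Real.rpow_pos_of_pos (by linarith) _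
  have hK0 : (0 : ℝ) < K := by linarith
  have hq' : 1 ≤ K * (K : ℝ) ^ (-(1 / 4) : ℝ) := by
    have := (div_le_iff₀ hK0).1 hq
    linarith
  rcases Nat.lt_or_ge K g with hKg | hKg
  · -- small `K`
    have h1 : (K : ℝ) ≤ g := by exact_mod_cast hKg.le
    have h2 : (1 : ℝ) ≤ (A4 + 4096 * g) * (K : ℝ) ^ (-(1 / 4) : ℝ) := by
      calc (1 : ℝ) ≤ K * (K : ℝ) ^ (-(1 / 4) : ℝ) := hq'
        _ ≤ (A4 + 4096 * g) * (K : ℝ) ^ (-(1 / 4) : ℝ) := by
          apply mul_le_mul_of_nonneg_right _ hq0.le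
          nlinarith
    have h3 : (#{t ∈ range (2 ^ N) |
        ∑ k ∈ range K, (N1 P2 (2 ^ (k + X)) (U, w, A') t : ℝ) / 2 ^ (k + X) <
          1 / (8 * 2 ^ (R + X)) * K} : ℝ) ≤ 2 ^ N := by
      have := card_filter_le (range (2 ^ N)) (fun t =>
        ∑ k ∈ range K, (N1 P2 (2 ^ (k + X)) (U, w, A') t : ℝ) / 2 ^ (k + X) <
          1 / (8 * 2 ^ (R + X)) * K)
      rw [card_range] at this
      exact_mod_cast this
    refine h3.trans ?_
    calc (2 : ℝ) ^ N = 1 * 2 ^ N := (one_mul _).symm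
      _ ≤ _ := mul_le_mul_of_nonneg_right h2 (by positivity)
  · have hKg' : (g : ℝ) ≤ K := by exact_mod_cast hKg
    have hV := hv N (K + g) g (fb V R J (U, w, A')) (1 / 32) (1 / 32) hg1 (by omega)
      (by omega) (by norm_num) (fun k t => ⟨fb_nonneg _ _ _ _ _ _, fb_le _ _ _ _ _ _⟩)
      (fun k t => fb_mod _ _ _ _ _ _) (by
        intro k hk a ha
        rw [hg] at hk ha ⊢
        refine (fb_block V R J (U, w, A') hA' k hk a ha).trans ?_
        have h1 : ((2 ^ R - 1 : ℕ) : ℝ) = 2 ^ R - 1 := by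
          rw [Nat.cast_sub Nat.one_le_two_pow]
          norm_num
        rw [h1]
        have h2 : ((2 : ℝ) ^ R - 1) = th * 2 ^ R := by
          rw [hth]
          field_simp
        rw [h2, mul_pow, ← pow_mul]
        exact mul_le_mul_of_nonneg_right hJ.le (by positivity))
    have hD := H U hU K N hK (by omega)
    have hsub : (#{t ∈ range (2 ^ N) |
        ∑ k ∈ range K, (N1 P2 (2 ^ (k + X)) (U, w, A') t : ℝ) / 2 ^ (k + X) <
          1 / (8 * 2 ^ (R + X)) * K} : ℝ) ≤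
        (#{t ∈ range (2 ^ N) | ∑ k ∈ range K, Yf V U k t < K / 2} : ℝ) +
        (#{t ∈ range (2 ^ N) | (1 / 32 + 1 / 32 : ℝ) * ((K + g : ℕ) : ℝ) <
          ∑ k ∈ Ico g (K + g + 1), fb V R J (U, w, A') k t} : ℝ) := by
      have : #{t ∈ range (2 ^ N) |
          ∑ k ∈ range K, (N1 P2 (2 ^ (k + X)) (U, w, A') t : ℝ) / 2 ^ (k + X) <
            1 / (8 * 2 ^ (R + X)) * K} ≤
          #{t ∈ range (2 ^ N) | ∑ k ∈ range K, Yf V U k t < K / 2} +
          #{t ∈ range (2 ^ N) | (1 / 32 + 1 / 32 : ℝ) * ((K + g : ℕ) : ℝ) <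
            ∑ k ∈ Ico g (K + g + 1), fb V R J (U, w, A') k t} := by
        refine le_trans (card_le_card ?_) (card_union_le _ _)
        intro t ht
        rw [mem_filter] at ht
        rw [mem_union, mem_filter, mem_filter]
        by_contra hne
        push Not at hne
        have h1 := hne.1 ht.1
        have h2 := hne.2 ht.1
        have h3 : ∑ k ∈ range K, fb V R J (U, w, A') (k + R * J) t ≤
            ∑ k ∈ Ico g (K + g + 1), fb V R J (U, w, A') k t := by
          have e1 : ∑ k ∈ range K, fb V R J (U, w, A') (k + R * J) t =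
              ∑ k ∈ Ico g (K + g), fb V R J (U, w, A') k t := by
            rw [sum_Ico_eq_sum_range, Nat.add_sub_cancel]
            refine sum_congr rfl fun k _ => ?_
            rw [hg, add_comm]
          rw [e1]
          refine sum_le_sum_of_subset_of_nonneg ?_ fun k _ _ => fb_nonneg _ _ _ _ _ _
          intro k hk
          rw [mem_Ico] at hk ⊢
          omega
        have h4 : ∑ k ∈ range K,
            (Yf V U k t - fb V R J (U, w, A') (k + R * J) t) / 2 ^ (R + X) ≤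
            ∑ k ∈ range K, (N1 P2 (2 ^ (k + X)) (U, w, A') t : ℝ) / 2 ^ (k + X) :=
          sum_le_sum fun k _ => step_le V R J X hX U w A' hA' k t
        rw [← sum_div, sum_sub_distrib] at h4
        have h5 := h4.trans_lt ht.2
        rw [div_lt_iff₀ (by positivity)] at h5
        have h6 : 1 / (8 * 2 ^ (R + X)) * (K : ℝ) * 2 ^ (R + X) = K / 8 := by
          field_simp
        rw [h6] at h5
        push_cast at h2
        linarith
      exact_mod_cast this
    refine hsub.trans ((add_le_add hD hV).trans ?_)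
    have h7 : 4 * (g : ℝ) / ((1 / 32) ^ 2 * ((K + g : ℕ) : ℝ)) ≤
        4096 * g * (K : ℝ) ^ (-(1 / 4) : ℝ) := by
      rw [div_le_iff₀ (by positivity)]
      push_cast
      have h8 : 1 ≤ ((K : ℝ) + g) * (K : ℝ) ^ (-(1 / 4) : ℝ) := by
        have : (0 : ℝ) ≤ g * (K : ℝ) ^ (-(1 / 4) : ℝ) := by positivity
        linarith
      have h9 : 4096 * (g : ℝ) * (K : ℝ) ^ (-(1 / 4) : ℝ) * ((1 / 32) ^ 2 * ((K : ℝ) + g)) =
          4 * g * (((K : ℝ) + g) * (K : ℝ) ^ (-(1 / 4) : ℝ)) := by ring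
      rw [h9]
      nlinarith
    calc A4 * (K : ℝ) ^ (-(1 / 4) : ℝ) * 2 ^ N +
        4 * (g : ℝ) / ((1 / 32) ^ 2 * ((K + g : ℕ) : ℝ)) * 2 ^ N ≤
        A4 * (K : ℝ) ^ (-(1 / 4) : ℝ) * 2 ^ N +
        4096 * g * (K : ℝ) ^ (-(1 / 4) : ℝ) * 2 ^ N := by gcongr
      _ = (A4 + 4096 * g) * (K : ℝ) ^ (-(1 / 4) : ℝ) * 2 ^ N := by ring

end Pool.Agent.H997.PPD5
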