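import Pool.Agent.H558.PP.TStm

set_option autoImplicit false

/-!
# Logarithmic density: the statements
-/

namespace Pool.Agent.H558.PP

open PowerSeries Finset Pool.Agent.R836.PP Pool.Agent.H558.KK
open Pool.Agent.K7.H72.MT hiding W few dis DD dis_stable dis_vary DD_stable DD_sum DD_block few_bad
  dis_le DD_le base count

/-- all sections are nonzero, with a bound for the order -/
def Tame (C : ℕ) (U : S) : Prop := ∀ m b t : ℕ, Gv (C * 4 ^ m) (node P2 m b t U)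

/-- A: the sections of `P ^ t`, `t` odd, are tame (proved by helper558) -/
def S_A : Prop := ∀ b β t : ℕ, 1 ≤ b → β < 2 ^ b → t % 2 = 1 →
  Tame (5 * 4 ^ b) (node P2 b β t 1)

/-- the length of the chain -/
def Gl (m0 J : ℕ) : ℕ := ∑ L ∈ Ico m0 (m0 + J), L

/-- D1: the chain with a given number of steps -/
def S_D1 : Prop := ∀ L0 : ℕ, 6 ≤ L0 → Stp L0 → ∀ m0 J : ℕ, L0 ≤ m0 → ∃ g : ℕ, g ≤ Gl m0 J ∧
  ∀ k : ℕ, Gl m0 J ≤ k → ∀ U : S,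
    (XX k (8 * 8 ^ m0) (k - g) (8 * 8 ^ (m0 + J)) U : ℝ) ≤ 1 / ((m0 : ℝ) - 1) ^ 2 * 4 ^ k

open scoped Classical in
/-- D2: the dead sections of tame elements -/
def S_D2 : Prop := ∀ L0 : ℕ, 6 ≤ L0 → Stp L0 → ∀ C : ℕ, ∃ A : ℕ, ∀ m0 : ℕ, L0 ≤ m0 → ∀ k : ℕ,
  A * (m0 + A) ≤ k → ∀ U : S, Tame C U →
    (#{p ∈ range (2 ^ k) ×ˢ range (2 ^ k) | ¬ Gv (8 * 8 ^ m0) (node P2 k p.2 p.1 U)} : ℝ) ≤
      2 / ((m0 : ℝ) - 1) ^ 2 * 4 ^ k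

open scoped Classical in
/-- the part of the sections of level `k` which are dead, with a good ancestor at level `k - g` -/
noncomputable def Zf (V T g : ℕ) (U : S) (k t : ℕ) : ℝ :=
  (#{b ∈ range (2 ^ k) | ¬ Gv V (node P2 k b t U) ∧
    Gv T (node P2 (k - g) (b % 2 ^ (k - g)) (t % 2 ^ (k - g)) U)} : ℝ) / 2 ^ k

/-- D3: the conditional version of D1 -/
def S_D3 : Prop := ∀ L0 : ℕ, 6 ≤ L0 → Stp L0 → ∀ m0 J : ℕ, L0 ≤ m0 → ∃ g : ℕ, g ≤ Gl m0 J ∧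
  ∀ (U : S) (k : ℕ), Gl m0 J ≤ k → ∀ a < 2 ^ (k - Gl m0 J),
    ∑ s ∈ range (2 ^ Gl m0 J), Zf (8 * 8 ^ m0) (8 * 8 ^ (m0 + J)) g U k
      (a + 2 ^ (k - Gl m0 J) * s) ≤ 1 / ((m0 : ℝ) - 1) ^ 2 * 2 ^ Gl m0 J

open scoped Classical in
/-- VAR: a weak law of large numbers for functions of the digits -/
def S_VAR : Prop := ∀ (N K g : ℕ) (f : ℕ → ℕ → ℝ) (c θ : ℝ), 1 ≤ g → 1 ≤ K → K ≤ N → 0 < θ →
  (∀ k t, 0 ≤ f k t ∧ f k t ≤ 1) → (∀ k t, f k (t % 2 ^ k) = f k t) →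
  (∀ k, g ≤ k → ∀ a < 2 ^ (k - g), ∑ s ∈ range (2 ^ g), f k (a + 2 ^ (k - g) * s) ≤ c * 2 ^ g) →
    (#{t ∈ range (2 ^ N) | (c + θ) * K < ∑ k ∈ Ico g (K + 1), f k t} : ℝ) ≤
      4 * g / (θ ^ 2 * K) * 2 ^ N

open scoped Classical in
/-- the part of the good sections of level `k` -/
noncomputable def Yf (V : ℕ) (U : S) (k t : ℕ) : ℝ :=
  (#{b ∈ range (2 ^ k) | Gv V (node P2 k b t U)} : ℝ) / 2 ^ k

open scoped Classical in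
/-- D4: the mean over the levels of the part of the good sections -/
def S_D4 : Prop := ∃ V : ℕ, ∀ C : ℕ, ∃ A : ℝ, 0 < A ∧ ∀ U : S, Tame C U → ∀ K N : ℕ, 1 ≤ K →
  K ≤ N → (#{t ∈ range (2 ^ N) | ∑ k ∈ range K, Yf V U k t < K / 2} : ℝ) ≤
    A * (K : ℝ) ^ (-(1 / 4) : ℝ) * 2 ^ N

open scoped Classical in
/-- D5: disagreements -/
def S_D5 : Prop := ∀ R : ℕ, 1 ≤ R → ∃ (X : ℕ) (c : ℝ), 0 < c ∧ ∀ C : ℕ, ∃ A : ℝ, 0 < A ∧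
  ∀ (U : S) (w : ℕ → ZMod 2) (A' : ℕ → Prop), Tame C U → Dn R A' → ∀ K N : ℕ, 1 ≤ K →
  K + X ≤ N →
    (#{t ∈ range (2 ^ N) |
      ∑ k ∈ range K, (N1 P2 (2 ^ (k + X)) (U, w, A') t : ℝ) / 2 ^ (k + X) < c * K} : ℝ) ≤
    A * (K : ℝ) ^ (-(1 / 4) : ℝ) * 2 ^ N

open scoped Classical in
/-- D6: the logarithmic mean, all residue classes -/
def S_D6 : Prop := ∀ M : ℕ, 0 < M → ∃ c : ℝ, 0 < c ∧ ∀ ρ : ℕ, ∃ A : ℝ, 0 < A ∧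
  ∀ (w : ℕ → ZMod 2) (K N : ℕ), 1 ≤ K → K ≤ N →
    (#{t ∈ range (2 ^ N) | t % 2 = 1 ∧
      ∑ n ∈ range (2 ^ K) with n % M = ρ % M ∧ coeff n (P2 ^ t) ≠ w n, 1 / ((n : ℝ) + 1) <
        c * K} : ℝ) ≤ A * (K : ℝ) ^ (-(1 / 4) : ℝ) * 2 ^ N

open scoped Classical in
/-- D7: the lower logarithmic density for almost all 2-adic `t` -/
def S_D7 : Prop := ∀ M : ℕ, 0 < M → ∃ c : ℝ, 0 < c ∧ ∀ (w : ℕ → ZMod 2) [MeasurableSpace ℤ_[2]]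
  [BorelSpace ℤ_[2]] (μ : MeasureTheory.Measure ℤ_[2]) [MeasureTheory.IsProbabilityMeasure μ]
  [μ.IsAddLeftInvariant], ∀ᵐ t ∂μ, t.appr 1 = 1 → ∀ ρ : ℕ, ∃ x₀ : ℕ, ∀ x : ℕ, x₀ ≤ x →
    c * Real.log x ≤
      ∑ n ∈ range (x + 1) with n % M = ρ % M ∧ pz t n ≠ w n, 1 / ((n : ℝ) + 1)

end Pool.Agent.H558.PP
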