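import Pool.Agent.H558.PP.FL
import Pool.Agent.H558.PP.DStm
import Pool.Agent.H558.PP.X

set_option autoImplicit false

/-!
# The sections of `P ^ t`, `t` odd, are nonzero, with a bound for the order
-/

namespace Pool.Agent.H558.PP

open PowerSeries Finset Pool.Agent.H397R2.PP
open Pool.Agent.TH693.PP (T E P P_mul_E)
open Pool.Agent.K7.H91.SQ (dl qq dl_val)
open Pool.Agent.H558.KK
open Pool.Agent.K7.H72.MT hiding W few dis DD dis_stable dis_vary DD_stable DD_sum DD_block few_bad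
  dis_le DD_le base count

/-- the parts of odd powers of `T` -/
theorem part_ne (m : ℕ) {σ : ℕ} (hσ : Odd σ) (z : ℤ) : sc (m + 1) z (T ^ σ) ≠ 0 := by
  intro h
  have hdet : ∀ a : ℤ, (Mg (m + 1) (fun _ : Unit => σ) (fun _ => z) (fun _ => 0) a).det =
      sc (m + 1) (a * σ + (1 + 8 * a) * z) (T ^ σ) := by
    intro a
    rw [Matrix.det_unique]
    unfold Mg
    rw [sub_zero]
  have h0 : (Mg (m + 1) (fun _ : Unit => σ) (fun _ => z) (fun _ => 0) 0).det = 0 := by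
    rw [hdet, ← h]
    congr 1
    ring
  -- a multiplier that moves the class to 0
  obtain ⟨a, ha⟩ : ∃ a : ℤ, (2 ^ (m + 1) : ℤ) ∣ a * σ + (1 + 8 * a) * z := by
    have hco : IsCoprime ((σ : ℤ) + 8 * z) (2 ^ (m + 1)) := by
      apply IsCoprime.pow_right
      obtain ⟨d, hd⟩ := hσ
      refine ⟨1, -(d + 4 * z), ?_⟩
      rw [hd]
      push_cast
      ring
    obtain ⟨u, v, huv⟩ := hco
    refine ⟨-z * u, z * v, ?_⟩
    linear_combination -z * huv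
  have h1 := Mg_zero m (fun _ : Unit => σ) (fun _ => z) (fun _ => 0) 0 a h0
  rw [hdet] at h1
  have h2 := congrArg (coeff 0) h1
  rw [coeff_sc, map_zero, if_pos, T_pow_zero] at h2
  · exact one_ne_zero h2
  · push_cast
    rw [zero_sub, dvd_neg]
    exact ha

theorem part_order (m : ℕ) {σ : ℕ} (hσ : Odd σ) (z : ℤ) :
    ∃ n : ℕ, n ≤ 4 * (2 ^ (m + 1)) ^ 3 ∧ coeff n (sc (m + 1) z (T ^ σ)) ≠ 0 := by
  have hdet : (Mg (m + 1) (fun _ : Unit => σ) (fun _ => z) (fun _ => 0) 0).det =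
      sc (m + 1) z (T ^ σ) := by
    rw [Matrix.det_unique]
    unfold Mg
    congr 1
    ring
  obtain ⟨n, hn, hne⟩ := order_g m (fun _ : Unit => σ) (fun _ => z) (fun _ => 0) (by
    rw [hdet]
    exact part_ne m hσ z)
  rw [hdet] at hne
  refine ⟨n, ?_, hne⟩
  rw [Fintype.card_unit, one_mul] at hn
  have h := dl_val (m + 1)
  have e : m + 1 + 3 = m + 4 := rfl
  rw [e] at h
  have h1 : dl qq (m + 4) ≤ 4 * 4 ^ (m + 1) := by
    have : 1 ≤ 4 ^ (m + 1) := Nat.one_le_pow _ _ (by norm_num)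
    omega
  have h2 : 8 * n ≤ 8 * (4 * (2 ^ (m + 1)) ^ 3) := by
    calc 8 * n ≤ 2 ^ (m + 4) * dl qq (m + 4) := hn
      _ ≤ 2 ^ (m + 4) * (4 * 4 ^ (m + 1)) := Nat.mul_le_mul_left _ h1
      _ = 8 * (4 * (2 ^ (m + 1)) ^ 3) := by
        have e4 : 4 ^ (m + 1) = (2 ^ (m + 1)) ^ 2 := by
          rw [← pow_mul, mul_comm (m + 1) 2, pow_mul]
          norm_num
        rw [e4]
        ring
  omega

/-- the sections of odd powers of `P` -/
theorem node_one (m : ℕ) {t b : ℕ} (ht : t % 2 = 1) :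
    Gv (5 * 4 ^ (m + 1)) (node P2 (m + 1) b t 1) := by
  have hq : 0 < 2 ^ (m + 1) := by positivity
  rw [← (Pool.Agent.H155.PPX.n1 P2 (m + 1) 0 b t 1).2]
  set b0 := b % 2 ^ (m + 1) with hb0
  set t0 := t % 2 ^ (m + 1) with ht0
  have hb : b0 < 2 ^ (m + 1) := Nat.mod_lt _ hq
  have ht' : t0 < 2 ^ (m + 1) := Nat.mod_lt _ hq
  have hodd : t0 % 2 = 1 := by
    rw [ht0, Nat.mod_mod_of_dvd _ (dvd_pow_self 2 (Nat.succ_ne_zero m))]
    exact ht
  obtain ⟨j, hj⟩ := exists_exp (m + 1)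
  have hjo : Odd (t0 * j) := by
    apply Odd.mul (Nat.odd_iff.2 hodd)
    rw [Nat.odd_iff]
    have h1 : 2 ∣ 2 ^ (m + 1) * 2 ^ (m + 1) :=
      Dvd.dvd.mul_right (dvd_pow_self 2 (Nat.succ_ne_zero m)) _
    omega
  obtain ⟨n, hn, hne⟩ := part_order m hjo (b0 : ℤ)
  by_contra hcon
  -- all low coefficients of the part vanish
  have h1 := dead_sc (l := m + 1) (j := j) (V' := 5 * 4 ^ (m + 1)) hj (U := 1) ht' hb hcon
  apply hne
  have h2 := h1 n ?_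
  · rwa [one_mul] at h2
  · have e3 : 4 * (2 ^ (m + 1)) ^ 3 < 2 ^ (m + 1) * (5 * 4 ^ (m + 1)) := by
      have e4 : 4 ^ (m + 1) = (2 ^ (m + 1)) ^ 2 := by
        rw [← pow_mul, mul_comm (m + 1) 2, pow_mul]
        norm_num
      rw [e4]
      have : 0 < (2 ^ (m + 1)) ^ 3 := by positivity
      nlinarith
    omega

theorem hA : S_A := by
  intro b β t hb hβ ht m b' t'
  obtain ⟨b1, rfl⟩ : ∃ b1, b = b1 + 1 := ⟨b - 1, by omega⟩
  have hq : 0 < 2 ^ (b1 + 1) := by positivity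
  have h2q : 2 ∣ 2 ^ (b1 + 1) := dvd_pow_self 2 (Nat.succ_ne_zero b1)
  set T0 := t % 2 ^ (b1 + 1) + 2 ^ (b1 + 1) * t' with hT0
  set B0 := β + 2 ^ (b1 + 1) * b' with hB0
  have h1 := (Pool.Agent.H155.PPX.n1 P2 (b1 + 1) m B0 T0 1).1
  have e1 : B0 / 2 ^ (b1 + 1) = b' := by
    rw [hB0, Nat.add_mul_div_left _ _ hq, Nat.div_eq_of_lt hβ, zero_add]
  have e2 : B0 % 2 ^ (b1 + 1) = β := by
    rw [hB0, Nat.add_mul_mod_self_left, Nat.mod_eq_of_lt hβ]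
  have e3 : T0 / 2 ^ (b1 + 1) = t' := by
    rw [hT0, Nat.add_mul_div_left _ _ hq, Nat.div_eq_of_lt (Nat.mod_lt _ hq), zero_add]
  have e4 : T0 % 2 ^ (b1 + 1) = t % 2 ^ (b1 + 1) := by
    rw [hT0, Nat.add_mul_mod_self_left, Nat.mod_mod]
  have h3 := (Pool.Agent.H155.PPX.n1 P2 (b1 + 1) 0 β t 1).2
  rw [Nat.mod_eq_of_lt hβ] at h3
  rw [e1, e2, e3, e4, h3] at h1
  rw [← h1]
  have hT : T0 % 2 = 1 := by
    rw [hT0, Nat.add_mod, Nat.mul_mod, Nat.mod_mod_of_dvd _ h2q]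
    have h4 : 2 ^ (b1 + 1) % 2 = 0 := Nat.mod_eq_zero_of_dvd h2q
    rw [h4, zero_mul, Nat.zero_mod, add_zero, ht]
  have h5 := node_one (b1 + m) (b := B0) hT
  have e5 : b1 + m + 1 = b1 + 1 + m := by ring
  rw [e5, pow_add, ← mul_assoc] at h5
  exact h5

end Pool.Agent.H558.PP
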