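import Pool.Agent.H558.PP.QAsm
import Pool.Agent.H558.PP.Tm
import Pool.Agent.H558.PP.D1
import Pool.Agent.H558.PP.D3
import Pool.Agent.H558.PP.VAR
import Pool.Agent.H558.PP.D4
import Pool.Agent.H558.PP.D5
import Pool.Agent.H558.PP.D6
import Pool.Agent.H558.PP.D7

set_option autoImplicit false

/-!
# Assembly: the logarithmic density
-/

namespace Pool.Agent.H558.PP

theorem hD1 : S_D1 := Pool.Agent.H571.PPD1.d1 hX

theorem hD2 : S_D2 := Pool.Agent.H571.PPD1.d2 hT4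

theorem hD3 : S_D3 := Pool.Agent.H591.PPD3.d3 hD1 hN1

theorem hD4 : S_D4 := Pool.Agent.H122.PPD4.d4 hT3 hD2 hD3 Pool.Agent.H399.PPVAR.var

theorem hD5 : S_D5 := Pool.Agent.H997.PPD5.d5 hD4 Pool.Agent.H399.PPVAR.var

theorem hD6 : S_D6 := Pool.Agent.H627.PPD6.d6 hD5 hA

theorem hD7 : S_D7 := Pool.Agent.H168.PPD7.d7 hD6

end Pool.Agent.H558.PP
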