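import Pool.Agent.H558.PP.Gen
import Pool.Agent.H558.PP.TStm

set_option autoImplicit false

/-!
# The fat line lemma
-/

namespace Pool.Agent.H558.PP

open PowerSeries Finset Pool.Agent.H397R2.PP
open Pool.Agent.TH693.PP (T E P P_mul_E)
open Pool.Agent.K7.H91.SQ (dl qq dl_val)
open Pool.Agent.H558.KK
open Pool.Agent.K7.H72.MT hiding W few dis DD dis_stable dis_vary DD_stable DD_sum DD_block few_bad
  dis_le DD_le base count

/-- a common null vector -/
theorem exists_null {A : Type*} [CommRing A] [IsDomain A] {X : Type*} {N : ℕ}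
    (R : X → Fin N → A) (h : ∀ p : Fin N → X, (Matrix.of fun r c => R (p r) c).det = 0) :
    ∃ u : Fin N → A, u ≠ 0 ∧ ∀ x, ∑ c, R x c * u c = 0 := by
  classical
  set K := FractionRing A
  set R' : X → (Fin N → K) := fun x c => algebraMap A K (R x c) with hR'
  by_cases hW : Submodule.span K (Set.range R') = ⊤
  · exfalso
    obtain ⟨b, hb1, hb2, hb3⟩ := exists_linearIndependent K (Set.range R')
    have hspan : ⊤ ≤ Submodule.span K (Set.range ((↑) : b → (Fin N → K))) := by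
      rw [Subtype.range_coe, hb2, hW]
    set B := Module.Basis.mk hb3 hspan with hB
    have e : Fin N ≃ b := (Pi.basisFun K (Fin N)).indexEquiv B
    have hex : ∀ r : Fin N, ∃ x : X, R' x = (e r : Fin N → K) := fun r => hb1 (e r).2
    choose p hp using hex
    have h1 := h p
    have h2 : LinearIndependent K (fun r => (Matrix.of fun r c => algebraMap A K (R (p r) c)) r) := by
      have h3 : LinearIndependent K (fun r : Fin N => ((e r : b) : Fin N → K)) :=
        hb3.comp _ e.injective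
      have h4 : (fun r => (Matrix.of fun r c => algebraMap A K (R (p r) c)) r) =
          fun r : Fin N => ((e r : b) : Fin N → K) := by
        funext r
        rw [← hp r]
        rfl
      rw [h4]
      exact h3
    have h5 := Matrix.linearIndependent_rows_iff_isUnit.1 h2
    have h6 := (Matrix.isUnit_iff_isUnit_det _).1 h5
    have h7 : (Matrix.of fun r c => algebraMap A K (R (p r) c)).det =
        algebraMap A K (Matrix.of fun r c => R (p r) c).det := by
      rw [RingHom.map_det]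
      rfl
    rw [h7, h1, map_zero] at h6
    exact not_isUnit_zero h6
  · obtain ⟨f, hf, hle⟩ := Submodule.exists_le_ker_of_lt_top _ (lt_top_iff_ne_top.2 hW)
    set u' : Fin N → K := fun c => f (fun j => if c = j then 1 else 0) with hu'
    have hfu : ∀ v : Fin N → K, f v = ∑ c, v c * u' c := fun v => by
      rw [LinearMap.pi_apply_eq_sum_univ f v]
      rfl
    obtain ⟨b, hb⟩ := IsLocalization.exist_integer_multiples_of_finite (nonZeroDivisors A) u'
    choose u hu using hb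
    have hb0 : algebraMap A K (b : A) ≠ 0 := by
      rw [Ne, map_eq_zero_iff _ (IsFractionRing.injective A K)]
      exact nonZeroDivisors.coe_ne_zero b
    refine ⟨u, ?_, fun x => ?_⟩
    · intro h0
      apply hf
      refine LinearMap.ext fun v => ?_
      rw [hfu, LinearMap.zero_apply]
      refine Finset.sum_eq_zero fun c _ => ?_
      have h1 := hu c
      rw [h0, Pi.zero_apply, map_zero, Algebra.smul_def, eq_comm, mul_eq_zero] at h1
      rcases h1 with h1 | h1
      · exact absurd h1 hb0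
      · rw [h1, mul_zero]
    · apply IsFractionRing.injective A K
      rw [map_sum, map_zero]
      have h1 : f (R' x) = 0 := hle (Submodule.subset_span ⟨x, rfl⟩)
      rw [hfu] at h1
      have h2 : ∑ c, algebraMap A K (R x c * u c) = algebraMap A K b * ∑ c, R' x c * u' c := by
        rw [Finset.mul_sum]
        refine Finset.sum_congr rfl fun c _ => ?_
        rw [map_mul, hu c, Algebra.smul_def]
        ring
      rw [h2, h1, mul_zero]

/-- a part times a series -/
theorem sc_sc_mul (l : ℕ) (y z : ℤ) (f g : S) :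
    sc l z (sc l y f * g) = sc l y f * sc l (z - y) g := by
  ext n
  rw [coeff_sc, coeff_mul, coeff_mul]
  simp only [coeff_sc]
  have key : ∀ p ∈ Finset.HasAntidiagonal.antidiagonal n,
      (if (2 ^ l : ℤ) ∣ (p.1 : ℤ) - y then coeff p.1 f else 0) *
        (if (2 ^ l : ℤ) ∣ (p.2 : ℤ) - (z - y) then coeff p.2 g else 0) =
      if (2 ^ l : ℤ) ∣ (n : ℤ) - z then
        (if (2 ^ l : ℤ) ∣ (p.1 : ℤ) - y then coeff p.1 f else 0) * coeff p.2 g else 0 := by
    intro p hp
    rw [Finset.HasAntidiagonal.mem_antidiagonal] at hp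
    by_cases h1 : (2 ^ l : ℤ) ∣ (p.1 : ℤ) - y
    · have h2 : (2 ^ l : ℤ) ∣ (p.2 : ℤ) - (z - y) ↔ (2 ^ l : ℤ) ∣ (n : ℤ) - z := by
        apply dvd_congr
        have e : (p.2 : ℤ) - (z - y) - (n - z) = -((p.1 : ℤ) - y) := by
          rw [← hp]
          push_cast
          ring
        rw [e, dvd_neg]
        exact h1
      rw [if_pos h1]
      simp only [h2]
      split_ifs
      · rfl
      · rw [mul_zero]
    · rw [if_neg h1, zero_mul, zero_mul, ite_self]
  rw [Finset.sum_congr rfl key]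
  split_ifs
  · rfl
  · rw [Finset.sum_const_zero]

theorem sc_add (l : ℕ) (z : ℤ) (f g : S) : sc l z (f + g) = sc l z f + sc l z g := by
  ext n
  rw [coeff_sc, map_add, map_add, coeff_sc, coeff_sc]
  split_ifs
  · rfl
  · rw [add_zero]

theorem sc_zero (l : ℕ) (z : ℤ) : sc l z 0 = 0 := by
  ext n
  rw [coeff_sc, map_zero, ite_self]

theorem sc_sum {ι : Type*} (l : ℕ) (z : ℤ) (s : Finset ι) (f : ι → S) :
    sc l z (∑ i ∈ s, f i) = ∑ i ∈ s, sc l z (f i) := by
  classical
  induction s using Finset.induction_on with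
  | empty => rw [Finset.sum_empty, Finset.sum_empty, sc_zero]
  | insert a s ha ih => rw [Finset.sum_insert ha, Finset.sum_insert ha, sc_add, ih]

/-- a power with exponent divisible by `2 ^ l` -/
theorem sc_mul_pow (l : ℕ) (z : ℤ) (F G : S) (e : ℕ) :
    sc l z (F * G ^ (2 ^ l * e)) = sc l z F * G ^ (2 ^ l * e) := by
  ext n
  rw [coeff_sc, coeff_mul, coeff_mul]
  have key : ∀ p ∈ Finset.HasAntidiagonal.antidiagonal n,
      coeff p.1 (sc l z F) * coeff p.2 (G ^ (2 ^ l * e)) =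
      if (2 ^ l : ℤ) ∣ (n : ℤ) - z then coeff p.1 F * coeff p.2 (G ^ (2 ^ l * e)) else 0 := by
    intro p hp
    rw [Finset.HasAntidiagonal.mem_antidiagonal] at hp
    rw [coeff_sc, coeff_pow_two]
    by_cases h1 : 2 ^ l ∣ p.2
    · have h2 : (2 ^ l : ℤ) ∣ (p.1 : ℤ) - z ↔ (2 ^ l : ℤ) ∣ (n : ℤ) - z := by
        apply dvd_congr
        have e : (p.1 : ℤ) - z - (n - z) = -(p.2 : ℤ) := by
          rw [← hp]
          push_cast
          ring
        rw [e, dvd_neg]
        exact_mod_cast h1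
      rw [if_pos h1]
      simp only [h2]
      split_ifs
      · rfl
      · rw [zero_mul]
    · rw [if_neg h1, mul_zero, mul_zero, ite_self]
  rw [Finset.sum_congr rfl key]
  split_ifs
  · rfl
  · rw [Finset.sum_const_zero]

theorem two_dvd_iff {l : ℕ} {c c' : Fin (2 ^ l)} {a : ℤ} :
    (2 ^ l : ℤ) ∣ (1 + 8 * a) * ((c : ℕ) : ℤ) - (1 + 8 * a) * ((c' : ℕ) : ℤ) ↔ c = c' := by
  constructor
  · intro h
    rw [← mul_sub] at h
    have hco : IsCoprime ((2 : ℤ) ^ l) (1 + 8 * a) := by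
      apply IsCoprime.pow_left
      exact ⟨-4 * a, 1, by ring⟩
    have h6 := hco.dvd_of_dvd_mul_left h
    have h7 : c'.1 ≡ c.1 [MOD 2 ^ l] := by
      rw [Nat.modEq_iff_dvd]
      push_cast
      exact h6
    ext
    exact (Nat.ModEq.eq_of_lt_of_lt h7 c'.2 c.2).symm
  · rintro rfl
    rw [sub_self]
    exact dvd_zero _

/-- from a null vector to one series -/
theorem exists_series {X : Type*} (l : ℕ) (a : ℤ) (s : X → ℕ) (β : X → ℤ) (u : Fin (2 ^ l) → S)
    (hu : u ≠ 0) (h : ∀ x, ∑ c : Fin (2 ^ l),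
      sc l (a * s x + (1 + 8 * a) * (β x - ((c : ℕ) : ℤ))) (T ^ s x) * u c = 0) :
    ∃ (κ : ℤ) (Y : S), coeff 0 Y = 1 ∧ ∀ x, sc l (a * s x + (1 + 8 * a) * β x + κ) (Y * T ^ s x) = 0 := by
  classical
  obtain ⟨c0, hc0⟩ : ∃ c0, u c0 ≠ 0 := by
    by_contra hcon
    push Not at hcon
    exact hu (funext hcon)
  obtain ⟨n0, hn0⟩ : ∃ n0, coeff n0 (u c0) ≠ 0 := by
    by_contra hcon
    push Not at hcon
    exact hc0 (by ext n; rw [hcon, map_zero])
  set κ : ℤ := n0 - (1 + 8 * a) * ((c0 : ℕ) : ℤ) with hκ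
  set v : Fin (2 ^ l) → S := fun c => sc l (κ + (1 + 8 * a) * ((c : ℕ) : ℤ)) (u c) with hv
  set W : S := ∑ c, v c with hW
  have hWn : coeff n0 W = coeff n0 (u c0) := by
    rw [hW, map_sum, Finset.sum_eq_single c0]
    · rw [hv]
      simp only
      rw [coeff_sc, if_pos]
      rw [hκ]
      have e : (n0 : ℤ) - (n0 - (1 + 8 * a) * ((c0 : ℕ) : ℤ) + (1 + 8 * a) * ((c0 : ℕ) : ℤ)) = 0 := by
        ring
      rw [e]
      exact dvd_zero _
    · intro c _ hc
      rw [hv]
      simp only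
      rw [coeff_sc, if_neg]
      intro h1
      apply hc
      have e : (n0 : ℤ) - (κ + (1 + 8 * a) * ((c : ℕ) : ℤ)) =
          (1 + 8 * a) * ((c0 : ℕ) : ℤ) - (1 + 8 * a) * ((c : ℕ) : ℤ) := by
        rw [hκ]
        ring
      rw [e] at h1
      exact (two_dvd_iff.1 h1).symm
    · intro h1
      exact absurd (Finset.mem_univ _) h1
  have hWs : ∀ x, sc l (a * s x + (1 + 8 * a) * β x + κ) (W * T ^ s x) = 0 := by
    intro x
    set A : ℤ := a * s x + (1 + 8 * a) * β x with hA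
    have h1 : ∀ c : Fin (2 ^ l), sc l (A + κ) (v c * T ^ s x) =
        sc l (A + κ) (sc l (a * s x + (1 + 8 * a) * (β x - ((c : ℕ) : ℤ))) (T ^ s x) * u c) := by
      intro c
      rw [hv]
      simp only
      rw [sc_sc_mul, sc_sc_mul, mul_comm]
      have e1 : A + κ - (κ + (1 + 8 * a) * ((c : ℕ) : ℤ)) =
          a * s x + (1 + 8 * a) * (β x - ((c : ℕ) : ℤ)) := by
        rw [hA]
        ring
      have e2 : A + κ - (a * s x + (1 + 8 * a) * (β x - ((c : ℕ) : ℤ))) =
          κ + (1 + 8 * a) * ((c : ℕ) : ℤ) := by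
        rw [hA]
        ring
      rw [e1, e2]
    rw [hW, Finset.sum_mul, sc_sum, Finset.sum_congr rfl fun c _ => h1 c, ← sc_sum, h x, sc_zero]
  have hGv : Gv (n0 + 1) W := ⟨n0, Nat.lt_succ_self _, by rw [hWn]; exact hn0⟩
  obtain ⟨d, -, hd0, hd1⟩ := exists_low' hGv
  refine ⟨κ - d, unsh d W, hd1, fun x => ?_⟩
  ext n
  rw [coeff_sc, map_zero]
  split_ifs with h1
  · rw [← unsh_mul hd0]
    have h2 := congrArg (coeff (n + d)) (hWs x)
    rw [coeff_sc, map_zero, if_pos] at h2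
    · exact h2
    · have e : ((n + d : ℕ) : ℤ) - (a * s x + (1 + 8 * a) * β x + κ) =
          (n : ℤ) - (a * s x + (1 + 8 * a) * β x + (κ - d)) := by
        push_cast
        ring
      rw [e]
      exact h1
  · rfl

/-- the sections of dead points -/
theorem dead_sc {l j V' : ℕ} (hj : 3 * j + 1 = 2 ^ l * 2 ^ l) {U : S} {t b : ℕ} (ht : t < 2 ^ l)
    (hb : b < 2 ^ l) (h : ¬ Gv V' (node P2 l b t U)) :
    ∀ n < 2 ^ l * V', coeff n (sc l (b : ℤ) (U * T ^ (t * j))) = 0 := by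
  have hP : ∀ n < 2 ^ l * V', coeff n (sc l (b : ℤ) (U * P ^ t)) = 0 := by
    intro n hn
    rw [coeff_sc]
    split_ifs with h1
    · have hmod : n % 2 ^ l = b := by
        have h2 : b ≡ n [MOD 2 ^ l] := by
          rw [Nat.modEq_iff_dvd]
          push_cast
          exact h1
        have h3 : n % 2 ^ l = b % 2 ^ l := h2.symm
        rw [h3, Nat.mod_eq_of_lt hb]
      have h4 := coeff_node P2 l b t (n / 2 ^ l) U hb
      rw [Nat.div_eq_of_lt ht, pow_zero, mul_one] at h4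
      have h5 : b + 2 ^ l * (n / 2 ^ l) = n := by
        rw [← hmod]
        exact Nat.mod_add_div n _
      rw [h5] at h4
      have h6 : coeff (n / 2 ^ l) (node P2 l b t U) = 0 := by
        by_contra hne
        exact h ⟨n / 2 ^ l, Nat.div_lt_of_lt_mul hn, hne⟩
      exact h4.trans h6
    · rfl
  intro n hn
  have h1 : U * T ^ (t * j) = U * P ^ t * E ^ (2 ^ l * (t * 2 ^ l)) := by
    rw [P_pow_eq l t j hj]
    have h2 : P ^ (2 ^ l * (t * 2 ^ l)) * E ^ (2 ^ l * (t * 2 ^ l)) = 1 := by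
      rw [← mul_pow, P_mul_E, one_pow]
    rw [← mul_assoc, mul_assoc (U * T ^ (t * j)), h2, mul_one]
  rw [h1, sc_mul_pow]
  exact coeff_lt hP n hn

/-- the determinants of the families of dead points vanish -/
theorem fam_zero {m V V' j : ℕ} (hV : V + 4 * (2 ^ (m + 1)) ^ 4 ≤ 2 ^ (m + 1) * V') {U : S}
    (hU : Gv V U) (hj : 3 * j + 1 = 2 ^ (m + 1) * 2 ^ (m + 1))
    (p : Fin (2 ^ (m + 1)) → ZMod (2 ^ (m + 1)) × ZMod (2 ^ (m + 1)))
    (hp : ∀ r, ¬ Gv V' (node P2 (m + 1) (p r).2.val (p r).1.val U)) :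
    (Mg (m + 1) (fun r => (p r).1.val * j) (fun r => (((p r).2.val : ℕ) : ℤ))
      (fun c : Fin (2 ^ (m + 1)) => ((c : ℕ) : ℤ)) 0).det = 0 := by
  classical
  set M := Mg (m + 1) (fun r => (p r).1.val * j) (fun r => (((p r).2.val : ℕ) : ℤ))
      (fun c : Fin (2 ^ (m + 1)) => ((c : ℕ) : ℤ)) 0 with hM
  by_contra hne
  obtain ⟨n1, hn1, hne1⟩ := order_g m _ _ _ hne
  rw [Fintype.card_fin] at hn1
  have hex : ∃ n, coeff n M.det ≠ 0 := ⟨n1, hne1⟩
  set n0 := Nat.find hex with hn0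
  have hle : n0 ≤ n1 := Nat.find_min' hex hne1
  have hne0 : coeff n0 M.det ≠ 0 := Nat.find_spec hex
  have hlow : ∀ i < n0, coeff i M.det = 0 := by
    intro i hi
    have := Nat.find_min hex hi
    push Not at this
    exact this
  have hB : 8 * n0 ≤ BB m := le_trans (Nat.mul_le_mul_left _ hle) hn1
  have hB' := BB_le m
  obtain ⟨v, hvV, hv0, hv1⟩ := exists_low' hU
  have hvU : coeff v U = 1 := by
    have h1 := hv1
    rw [unsh, coeff_mk, zero_add] at h1
    exact h1
  have hidx : n0 + v < 2 ^ (m + 1) * V' := by omega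
  set u : Fin (2 ^ (m + 1)) → S := fun b => sc (m + 1) ((b : ℕ) : ℤ) U with hu
  have hMu : ∀ r, (M.mulVec u) r = sc (m + 1) (((p r).2.val : ℕ) : ℤ) (U * T ^ ((p r).1.val * j)) := by
    intro r
    rw [sc_mul, Matrix.mulVec, dotProduct]
    refine Finset.sum_congr rfl fun b _ => ?_
    rw [hM, hu, mul_comm]
    unfold Mg
    congr 2
    ring
  have hzero : ∀ r, ∀ i ≤ n0 + v, coeff i ((M.mulVec u) r) = 0 := by
    intro r i hi
    rw [hMu]
    exact dead_sc hj (ZMod.val_lt _) (ZMod.val_lt _) (hp r) i (by omega)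
  have hadj : M.adjugate.mulVec (M.mulVec u) = M.det • u := by
    rw [Matrix.mulVec_mulVec, Matrix.adjugate_mul, Matrix.smul_mulVec, Matrix.one_mulVec]
  have hpos : 0 < 2 ^ (m + 1) := by positivity
  set c0 : Fin (2 ^ (m + 1)) := ⟨v % 2 ^ (m + 1), Nat.mod_lt _ hpos⟩ with hc0
  have h0 := congrFun hadj c0
  have h1 := congrArg (coeff (n0 + v)) h0
  rw [Pi.smul_apply, smul_eq_mul, Matrix.mulVec, dotProduct, map_sum,
    Finset.sum_eq_zero (fun r _ => coeff_mul_eq_zero (hzero r))] at h1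
  have hu0 : ∀ i < v, coeff i (u c0) = 0 := by
    intro i hi
    rw [hu]
    simp only
    rw [coeff_sc, hv0 i hi, ite_self]
  have huv : coeff 0 (unsh v (u c0)) = 1 := by
    rw [unsh, coeff_mk, zero_add, hu]
    simp only
    rw [coeff_sc, if_pos, hvU]
    rw [hc0]
    simp only
    refine ⟨((v / 2 ^ (m + 1) : ℕ) : ℤ), ?_⟩
    have h2 : (v : ℤ) = ((v % 2 ^ (m + 1) + 2 ^ (m + 1) * (v / 2 ^ (m + 1)) : ℕ) : ℤ) := by
      rw [Nat.mod_add_div]
    conv_lhs => rw [h2]
    push_cast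
    ring
  rw [mul_comm, unsh_mul hu0, mul_comm, coeff_low hlow huv] at h1
  exact hne0 h1.symm

/-- **The fat line lemma.** -/
theorem fl : S_FL := by
  classical
  intro m V V' hV U hU a'
  obtain ⟨j, hj⟩ := exists_exp (m + 1)
  obtain ⟨a0, rfl⟩ := ZMod.intCast_surjective a'
  set a : ℤ := -3 * a0 with ha
  set X := {p : ZMod (2 ^ (m + 1)) × ZMod (2 ^ (m + 1)) // ¬ Gv V' (node P2 (m + 1) p.2.val p.1.val U)}
  set R : X → Fin (2 ^ (m + 1)) → S := fun p c =>
    sc (m + 1) (a * ((p.1.1.val * j : ℕ) : ℤ) + (1 + 8 * a) * (((p.1.2.val : ℕ) : ℤ) - ((c : ℕ) : ℤ)))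
      (T ^ (p.1.1.val * j)) with hR
  obtain ⟨u, hu0, hu⟩ := exists_null R (fun p => by
    have h1 := fam_zero hV hU hj (fun r => (p r).1) (fun r => (p r).2)
    have h2 := Mg_zero m _ _ _ 0 a h1
    exact h2)
  obtain ⟨κ, Y, hY0, hY⟩ := exists_series (m + 1) a (fun p : X => p.1.1.val * j)
    (fun p : X => ((p.1.2.val : ℕ) : ℤ)) u hu0 hu
  refine ⟨((-κ : ℤ) : ZMod (2 ^ (m + 1))), Y, hY0, fun t b hne => ?_⟩
  by_contra hdead
  apply hne
  have h1 := hY ⟨(t, b), hdead⟩
  simp only at h1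
  set z : ℤ := a * ((t.val * j : ℕ) : ℤ) + (1 + 8 * a) * ((b.val : ℕ) : ℤ) + κ with hz
  have h2 : sc (m + 1) z (Y * P ^ t.val) = 0 := by
    rw [P_pow_eq (m + 1) t.val j hj, ← mul_assoc, sc_mul_pow, h1, zero_mul]
  have h3 : (2 ^ (m + 1) : ℤ) ∣
      (((II (m + 1) ((-κ : ℤ) : ZMod (2 ^ (m + 1))) (a0 : ZMod (2 ^ (m + 1))) (t, b)).val : ℕ) : ℤ) - z := by
    have h4 : ((z : ℤ) : ZMod (2 ^ (m + 1))) =
        II (m + 1) ((-κ : ℤ) : ZMod (2 ^ (m + 1))) (a0 : ZMod (2 ^ (m + 1))) (t, b) := by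
      have hj0 : (3 * (j : ZMod (2 ^ (m + 1))) + 1) = 0 := by
        have h5 : ((3 * j + 1 : ℕ) : ZMod (2 ^ (m + 1))) = ((2 ^ (m + 1) * 2 ^ (m + 1) : ℕ) :
            ZMod (2 ^ (m + 1))) := by rw [hj]
        push_cast at h5
        have h6 : (2 : ZMod (2 ^ (m + 1))) ^ (m + 1) = 0 := by
          have := ZMod.natCast_self (2 ^ (m + 1))
          push_cast at this
          exact this
        rw [h6, zero_mul] at h5
        exact h5
      unfold II
      rw [hz, ha]
      push_cast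
      rw [ZMod.natCast_zmod_val, ZMod.natCast_zmod_val]
      linear_combination (-(a0 : ZMod (2 ^ (m + 1))) * t) * hj0
    rw [← h4]
    have h5 : (((((z : ℤ) : ZMod (2 ^ (m + 1))).val : ℕ) : ℤ) : ZMod (2 ^ (m + 1))) =
        ((z : ℤ) : ZMod (2 ^ (m + 1))) := by
      push_cast
      rw [ZMod.natCast_zmod_val]
    rw [ZMod.intCast_eq_intCast_iff_dvd_sub] at h5
    push_cast at h5
    rw [← dvd_neg, neg_sub]
    exact h5
  have h4 := congrArg (coeff (II (m + 1) ((-κ : ℤ) : ZMod (2 ^ (m + 1)))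
    (a0 : ZMod (2 ^ (m + 1))) (t, b)).val) h2
  rw [coeff_sc, if_pos h3, map_zero] at h4
  exact h4

end Pool.Agent.H558.PP
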