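import Pool.Agent.H558.KK.Ord

set_option autoImplicit false

/-!
# The determinants of general matrices of parts of powers of `T`
-/

namespace Pool.Agent.H558.PP

open PowerSeries Pool.Agent.TH693.QQ Pool.Agent.H397R2.PP
open Pool.Agent.TH693.PP (S T E P P_mul_E)
open Pool.Agent.R836.RD Pool.Agent.K7.H91.SQ Pool.Agent.R836.RD.FINBaux
open Pool.Agent.H558.KK

variable {ι : Type*} [Fintype ι] [DecidableEq ι]

/-- the matrix of parts of powers of `T` -/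
noncomputable def Mg (l : ℕ) (σ : ι → ℕ) (β χ : ι → ℤ) (a : ℤ) : Matrix ι ι S :=
  fun r b => sc l (a * σ r + (1 + 8 * a) * (β r - χ b)) (T ^ σ r)

/-- the classes of the entries -/
def clg (σ : ι → ℕ) (β χ : ι → ℤ) (r b : ι) : ℤ := 8 * (β r - χ b) + σ r

/-- the matrix of the normalised parts -/
noncomputable def Ng (l : ℕ) (σ : ι → ℕ) (β χ : ι → ℤ) (γ : ZMod (2 ^ (l + 3))) : Matrix ι ι OB :=
  fun r b => Xn (l + 3) (γ * (clg σ β χ r b : ZMod (2 ^ (l + 3)))) (dO 1 1 ^ σ r)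

/-- the matrix of the normalised parts, as Laurent series -/
noncomputable def Hg (l : ℕ) (σ : ι → ℕ) (β χ : ι → ℤ) (γ : ZMod (2 ^ (l + 3))) : Matrix ι ι Om :=
  fun r b => prO (l + 3) (γ * (clg σ β χ r b : ZMod (2 ^ (l + 3)))) (dO 1 1 ^ σ r) / dO 1 1 ^ σ r

theorem Ng_eq (l : ℕ) (σ : ι → ℕ) (β χ : ι → ℤ) (γ : ZMod (2 ^ (l + 3))) :
    (Ng l σ β χ γ).det = io' (Hg l σ β χ γ).det := by
  rw [RingHom.map_det]
  congr 1
  ext r b
  rw [RingHom.mapMatrix_apply, Matrix.map_apply]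
  unfold Ng Hg Xn
  rw [map_div₀]

/-- the common denominator -/
noncomputable def ug (σ : ι → ℕ) : Om := ∏ r, e8 (T ^ σ r)

omit [DecidableEq ι] in
theorem ug_lead (σ : ι → ℕ) : Lead (ug σ) 0 :=
  lead_prod _ _ fun r _ => e8_lead (T_pow_zero (σ r))

theorem Hg_val (l : ℕ) (σ : ι → ℕ) (β χ : ι → ℤ) (a : ℤ) :
    (Hg l σ β χ ((1 + 8 * a : ℤ) : ZMod (2 ^ (l + 3)))).det =
      e8 (Mg l σ β χ a).det / ug σ := by
  have h1 : Hg l σ β χ ((1 + 8 * a : ℤ) : ZMod (2 ^ (l + 3))) = Matrix.of fun r b =>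
      (e8 (T ^ σ r))⁻¹ * (e8.mapMatrix (Mg l σ β χ a)) r b := by
    ext1 r b
    rw [Matrix.of_apply, RingHom.mapMatrix_apply, Matrix.map_apply]
    unfold Hg Mg
    have h2 : ((1 + 8 * a : ℤ) : ZMod (2 ^ (l + 3))) * (clg σ β χ r b : ZMod (2 ^ (l + 3))) =
        ((8 * (a * σ r + (1 + 8 * a) * (β r - χ b)) + σ r : ℤ) : ZMod (2 ^ (l + 3))) := by
      rw [← Int.cast_mul]
      congr 1
      unfold clg
      ring
    rw [h2, prO_dO]
    conv_lhs => rw [dO_pow]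
    rw [mul_div_mul_left _ _ (Xs_ne _), div_eq_mul_inv, mul_comm]
  rw [h1, Matrix.det_mul_column, ← RingHom.map_det, Finset.prod_inv_distrib, div_eq_mul_inv,
    mul_comm]
  rfl

theorem rho_Ng {l : ℕ} {ρ : OB ≃ₐ[kk] OB} {u : (ZMod (2 ^ (l + 3)))ˣ} (hρ : ρ (dB 1 1) = dB 1 1)
    (h : CompT (l + 3) ρ u (dO 1 1) (dO 1 1)) (σ : ι → ℕ) (β χ : ι → ℤ)
    (γ : ZMod (2 ^ (l + 3))) : ρ (Ng l σ β χ γ).det = (Ng l σ β χ (u * γ)).det := by
  rw [AlgEquiv.map_det]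
  congr 1
  ext r b
  rw [AlgEquiv.mapMatrix_apply, Matrix.map_apply]
  unfold Ng
  rw [rho_Xn hρ h, mul_assoc]

/-- the determinants of all directions vanish together -/
theorem Mg_zero (m : ℕ) (σ : ι → ℕ) (β χ : ι → ℤ) (a a' : ℤ) (h0 : (Mg (m + 1) σ β χ a).det = 0) :
    (Mg (m + 1) σ β χ a').det = 0 := by
  obtain ⟨a2, ha2⟩ := exists_inv (m + 4) a
  set a1 : ℤ := a2 + a' + 8 * a2 * a' with ha1
  obtain ⟨ρ, hρ, hcomp⟩ := auto_all m a1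
  have ho : Odd (1 + 8 * a1) := ⟨4 * a1, by ring⟩
  obtain ⟨u, hu⟩ := isUnit_odd (m + 4) ho
  rw [← hu] at hcomp
  have h1 := rho_Ng (l := m + 1) hρ hcomp σ β χ ((1 + 8 * a : ℤ) : ZMod (2 ^ (m + 1 + 3)))
  have h2 : (Ng (m + 1) σ β χ ((1 + 8 * a : ℤ) : ZMod (2 ^ (m + 1 + 3)))).det = 0 := by
    rw [Ng_eq, Hg_val, h0, map_zero, zero_div, map_zero]
  rw [h2, map_zero] at h1
  have h3 : (u : ZMod (2 ^ (m + 1 + 3))) * ((1 + 8 * a : ℤ) : ZMod (2 ^ (m + 1 + 3))) =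
      ((1 + 8 * a' : ℤ) : ZMod (2 ^ (m + 1 + 3))) := by
    have h4 : (u : ZMod (2 ^ (m + 1 + 3))) = ((1 + 8 * a1 : ℤ) : ZMod (2 ^ (m + 1 + 3))) := hu
    rw [h4, ← Int.cast_mul, ZMod.intCast_eq_intCast_iff_dvd_sub]
    have e : (1 + 8 * a' : ℤ) - (1 + 8 * a1) * (1 + 8 * a) =
        ((1 + 8 * a2) * (1 + 8 * a) - 1) * (-(1 + 8 * a')) := by
      rw [ha1]
      ring
    rw [e]
    push_cast
    exact ha2.mul_right _
  rw [h3, Ng_eq, Hg_val, eq_comm, _root_.map_eq_zero, div_eq_zero_iff] at h1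
  rcases h1 with h1 | h1
  · rwa [map_eq_zero_iff e8 e8_inj] at h1
  · exact absurd h1 (ug_lead σ).1

/-- the order of the determinant -/
theorem order_g (m : ℕ) (σ : ι → ℕ) (β χ : ι → ℤ) (hne0 : (Mg (m + 1) σ β χ 0).det ≠ 0) :
    ∃ n : ℕ, 8 * n ≤ 2 ^ (m + 4) * (Fintype.card ι * dl qq (m + 4)) ∧
      coeff n (Mg (m + 1) σ β χ 0).det ≠ 0 := by
  classical
  set t := dB 1 1 with ht
  have ht0 : t ≠ 0 := dB_ne 1 one_ne_zero
  have hf0 : dO 1 1 ≠ 0 := by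
    intro h
    apply ht0
    rw [ht]
    unfold dB
    rw [h, map_zero]
  set δ : ZMod (2 ^ (m + 1 + 3)) → Om := fun γ => (Hg (m + 1) σ β χ γ).det with hδ
  have hval : ∀ a : ℤ, δ ((1 + 8 * a : ℤ) : ZMod (2 ^ (m + 1 + 3))) =
      e8 (Mg (m + 1) σ β χ a).det / ug σ := fun a => Hg_val (m + 1) σ β χ a
  have hlead : ∀ a : ℤ, ∃ n : ℕ, coeff n (Mg (m + 1) σ β χ a).det ≠ 0 ∧
      Lead (δ ((1 + 8 * a : ℤ) : ZMod (2 ^ (m + 1 + 3)))) (8 * n) := by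
    intro a
    have hne : (Mg (m + 1) σ β χ a).det ≠ 0 := fun h => hne0 (Mg_zero m σ β χ a 0 h)
    obtain ⟨n, hn, hn'⟩ := e8_order hne
    refine ⟨n, hn, ?_⟩
    rw [hval]
    have h1 : Lead (e8 (Mg (m + 1) σ β χ a).det) (8 * n) :=
      ⟨fun h => hne ((map_eq_zero_iff e8 e8_inj).1 h), hn'⟩
    have h2 := h1.div (ug_lead σ)
    rwa [sub_zero] at h2
  set Γ := Gam (m + 1 + 3) with hΓ
  have hδne : ∀ γ ∈ Γ, δ γ ≠ 0 ∧ 0 ≤ (δ γ).order := by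
    intro γ hγ
    obtain ⟨a, rfl⟩ := mem_Gam.1 hγ
    obtain ⟨n, -, h1⟩ := hlead a
    refine ⟨h1.1, ?_⟩
    rw [h1.2]
    positivity
  set α : OB := ∏ γ ∈ Γ, (Ng (m + 1) σ β χ γ).det with hα
  set h : Om := ∏ γ ∈ Γ, δ γ with hh
  have hαh : io' h = α := by
    rw [hh, hα, map_prod]
    exact Finset.prod_congr rfl fun γ _ => (Ng_eq (m + 1) σ β χ γ).symm
  have hhl : Lead h (∑ γ ∈ Γ, (δ γ).order) := prod_order _ _ fun γ hγ => (hδne γ hγ).1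
  have hα0 : α ≠ 0 := by
    rw [← hαh, Ne, _root_.map_eq_zero]
    exact hhl.1
  have hfix : ∀ ρ : OB ≃ₐ[kk] OB, ρ t = t → ρ α = α := by
    intro ρ hρ
    obtain ⟨g, hg, hact⟩ := act_part 1 one_ne_zero 1 (m + 1) ρ one_ne_zero hρ
    obtain ⟨u, hu⟩ := (isUnit_odd (m + 1 + 3) hg).pow 2
    rw [← hu] at hact
    rw [hα, map_prod]
    simp only [rho_Ng hρ hact]
    have hmaps : ∀ γ ∈ Γ, (u : ZMod (2 ^ (m + 1 + 3))) * γ ∈ Γ := by
      intro γ hγ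
      rw [hu]
      exact sq_mul_mem hg hγ
    have hinj : Set.InjOn (fun γ : ZMod (2 ^ (m + 1 + 3)) => (u : ZMod (2 ^ (m + 1 + 3))) * γ) Γ := by
      intro x _ y _ hxy
      exact u.isUnit.mul_left_cancel hxy
    have himg : Γ.image (fun γ : ZMod (2 ^ (m + 1 + 3)) => (u : ZMod (2 ^ (m + 1 + 3))) * γ) = Γ := by
      apply Finset.eq_of_subset_of_card_le
      · intro x hx
        rw [Finset.mem_image] at hx
        obtain ⟨y, hy, rfl⟩ := hx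
        exact hmaps y hy
      · rw [Finset.card_image_of_injOn hinj]
    conv_rhs => rw [← himg]
    rw [Finset.prod_image hinj]
  set d := dl qq (m + 1 + 3) with hd
  have hG : ∀ n : ℕ, Gdd t (m + 1 + 3) (dO 1 1 ^ n) d := fun n =>
    gdd_pow hf0 qq (gdd_D 1 one_ne_zero) (m + 1 + 3) n
  set B := Γ.card * (Fintype.card ι * d) with hB
  have hint : Ie t α := Ie.prod _ _ fun γ _ => Ie.det _ fun r b => (hG (σ r) _).1
  have hint' : Ie t⁻¹ (α * t⁻¹ ^ B) := by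
    have e1 : α * t⁻¹ ^ B = ∏ γ ∈ Γ, ((Ng (m + 1) σ β χ γ).det * t⁻¹ ^ (Fintype.card ι * d)) := by
      rw [Finset.prod_mul_distrib, Finset.prod_const, ← pow_mul, hB,
        mul_comm (Fintype.card ι * d)]
    rw [e1]
    refine Ie.prod _ _ fun γ _ => ?_
    have e2 : (Ng (m + 1) σ β χ γ).det * t⁻¹ ^ (Fintype.card ι * d) =
        ((t⁻¹ ^ d) • Ng (m + 1) σ β χ γ).det := by
      rw [Matrix.det_smul, ← pow_mul, mul_comm d]
      ring
    rw [e2]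
    refine Ie.det _ fun r b => ?_
    rw [Matrix.smul_apply, smul_eq_mul, mul_comm]
    exact (hG (σ r) _).2
  have htr : Transcendental kk t := EX0Aux.trans_D 1 one_ne_zero
  have htr' : Transcendental kk t⁻¹ := by
    intro h
    exact htr (by
      have := h.inv
      rwa [inv_inv] at this)
  obtain ⟨e, he, Q, hQ⟩ := fixed_pow htr hint hfix
  obtain ⟨e', he', Q', hQ'⟩ := fixed_pow htr' hint' (by
    intro ρ hρ
    have h1 : ρ t = t := by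
      rw [map_inv₀] at hρ
      exact inv_injective hρ
    rw [map_mul, map_pow, hρ, hfix ρ h1])
  obtain ⟨hQ0, hdeg⟩ := deg_le htr hα0 he' hQ hQ'
  rw [← hαh] at hQ
  have h4 := order_le (L := 1) one_ne_zero hhl.1 hQ0 hQ
  rw [hhl.2] at h4
  have h5 : (Q.natDegree : ℤ) ≤ B * e := by exact_mod_cast hdeg
  have h6 : (e : ℤ) * ∑ γ ∈ Γ, (δ γ).order ≤ e * B := by
    refine h4.trans ?_
    push_cast at h5 ⊢
    linarith
  have h7 := le_of_mul_le_mul_left h6 (by exact_mod_cast he)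
  have h1mem : (1 : ZMod (2 ^ (m + 1 + 3))) ∈ Γ := one_mem_Gam _
  have h8 : (δ 1).order ≤ ∑ γ ∈ Γ, (δ γ).order :=
    Finset.single_le_sum (f := fun γ => (δ γ).order) (fun γ hγ => (hδne γ hγ).2) h1mem
  obtain ⟨n, hn, hn'⟩ := hlead 0
  have e1 : (((1 + 8 * 0 : ℤ)) : ZMod (2 ^ (m + 1 + 3))) = 1 := by push_cast; ring
  rw [e1] at hn'
  refine ⟨n, ?_, hn⟩
  have h9 : (8 * n : ℤ) ≤ B := by
    rw [← hn'.2]
    exact h8.trans h7
  have h10 : 8 * n ≤ B := by exact_mod_cast h9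
  refine h10.trans ?_
  rw [hB]
  exact Nat.mul_le_mul_right _ (card_Gam _)

end Pool.Agent.H558.PP
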