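import Pool.Agent.H558.PP.QStm

set_option autoImplicit false

/-!
# The mean of the reciprocals outside a small set
-/

namespace Pool.Agent.H558.PP

open PowerSeries Finset Pool.Agent.R836.PP Pool.Agent.H558.KK
open Pool.Agent.K7.H72.MT hiding W few dis DD dis_stable dis_vary DD_stable DD_sum DD_block few_bad
  dis_le DD_le base count

theorem q1_nv_mod (T m t : ℕ) (U : S) : nv T m (t % 2 ^ m) U = nv T m t U := by
  classical
  unfold nv
  simp only [node_mod]

theorem q1_count (V T m k t : ℕ) (U : S) (hmk : m ≤ k) [DecidablePred fun b =>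
    ¬ Gv V (node P2 k b t U) ∧ Gv T (node P2 m (b % 2 ^ m) (t % 2 ^ m) U)] :
    2 ^ (k - m) * nv T m t U ≤ nv V k t U + #{b ∈ range (2 ^ k) |
      ¬ Gv V (node P2 k b t U) ∧ Gv T (node P2 m (b % 2 ^ m) (t % 2 ^ m) U)} := by
  classical
  have h1 : 2 ^ (k - m) * nv T m t U =
      #{b ∈ range (2 ^ k) | Gv T (node P2 m (b % 2 ^ m) (t % 2 ^ m) U)} := by
    rw [← q1_nv_mod]
    unfold nv
    rw [card_filter, card_filter]
    have hk : k = m + (k - m) := by omega
    rw [show range (2 ^ k) = range (2 ^ (m + (k - m))) by rw [← hk], sum_pow_add, mul_sum]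
    refine sum_congr rfl fun a ha => ?_
    have ha' : a < 2 ^ m := mem_range.mp ha
    have : ∀ b ∈ range (2 ^ (k - m)), (if Gv T (node P2 m ((a + 2 ^ m * b) % 2 ^ m)
        (t % 2 ^ m) U) then 1 else 0) = if Gv T (node P2 m a (t % 2 ^ m) U) then 1 else 0 := by
      intro b _
      rw [Nat.add_mul_mod_self_left, Nat.mod_eq_of_lt ha']
    rw [sum_congr rfl this, sum_const, card_range, smul_eq_mul]
  rw [h1]
  unfold nv
  refine (card_le_card ?_).trans (card_union_le _ _)
  intro b hb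
  rw [mem_filter] at hb
  rw [mem_union, mem_filter, mem_filter]
  by_cases h : Gv V (node P2 k b t U)
  · exact Or.inl ⟨hb.1, h⟩
  · exact Or.inr ⟨hb.1, h, hb.2⟩

theorem q1 (h4 : S_T4) (_hN1 : S_N1) : S_Q1 := by
  intro L0 hL0 hst m0 hm0 V0 M0 hV0 k hk U w A hU la hla
  obtain ⟨m, T, hm, hmk, hT, hXX⟩ := h4 L0 hL0 hst m0 hm0 V0 M0 hV0 k hk
  have hX := hXX U
  clear hXX
  classical
  have hMom : Mom V0 T m (m + 1) := by
    rcases Nat.eq_zero_or_pos m with h0 | h0
    · subst h0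
      have := (mom_zero T).start zero_le_one (V0 := V0) (by omega)
      simpa using this
    · apply block_mom' h0
      have e1 : (2 ^ m) ^ 4 = 2 ^ m * 8 ^ m := by
        have : 8 ^ m = (2 ^ m) ^ 3 := by
          rw [← pow_mul, mul_comm m 3, pow_mul]
          norm_num
        rw [this]
        ring
      have h2 : 1 ≤ 2 ^ m := Nat.one_le_two_pow
      rw [e1]
      calc V0 + 4 * (2 ^ m * 8 ^ m) ≤ 2 ^ m * V0 + 2 ^ m * (16 * 8 ^ m) := by
            have h3 : V0 ≤ 2 ^ m * V0 := Nat.le_mul_of_pos_left _ h2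
            have h5 : 4 * (2 ^ m * 8 ^ m) ≤ 2 ^ m * (16 * 8 ^ m) := by
              have : 2 ^ m * (16 * 8 ^ m) = 16 * (2 ^ m * 8 ^ m) := by ring
              omega
            omega
        _ = 2 ^ m * (V0 + 16 * 8 ^ m) := by ring
        _ ≤ 2 ^ m * T := Nat.mul_le_mul_left _ hT
  have hg1 : gv V0 [(U, w, A)] = 1 := by
    rw [gv_cons, gv_nil, nv_zero, if_pos hU]
  obtain ⟨hNpos, hNsum⟩ := hMom [(U, w, A)] (by rw [hg1]; exact one_pos)
  rw [hg1, Nat.cast_one, div_one] at hNsum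
  have hgv : ∀ (V' j t : ℕ), gv V' (desc P2 j [(U, w, A)] t) = nv V' j t U := by
    intro V' j t
    rw [gv_desc, List.map_cons, List.map_nil, List.sum_cons, List.sum_nil, add_zero]
  simp only [hgv] at hNpos hNsum ⊢
  generalize hVV : 8 * 8 ^ m0 = V at hX ⊢
  obtain ⟨Z, hZ⟩ : ∃ Z : ℕ → ℕ, ∀ t, Z t = #{b ∈ range (2 ^ k) |
      ¬ Gv V (node P2 k b t U) ∧ Gv T (node P2 m (b % 2 ^ m) (t % 2 ^ m) U)} := ⟨_, fun _ => rfl⟩
  have hcount : ∀ t, 2 ^ (k - m) * nv T m t U ≤ nv V k t U + Z t := by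
    intro t
    rw [hZ]
    exact q1_count V T m k t U hmk
  have hZsum : XX k V m T U = ∑ t ∈ range (2 ^ k), Z t := by
    unfold XX
    rw [card_filter, sum_product]
    refine sum_congr rfl fun t _ => ?_
    rw [hZ, card_filter]
  have hNr : ∀ t, (0 : ℝ) < nv T m t U := fun t => by exact_mod_cast hNpos t
  have hsumN : ∑ t ∈ range (2 ^ k), ((nv T m t U : ℝ))⁻¹ ≤ 2 ^ (k - m) * (m + 1) := by
    have hk' : k = m + (k - m) := by omega
    rw [show range (2 ^ k) = range (2 ^ (m + (k - m))) by rw [← hk'], sum_pow_add]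
    have : ∀ a ∈ range (2 ^ m), ∑ b ∈ range (2 ^ (k - m)), ((nv T m (a + 2 ^ m * b) U : ℝ))⁻¹ =
        2 ^ (k - m) * ((nv T m a U : ℝ))⁻¹ := by
      intro a ha
      have ha' : a < 2 ^ m := mem_range.mp ha
      have h6 : ∀ b ∈ range (2 ^ (k - m)), ((nv T m (a + 2 ^ m * b) U : ℝ))⁻¹ =
          ((nv T m a U : ℝ))⁻¹ := by
        intro b _
        rw [← q1_nv_mod T m (a + 2 ^ m * b), Nat.add_mul_mod_self_left, Nat.mod_eq_of_lt ha']
      rw [sum_congr rfl h6, sum_const, card_range, nsmul_eq_mul]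
      push_cast
      rfl
    rw [sum_congr rfl this, ← mul_sum]
    exact mul_le_mul_of_nonneg_left hNsum (by positivity)
  have hP : (0 : ℝ) < 2 ^ (k - m) := by positivity
  have h2k : (2 : ℝ) ^ k = 2 ^ m * 2 ^ (k - m) := by
    rw [← pow_add]
    congr 1
    omega
  have hcr : ∀ t, (2 : ℝ) ^ (k - m) * nv T m t U ≤ nv V k t U + Z t := by
    intro t
    exact_mod_cast hcount t
  refine ⟨{t ∈ range (2 ^ k) | 2 ^ (k - m) * nv T m t U < 2 * Z t}, filter_subset _ _, ?_, ?_, ?_⟩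
  · have hb : (#{t ∈ range (2 ^ k) | 2 ^ (k - m) * nv T m t U < 2 * Z t} : ℝ) ≤
        ∑ t ∈ range (2 ^ k), (la * 2 ^ m * ((nv T m t U : ℝ))⁻¹ + 2 / (la * 2 ^ k) * Z t) := by
      calc (#{t ∈ range (2 ^ k) | 2 ^ (k - m) * nv T m t U < 2 * Z t} : ℝ) =
          ∑ t ∈ range (2 ^ k) with 2 ^ (k - m) * nv T m t U < 2 * Z t, (1 : ℝ) := by
            rw [sum_const, nsmul_eq_mul, mul_one]
        _ ≤ ∑ t ∈ range (2 ^ k) with 2 ^ (k - m) * nv T m t U < 2 * Z t,
            (la * 2 ^ m * ((nv T m t U : ℝ))⁻¹ + 2 / (la * 2 ^ k) * Z t) := by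
            refine sum_le_sum fun t ht => ?_
            rw [mem_filter] at ht
            have h7 : (2 : ℝ) ^ (k - m) * nv T m t U < 2 * Z t := by exact_mod_cast ht.2
            have hN := hNr t
            have hA : 0 < la * 2 ^ m := by positivity
            have h8 : 2 / (la * 2 ^ k) * Z t ≥ (nv T m t U : ℝ) / (la * 2 ^ m) := by
              rw [ge_iff_le, div_le_iff₀ hA, h2k]
              have : 2 / (la * (2 ^ m * 2 ^ (k - m))) * (Z t : ℝ) * (la * 2 ^ m) =
                  2 * Z t / 2 ^ (k - m) := by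
                field_simp
              rw [this, le_div_iff₀ hP]
              linarith
            have h9 : 1 ≤ la * 2 ^ m * ((nv T m t U : ℝ))⁻¹ + (nv T m t U : ℝ) / (la * 2 ^ m) := by
              generalize la * 2 ^ m = y at hA
              generalize (nv T m t U : ℝ) = x at hN
              have : y * x⁻¹ + x / y - 1 = ((y - x) ^ 2 + x * y) / (x * y) := by
                field_simp
                ring
              have h10 : 0 ≤ ((y - x) ^ 2 + x * y) / (x * y) := by positivity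
              linarith
            linarith
        _ ≤ ∑ t ∈ range (2 ^ k), (la * 2 ^ m * ((nv T m t U : ℝ))⁻¹ + 2 / (la * 2 ^ k) * Z t) :=
            sum_le_sum_of_subset_of_nonneg (filter_subset _ _) fun t _ _ => by positivity
    refine hb.trans ?_
    rw [sum_add_distrib, ← mul_sum, ← mul_sum]
    have hZr : (∑ t ∈ range (2 ^ k), (Z t : ℝ)) = XX k V m T U := by
      rw [hZsum]
      push_cast
      rfl
    rw [hZr]
    unfold err
    rw [add_mul]
    refine add_le_add ?_ ?_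
    · calc la * 2 ^ m * ∑ t ∈ range (2 ^ k), ((nv T m t U : ℝ))⁻¹ ≤
          la * 2 ^ m * (2 ^ (k - m) * (m + 1)) := mul_le_mul_of_nonneg_left hsumN (by positivity)
        _ = (m + 1) * la * 2 ^ k := by rw [h2k]; ring
        _ ≤ m0 * la * 2 ^ k := by
          have : (m : ℝ) + 1 ≤ m0 := by exact_mod_cast hm
          gcongr
    · have hm1 : (0 : ℝ) < (m0 : ℝ) - 1 := by
        have : (6 : ℝ) ≤ m0 := by exact_mod_cast hL0.trans hm0
        linarith
      calc 2 / (la * 2 ^ k) * (XX k V m T U : ℝ) ≤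
          2 / (la * 2 ^ k) * (2 / (((m0 : ℝ) - 1) ^ 2 * 2 ^ (Nat.log 2 m0) ^ 3) * 4 ^ k) :=
            mul_le_mul_of_nonneg_left hX (by positivity)
        _ = 4 / (la * ((m0 : ℝ) - 1) ^ 2 * 2 ^ (Nat.log 2 m0) ^ 3) * 2 ^ k := by
          have e4 : (4 : ℝ) ^ k = 2 ^ k * 2 ^ k := by
            rw [← mul_pow]
            norm_num
          rw [e4]
          field_simp
          ring
  · intro t ht
    rw [mem_sdiff, mem_filter, not_and, not_lt] at ht
    have h7 := ht.2 ht.1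
    have h8 := hcount t
    have h9 : 0 < 2 ^ (k - m) * nv T m t U := Nat.mul_pos (by positivity) (hNpos t)
    omega
  · have hle : ∀ t ∈ range (2 ^ k) \ {t ∈ range (2 ^ k) | 2 ^ (k - m) * nv T m t U < 2 * Z t},
        ((nv V k t U : ℝ))⁻¹ ≤ 2 / 2 ^ (k - m) * ((nv T m t U : ℝ))⁻¹ := by
      intro t ht
      rw [mem_sdiff, mem_filter, not_and, not_lt] at ht
      have h7 : (2 : ℝ) * Z t ≤ 2 ^ (k - m) * nv T m t U := by exact_mod_cast ht.2 ht.1
      have h8 := hcr t
      have hN := hNr t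
      have h9 : (2 : ℝ) ^ (k - m) * nv T m t U / 2 ≤ nv V k t U := by linarith
      have h10 : (0 : ℝ) < 2 ^ (k - m) * nv T m t U / 2 := by positivity
      calc ((nv V k t U : ℝ))⁻¹ ≤ ((2 : ℝ) ^ (k - m) * nv T m t U / 2)⁻¹ := inv_anti₀ h10 h9
        _ = 2 / 2 ^ (k - m) * ((nv T m t U : ℝ))⁻¹ := by
          field_simp
    refine (sum_le_sum hle).trans ?_
    refine (sum_le_sum_of_subset_of_nonneg sdiff_subset fun t _ _ => by positivity).trans ?_
    rw [← mul_sum]
    calc 2 / 2 ^ (k - m) * ∑ t ∈ range (2 ^ k), ((nv T m t U : ℝ))⁻¹ ≤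
        2 / 2 ^ (k - m) * (2 ^ (k - m) * (m + 1)) :=
          mul_le_mul_of_nonneg_left hsumN (by positivity)
      _ = 2 * (m + 1) := by
        field_simp
      _ ≤ 2 * m0 := by
        have : (m : ℝ) + 1 ≤ m0 := by exact_mod_cast hm
        linarith

end Pool.Agent.H558.PP
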