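import Pool.Agent.H558.PP.QStm

set_option autoImplicit false

/-!
# Down to the threshold 128
-/

namespace Pool.Agent.H558.PP

open PowerSeries Finset Pool.Agent.R836.PP Pool.Agent.H558.KK
open Pool.Agent.K7.H72.MT hiding W few dis DD dis_stable dis_vary DD_stable DD_sum DD_block few_bad
  dis_le DD_le base count

theorem q2 (h1 : S_Q1) : S_Q2 := by
  intro L0 hL0 hst m0 hm0 μ hμ V0 M0 hV0 k hk U w A hU la hla B hB
  obtain ⟨Bad, hsub, hcard, hpos, hsum⟩ := h1 L0 hL0 hst m0 hm0 V0 M0 hV0 k hk U w A hU la hla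
  have hV : 8 * 8 ^ m0 ≤ 16 * 8 ^ 2 ^ μ := by
    have : 8 ^ m0 ≤ 8 ^ 2 ^ μ := Nat.pow_le_pow_right (by norm_num) hμ
    omega
  have hM : Mom (8 * 8 ^ m0) 128 (4 * (2 ^ μ - 1)) (Lam μ) :=
    Mom.start (by positivity) (scales μ) hV
  generalize hk2 : 4 * (2 ^ μ - 1) = k2 at hM ⊢
  classical
  generalize hL : [(U, w, A)] = L at hpos hsum ⊢
  obtain ⟨f, hf⟩ : ∃ f : ℕ → ℝ, ∀ t, f t = if t % 2 ^ k ∈ Bad then (1 : ℝ) else
    B * ((gv 128 (desc P2 (k + k2) L t) : ℝ))⁻¹ := ⟨_, fun _ => rfl⟩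
  have hf0 : ∀ t, 0 ≤ f t := by
    intro t
    rw [hf]
    by_cases h : t % 2 ^ k ∈ Bad
    · rw [if_pos h]
      exact zero_le_one
    · rw [if_neg h]
      positivity
  have hdesc : ∀ a < 2 ^ k, ∀ b, desc P2 (k + k2) L (a + 2 ^ k * b) =
      desc P2 k2 (desc P2 k L a) b := by
    intro a ha b
    rw [desc_add, ← desc_mod P2 k L (a + 2 ^ k * b), Nat.add_mul_mod_self_left,
      Nat.mod_eq_of_lt ha, Nat.add_mul_div_left _ _ (by positivity), Nat.div_eq_of_lt ha, zero_add]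
  have hposd : ∀ t, t % 2 ^ k ∉ Bad → 0 < gv 128 (desc P2 (k + k2) L t) := by
    intro t ht
    have h2 : t % 2 ^ k < 2 ^ k := Nat.mod_lt _ (by positivity)
    have h3 := hpos (t % 2 ^ k) (by rw [mem_sdiff, mem_range]; exact ⟨h2, ht⟩)
    have h4 := (hM _ h3).1 (t / 2 ^ k)
    rw [← hdesc _ h2, Nat.mod_add_div] at h4
    exact h4
  have hF : (#{t ∈ range (2 ^ (k + k2)) | (gv 128 (desc P2 (k + k2) L t) : ℝ) < B} : ℝ) ≤
      ∑ t ∈ range (2 ^ (k + k2)), f t := by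
    calc (#{t ∈ range (2 ^ (k + k2)) | (gv 128 (desc P2 (k + k2) L t) : ℝ) < B} : ℝ) =
        ∑ t ∈ range (2 ^ (k + k2)) with (gv 128 (desc P2 (k + k2) L t) : ℝ) < B, (1 : ℝ) := by
          rw [sum_const, nsmul_eq_mul, mul_one]
      _ ≤ ∑ t ∈ range (2 ^ (k + k2)) with (gv 128 (desc P2 (k + k2) L t) : ℝ) < B, f t := by
          refine sum_le_sum fun t ht => ?_
          rw [mem_filter] at ht
          rw [hf]
          by_cases h : t % 2 ^ k ∈ Bad
          · rw [if_pos h]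
          · rw [if_neg h]
            have h5 : (0 : ℝ) < gv 128 (desc P2 (k + k2) L t) := by exact_mod_cast hposd t h
            rw [← div_eq_mul_inv, le_div_iff₀ h5, one_mul]
            exact ht.2.le
      _ ≤ ∑ t ∈ range (2 ^ (k + k2)), f t :=
          sum_le_sum_of_subset_of_nonneg (filter_subset _ _) fun t _ _ => hf0 t
  refine hF.trans ?_
  rw [sum_pow_add]
  have hin : ∀ a ∈ range (2 ^ k), ∑ b ∈ range (2 ^ k2), f (a + 2 ^ k * b) ≤
      if a ∈ Bad then (2 : ℝ) ^ k2 else B * (Lam μ * ((gv (8 * 8 ^ m0) (desc P2 k L a) : ℝ))⁻¹) := by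
    intro a ha
    have ha' : a < 2 ^ k := mem_range.mp ha
    have hmod : ∀ b, (a + 2 ^ k * b) % 2 ^ k = a := by
      intro b
      rw [Nat.add_mul_mod_self_left, Nat.mod_eq_of_lt ha']
    by_cases h : a ∈ Bad
    · rw [if_pos h]
      have : ∀ b ∈ range (2 ^ k2), f (a + 2 ^ k * b) = 1 := by
        intro b _
        rw [hf, hmod, if_pos h]
      rw [sum_congr rfl this, sum_const, card_range, nsmul_eq_mul, mul_one]
      push_cast
      exact le_rfl
    · rw [if_neg h]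
      have : ∀ b ∈ range (2 ^ k2), f (a + 2 ^ k * b) =
          B * ((gv 128 (desc P2 k2 (desc P2 k L a) b) : ℝ))⁻¹ := by
        intro b _
        rw [hf, hmod, if_neg h, hdesc a ha']
      rw [sum_congr rfl this, ← mul_sum]
      refine mul_le_mul_of_nonneg_left ?_ hB
      rw [← div_eq_mul_inv]
      exact (hM _ (hpos a (by rw [mem_sdiff]; exact ⟨ha, h⟩))).2
  refine (sum_le_sum hin).trans ?_
  rw [sum_ite]
  have e1 : (range (2 ^ k)).filter (fun a => a ∈ Bad) = Bad := by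
    ext a
    rw [mem_filter]
    exact ⟨fun h => h.2, fun h => ⟨hsub h, h⟩⟩
  have e2 : (range (2 ^ k)).filter (fun a => ¬ a ∈ Bad) = range (2 ^ k) \ Bad := by
    ext a
    rw [mem_filter, mem_sdiff]
  rw [e1, e2, sum_const, nsmul_eq_mul, ← mul_sum, ← mul_sum]
  refine add_le_add ?_ ?_
  · calc (#Bad : ℝ) * 2 ^ k2 ≤ (err m0 la * 2 ^ k) * 2 ^ k2 :=
          mul_le_mul_of_nonneg_right hcard (by positivity)
      _ = err m0 la * 2 ^ (k + k2) := by rw [pow_add]; ring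
  · refine mul_le_mul_of_nonneg_left ?_ hB
    calc (Lam μ : ℝ) * ∑ a ∈ range (2 ^ k) \ Bad, ((gv (8 * 8 ^ m0) (desc P2 k L a) : ℝ))⁻¹ ≤
        Lam μ * (2 * m0) := mul_le_mul_of_nonneg_left hsum (by positivity)
      _ = 2 * m0 * Lam μ := by ring

end Pool.Agent.H558.PP
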