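import Pool.Agent.H558.PP.QStm
import Pool.Agent.H558.KK.Prog

set_option autoImplicit false

/-!
# Q4: nonzero coefficients at one scale (task 7731 of helper558)
-/

namespace Pool.Agent.H720.PPQ4

open PowerSeries Finset Pool.Agent.R836.PP Pool.Agent.H558.KK Pool.Agent.H558.PP
open Pool.Agent.K7.H72.MT hiding W few dis DD dis_stable dis_vary DD_stable DD_sum DD_block few_bad
  dis_le DD_le base count

/-- comparison of the powers -/
theorem pow_cmp {x y e : ℝ} (hx : 1 ≤ x) (hy : 0 < y) (hxy : y ≤ 8 * x) (he : 0 ≤ e) :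
    x ^ (-e) ≤ 8 ^ e * y ^ (-e) := by
  have hx0 : 0 < x := by linarith
  rw [Real.rpow_neg hx0.le, Real.rpow_neg hy.le, ← div_eq_mul_inv, inv_eq_one_div,
    div_le_div_iff₀ (Real.rpow_pos_of_pos hx0 e) (Real.rpow_pos_of_pos hy e), one_mul,
    ← Real.mul_rpow (by norm_num) hx0.le]
  exact Real.rpow_le_rpow hy.le hxy he

theorem q4 (h3 : S_Q3) : S_Q4 := by
  intro s hs V0
  obtain ⟨a, ha⟩ := exists_nat_ge (1 + s / 2)
  obtain ⟨C, hC, hQ⟩ := h3 a (s / 2) (by linarith) V0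
  obtain ⟨e, he⟩ : ∃ e : ℝ, e = 1 + s / 2 := ⟨_, rfl⟩
  have he0 : 0 < e := by rw [he]; linarith
  have h8 : (0 : ℝ) < 8 ^ e := Real.rpow_pos_of_pos (by norm_num) e
  refine ⟨(C + 1) * (8 ^ e + 128), by positivity, ?_⟩
  intro U hU K i hiK
  rw [← he]
  rcases Nat.lt_or_ge i 7 with hi | hi
  · have hi1 : (0 : ℝ) < (i : ℝ) + 1 := by positivity
    have hi8 : (i : ℝ) + 1 ≤ 8 * 1 := by
      have : (i : ℝ) ≤ 7 := by exact_mod_cast hi.le
      linarith
    have h2 : (1 : ℝ) ≤ 8 ^ e * ((i : ℝ) + 1) ^ (-e) := by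
      have h1 := pow_cmp (x := 1) le_rfl hi1 hi8 he0.le
      rwa [Real.one_rpow] at h1
    have h2' : (0 : ℝ) < ((i : ℝ) + 1) ^ (-e) := Real.rpow_pos_of_pos hi1 _
    calc _ ≤ ((range (2 ^ K)).card : ℝ) := by exact_mod_cast card_filter_le _ _
      _ = 2 ^ K := by rw [card_range]; push_cast; rfl
      _ ≤ 2 ^ K * (8 ^ e * ((i : ℝ) + 1) ^ (-e)) := le_mul_of_one_le_right (by positivity) h2
      _ ≤ (C + 1) * (8 ^ e + 128) * 2 ^ K * ((i : ℝ) + 1) ^ (-e) := by
          have h4 : (8 : ℝ) ^ e ≤ (C + 1) * (8 ^ e + 128) := by nlinarith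
          have h5 : (0 : ℝ) ≤ 2 ^ K * ((i : ℝ) + 1) ^ (-e) := by positivity
          have h6 := mul_le_mul_of_nonneg_right h4 h5
          linarith
  · obtain ⟨k, rfl⟩ : ∃ k, i = k + 7 := ⟨i - 7, by omega⟩
    obtain ⟨z, rfl⟩ : ∃ z, K = k + z := ⟨K - k, by omega⟩
    set L : List El := [(U, fun _ => 0, fun _ => True)] with hL
    have hL0 : ∀ x ∈ L, x.2 = (fun _ => 0, fun _ => True) := by
      intro x hx
      rw [hL, List.mem_singleton] at hx
      rw [hx]
    obtain ⟨y, hy⟩ : ∃ y : ℝ, y = ((k + 7 : ℕ) : ℝ) + 1 := ⟨_, rfl⟩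
    obtain ⟨x, hx⟩ : ∃ x : ℝ, x = (k : ℝ) + 1 := ⟨_, rfl⟩
    have hk0 : (0 : ℝ) ≤ k := Nat.cast_nonneg k
    have hx1 : 1 ≤ x := by rw [hx]; linarith
    have hx0 : 0 < x := by linarith
    have hyx : y ≤ 8 * x := by
      rw [hy, hx]
      push_cast
      linarith
    have hxy : x ≤ y := by
      rw [hy, hx]
      push_cast
      linarith
    have hy0 : 0 < y := by linarith
    rw [← hy]
    set B : ℝ := 2 ^ (k + 7) / y ^ (1 + s) with hB
    have hB0 : 0 ≤ B := by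
      rw [hB]
      exact div_nonneg (by positivity) (Real.rpow_nonneg hy0.le _)
    have hsub : #{t ∈ range (2 ^ (k + z)) |
        (N1 P2 (2 ^ (k + 7)) (U, (fun _ => 0), fun _ => True) t : ℝ) < B} ≤
        #{t ∈ range (2 ^ (k + z)) | (gv 128 (desc P2 k L (t % 2 ^ k)) : ℝ) < B} := by
      refine card_le_card fun t ht => ?_
      rw [mem_filter] at ht ⊢
      refine ⟨ht.1, lt_of_le_of_lt ?_ ht.2⟩
      rw [desc_mod]
      have h1 := gv_desc_le isP_P2 128 k L t hL0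
      have e : 2 ^ k * 128 = 2 ^ (k + 7) := by rw [pow_add]; norm_num
      rw [hL, NN_single, ← hL, e] at h1
      exact_mod_cast h1
    have hmod := card_mod (fun t => (gv 128 (desc P2 k L t) : ℝ) < B) k z
    have h5 := hQ k U (fun _ => 0) (fun _ => True) hU B hB0
    rw [← hL, ← hx] at h5
    have h4 : (#{t ∈ range (2 ^ (k + z)) |
        (N1 P2 (2 ^ (k + 7)) (U, (fun _ => 0), fun _ => True) t : ℝ) < B} : ℝ) ≤
        2 ^ z * (#{t ∈ range (2 ^ k) | (gv 128 (desc P2 k L t) : ℝ) < B} : ℝ) := by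
      exact_mod_cast hsub.trans hmod
    -- the first term
    have t1 : (2 : ℝ) ^ k / x ^ a ≤ 2 ^ k * (8 ^ e * y ^ (-e)) := by
      rw [div_eq_mul_inv]
      refine mul_le_mul_of_nonneg_left ?_ (by positivity)
      refine le_trans ?_ (pow_cmp hx1 hy0 hyx he0.le)
      rw [Real.rpow_neg hx0.le]
      refine inv_anti₀ (Real.rpow_pos_of_pos hx0 e) ?_
      rw [← Real.rpow_natCast x a]
      exact Real.rpow_le_rpow_of_exponent_le hx1 (by rw [he]; exact ha)
    -- the second term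
    have t2 : B * x ^ (s / 2) ≤ 2 ^ k * (128 * y ^ (-e)) := by
      have h6 : x ^ (s / 2) ≤ y ^ (s / 2) := Real.rpow_le_rpow hx0.le hxy (by linarith)
      have h7 : B * y ^ (s / 2) = 2 ^ k * (128 * y ^ (-e)) := by
        have e1 : -e = s / 2 - (1 + s) := by rw [he]; ring
        rw [hB, e1, Real.rpow_sub hy0, pow_add]
        ring
      rw [← h7]
      exact mul_le_mul_of_nonneg_left h6 hB0
    have hye : 0 < y ^ (-e) := Real.rpow_pos_of_pos hy0 _
    calc _ ≤ 2 ^ z * (C * (2 ^ k / x ^ a + B * x ^ (s / 2))) := h4.trans (by gcongr)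
      _ ≤ 2 ^ z * (C * (2 ^ k * (8 ^ e * y ^ (-e)) + 2 ^ k * (128 * y ^ (-e)))) := by gcongr
      _ = C * (8 ^ e + 128) * 2 ^ (k + z) * y ^ (-e) := by
          rw [pow_add]
          ring
      _ ≤ (C + 1) * (8 ^ e + 128) * 2 ^ (k + z) * y ^ (-e) := by
          gcongr
          linarith

end Pool.Agent.H720.PPQ4
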