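import Pool.Agent.H558.PP.QStm
import Pool.Agent.H558.KK.Unit

set_option autoImplicit false

/-!
# Disagreement at one scale, with a loss of a power of the logarithm (S_Q5; helper800)
-/

namespace Pool.Agent.H800.PPQ5

open PowerSeries Finset Pool.Agent.R836.PP Pool.Agent.H558.KK Pool.Agent.H558.PP
open Pool.Agent.K7.H72.MT hiding W few dis DD dis_stable dis_vary DD_stable DD_sum DD_block few_bad
  dis_le DD_le base count

/-- powers of two are large -/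
theorem large (N : ℕ) : ∃ i0 : ℕ, ∀ i : ℕ, i0 ≤ i → ((i : ℝ) + 1) ^ N ≤ 2 ^ i := by
  have h2 := (tendsto_pow_const_div_const_pow_of_one_lt N (show (1 : ℝ) < 2 by norm_num))
  have h3 := (Filter.tendsto_add_atTop_iff_nat 1).2 h2
  have h5 := h3.eventually (gt_mem_nhds (show (0 : ℝ) < 1 / 2 by norm_num))
  obtain ⟨m0, hm0⟩ := Filter.eventually_atTop.1 h5
  refine ⟨m0, fun i hi => ?_⟩
  have h6 := hm0 i hi
  rw [div_lt_iff₀ (by positivity), pow_succ] at h6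
  push_cast at h6
  linarith

theorem q5 (h3 : S_Q3) : S_Q5 := by
  intro R hR
  have hRr : (1 : ℝ) ≤ R := by exact_mod_cast hR
  set th : ℝ := (2 ^ R - 1) / 2 ^ R with hth
  have h2R : (2 : ℝ) ≤ 2 ^ R := by
    calc (2 : ℝ) = 2 ^ 1 := by norm_num
      _ ≤ 2 ^ R := pow_le_pow_right₀ (by norm_num) hR
  have hth0 : 0 < th := div_pos (by linarith) (by positivity)
  have hth1 : th < 1 := by
    rw [hth, div_lt_one (by positivity)]
    linarith
  -- `th ^ c ≤ 1 / 4`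
  obtain ⟨c, hc⟩ : ∃ c : ℕ, th ^ c < 1 / 4 := exists_pow_lt_of_lt_one (by norm_num) hth1
  have hc1 : 1 ≤ c := by
    rcases Nat.eq_zero_or_pos c with h | h
    · rw [h, pow_zero] at hc
      norm_num at hc
    · exact h
  obtain ⟨b, hb⟩ : ∃ b, b = R * c := ⟨_, rfl⟩
  have hb1 : 1 ≤ b := by rw [hb]; exact Nat.mul_pos hR hc1
  refine ⟨((b + 3 : ℕ) : ℝ), by positivity, fun V0 => ?_⟩
  obtain ⟨C1, hC1, hfew⟩ := h3 2 1 one_pos V0
  obtain ⟨i1, hi1⟩ := large (4 * b + 20)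
  obtain ⟨i0, hi0⟩ : ∃ i0, i0 = max i1 64 := ⟨_, rfl⟩
  refine ⟨((i0 : ℝ) + 1) ^ 2 + 4 * C1 + C1 * (2 * 2 ^ b * (2 ^ R + 1)) + 1, by positivity, ?_⟩
  intro U w A hU hA K i hiK
  have e0 : ((i : ℝ) + 1) ^ (-(2 : ℝ)) = 1 / ((i : ℝ) + 1) ^ 2 := by
    rw [Real.rpow_neg (by positivity), one_div]
    congr 1
    exact_mod_cast Real.rpow_natCast ((i : ℝ) + 1) 2
  rw [e0, Real.rpow_natCast]
  have htriv : (#{t ∈ range (2 ^ K) |
      (N1 P2 (2 ^ i) (U, w, A) t : ℝ) < 2 ^ i / ((i : ℝ) + 1) ^ (b + 3)} : ℝ) ≤ 2 ^ K := by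
    have := card_filter_le (range (2 ^ K))
      (fun t => (N1 P2 (2 ^ i) (U, w, A) t : ℝ) < 2 ^ i / ((i : ℝ) + 1) ^ (b + 3))
    rw [card_range] at this
    exact_mod_cast this
  rcases lt_or_ge i i0 with hlt | hge
  · -- small `i`
    have h1 : (i : ℝ) + 1 ≤ (i0 : ℝ) + 1 := by
      have : (i : ℝ) ≤ i0 := by exact_mod_cast hlt.le
      linarith
    have h2 : (1 : ℝ) ≤ ((i0 : ℝ) + 1) ^ 2 * (1 / ((i : ℝ) + 1) ^ 2) := by
      rw [mul_one_div, le_div_iff₀ (by positivity), one_mul]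
      exact pow_le_pow_left₀ (by positivity) h1 2
    calc _ ≤ (2 : ℝ) ^ K := htriv
      _ ≤ 2 ^ K * (((i0 : ℝ) + 1) ^ 2 * (1 / ((i : ℝ) + 1) ^ 2)) :=
          le_mul_of_one_le_right (by positivity) h2
      _ = ((i0 : ℝ) + 1) ^ 2 * 2 ^ K * (1 / ((i : ℝ) + 1) ^ 2) := by ring
      _ ≤ _ := by
          refine mul_le_mul_of_nonneg_right (mul_le_mul_of_nonneg_right ?_ (by positivity))
            (by positivity)
          have : 0 ≤ C1 * (2 * 2 ^ b * (2 ^ R + 1)) := by positivity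
          linarith
  · -- large `i`
    have hi64 : 64 ≤ i := by
      have := le_max_right i1 64
      omega
    have hii : i1 ≤ i := by
      have := le_max_left i1 64
      omega
    have hbig := hi1 i hii
    obtain ⟨m, hm⟩ : ∃ m, m = Nat.log 2 (i + 1) + 1 := ⟨_, rfl⟩
    have hm7 : 7 ≤ m := by
      have h1 : 6 ≤ Nat.log 2 (i + 1) := by
        apply Nat.le_log_of_pow_le (by norm_num)
        omega
      omega
    have hm1 : i + 1 < 2 ^ m := by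
      rw [hm]
      exact Nat.lt_pow_succ_log_self (by norm_num) _
    have hm2 : 2 ^ m ≤ 2 * (i + 1) := by
      rw [hm, pow_succ, mul_comm]
      exact Nat.mul_le_mul_left _ (Nat.pow_log_le_self 2 (by omega))
    have hmi : (m - 1) * (4 * b + 20) ≤ i := by
      have h1 : 2 ^ (m - 1) ≤ i + 1 := by
        have e : m - 1 = Nat.log 2 (i + 1) := by omega
        rw [e]
        exact Nat.pow_log_le_self 2 (by omega)
      have h2 : (2 : ℝ) ^ ((m - 1) * (4 * b + 20)) ≤ 2 ^ i := by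
        calc (2 : ℝ) ^ ((m - 1) * (4 * b + 20)) = (2 ^ (m - 1)) ^ (4 * b + 20) := by rw [pow_mul]
          _ ≤ ((i : ℝ) + 1) ^ (4 * b + 20) := by
              refine pow_le_pow_left₀ (by positivity) ?_ _
              exact_mod_cast h1
          _ ≤ 2 ^ i := hbig
      exact (pow_le_pow_iff_right₀ (by norm_num : (1 : ℝ) < 2)).1 h2
    have hbm : 2 * (b * m) + 8 ≤ i := by
      obtain ⟨n, hn⟩ : ∃ n, m = n + 1 := ⟨m - 1, by omega⟩
      rw [hn, Nat.add_sub_cancel] at hmi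
      rw [hn]
      have hn6 : 6 ≤ n := by omega
      nlinarith
    obtain ⟨J, hJ⟩ : ∃ J, J = c * m := ⟨_, rfl⟩
    have hRJ : R * J = b * m := by rw [hJ, hb]; ring
    have hRJ7 : 7 ≤ R * J := by
      rw [hRJ]
      calc 7 ≤ m := hm7
        _ = 1 * m := (one_mul m).symm
        _ ≤ b * m := Nat.mul_le_mul_right _ hb1
    have hRJi : 2 * (R * J) + 8 ≤ i := by rw [hRJ]; exact hbm
    obtain ⟨k, hk⟩ : ∃ k, k + (R * J + 1) = i := ⟨i - (R * J + 1), by omega⟩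
    obtain ⟨Z, hZ⟩ : ∃ Z, k + (R * J + Z) = K := ⟨K - i + 1, by omega⟩
    have hY1 : (1 : ℝ) ≤ 2 ^ i / ((i : ℝ) + 1) ^ (b + 3) := by
      rw [le_div_iff₀ (by positivity), one_mul]
      refine le_trans ?_ hbig
      exact pow_le_pow_right₀ (by
        have : (0 : ℝ) ≤ i := Nat.cast_nonneg i
        linarith) (by omega)
    set Q : ℝ := 2 ^ i / ((i : ℝ) + 1) ^ (b + 3) with hQ
    set B : ℕ := ⌈(2 : ℝ) ^ R * Q⌉₊ with hB
    have hBle : (B : ℝ) ≤ (2 ^ R + 1) * Q := by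
      have h1 : (B : ℝ) ≤ 2 ^ R * Q + 1 := (Nat.ceil_lt_add_one (by positivity)).le
      linarith
    have hXi : 2 ^ k * 2 ^ (R * J + 1) = 2 ^ i := by rw [← pow_add, hk]
    have hX : 128 + 2 ^ (R * J) ≤ 2 ^ (R * J + 1) := by
      have h1 : 2 ^ 7 ≤ 2 ^ (R * J) := Nat.pow_le_pow_right (by norm_num) hRJ7
      rw [pow_succ 2 (R * J)]
      omega
    have hAD : AD R [((U, w, A) : El)] := by
      intro x hx
      rw [List.mem_singleton] at hx
      rw [hx]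
      exact hA
    have hcount := Pool.Agent.H558.KK.count isP_P2 J Z (2 ^ (R * J + 1)) B hX k [(U, w, A)] hAD
    rw [hXi, hZ] at hcount
    have hf := hfew k U w A hU B (Nat.cast_nonneg B)
    have hsub : (#{t ∈ range (2 ^ K) | (N1 P2 (2 ^ i) (U, w, A) t : ℝ) < Q} : ℝ) ≤
        (#{t ∈ range (2 ^ K) | 2 ^ R * NN P2 (2 ^ i) [(U, w, A)] t < B} : ℝ) := by
      have : #{t ∈ range (2 ^ K) | (N1 P2 (2 ^ i) (U, w, A) t : ℝ) < Q} ≤
          #{t ∈ range (2 ^ K) | 2 ^ R * NN P2 (2 ^ i) [(U, w, A)] t < B} := by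
        refine card_le_card fun t ht => ?_
        rw [mem_filter] at ht ⊢
        refine ⟨ht.1, ?_⟩
        rw [NN_single]
        have h2 : (2 ^ R * N1 P2 (2 ^ i) (U, w, A) t : ℝ) < B := by
          calc (2 ^ R * N1 P2 (2 ^ i) (U, w, A) t : ℝ) < 2 ^ R * Q := by
                have := ht.2
                gcongr
            _ ≤ B := Nat.le_ceil _
        exact_mod_cast h2
      exact_mod_cast this
    have hcount' : (#{t ∈ range (2 ^ K) | 2 ^ R * NN P2 (2 ^ i) [(U, w, A)] t < B} : ℝ) ≤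
        2 ^ (R * J + Z) * (#{t ∈ range (2 ^ k) | gv 128 (desc P2 k [(U, w, A)] t) < B} : ℝ) +
          2 ^ k * (2 ^ Z * (2 ^ R - 1) ^ J) := by
      have h1 : ((2 ^ R - 1 : ℕ) : ℝ) = 2 ^ R - 1 := by
        rw [Nat.cast_sub Nat.one_le_two_pow]
        norm_num
      rw [← h1]
      exact_mod_cast hcount
    have hf' : (#{t ∈ range (2 ^ k) | gv 128 (desc P2 k [(U, w, A)] t) < B} : ℝ) ≤
        C1 * (2 ^ k / ((k : ℝ) + 1) ^ 2 + B * ((k : ℝ) + 1)) := by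
      have he : {t ∈ range (2 ^ k) | gv 128 (desc P2 k [(U, w, A)] t) < B} =
          {t ∈ range (2 ^ k) | (gv 128 (desc P2 k [(U, w, A)] t) : ℝ) < (B : ℝ)} := by
        ext t
        rw [mem_filter, mem_filter, Nat.cast_lt]
      rw [he]
      rw [Real.rpow_one] at hf
      exact hf
    -- numerical facts
    have hi0r : (0 : ℝ) < (i : ℝ) + 1 := by positivity
    have hk1 : ((i : ℝ) + 1) / 2 ≤ (k : ℝ) + 1 := by
      have h1 : i + 1 ≤ 2 * (k + 1) := by omega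
      have h2 : (i : ℝ) + 1 ≤ 2 * ((k : ℝ) + 1) := by exact_mod_cast h1
      linarith
    have hk2 : (k : ℝ) + 1 ≤ (i : ℝ) + 1 := by
      have h1 : k ≤ i := by omega
      have h2 : (k : ℝ) ≤ i := by exact_mod_cast h1
      linarith
    have hpow : (2 : ℝ) ^ (R * J) ≤ 2 ^ b * ((i : ℝ) + 1) ^ b := by
      have h1 : (2 : ℝ) ^ m ≤ 2 * ((i : ℝ) + 1) := by exact_mod_cast hm2
      calc (2 : ℝ) ^ (R * J) = (2 ^ m) ^ b := by rw [hRJ, ← pow_mul, mul_comm]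
        _ ≤ (2 * ((i : ℝ) + 1)) ^ b := pow_le_pow_left₀ (by positivity) h1 b
        _ = 2 ^ b * ((i : ℝ) + 1) ^ b := mul_pow _ _ _
    have hfirst1 : (2 : ℝ) ^ (R * J + Z) * (C1 * (2 ^ k / ((k : ℝ) + 1) ^ 2)) ≤
        4 * C1 * 2 ^ K * (1 / ((i : ℝ) + 1) ^ 2) := by
      have e1 : (2 : ℝ) ^ (R * J + Z) * 2 ^ k = 2 ^ K := by
        rw [← pow_add]
        congr 1
        omega
      have e2 : 1 / ((k : ℝ) + 1) ^ 2 ≤ 4 * (1 / ((i : ℝ) + 1) ^ 2) := by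
        rw [mul_one_div, div_le_div_iff₀ (by positivity) (by positivity), one_mul]
        nlinarith
      calc (2 : ℝ) ^ (R * J + Z) * (C1 * (2 ^ k / ((k : ℝ) + 1) ^ 2))
          = C1 * ((2 : ℝ) ^ (R * J + Z) * 2 ^ k) * (1 / ((k : ℝ) + 1) ^ 2) := by ring
        _ = C1 * 2 ^ K * (1 / ((k : ℝ) + 1) ^ 2) := by rw [e1]
        _ ≤ C1 * 2 ^ K * (4 * (1 / ((i : ℝ) + 1) ^ 2)) :=
            mul_le_mul_of_nonneg_left e2 (by positivity)
        _ = _ := by ring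
    have hfirst2 : (2 : ℝ) ^ (R * J + Z) * (C1 * (B * ((k : ℝ) + 1))) ≤
        C1 * (2 * 2 ^ b * (2 ^ R + 1)) * 2 ^ K * (1 / ((i : ℝ) + 1) ^ 2) := by
      have e1 : (2 : ℝ) ^ (R * J + Z) * 2 ^ i = 2 ^ K * (2 * 2 ^ (R * J)) := by
        rw [← pow_succ', ← pow_add, ← pow_add]
        congr 1
        omega
      calc (2 : ℝ) ^ (R * J + Z) * (C1 * (B * ((k : ℝ) + 1)))
          ≤ (2 : ℝ) ^ (R * J + Z) * (C1 * (((2 ^ R + 1) * Q) * ((i : ℝ) + 1))) := by gcongr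
        _ = C1 * (2 ^ R + 1) * ((2 : ℝ) ^ (R * J + Z) * 2 ^ i) *
            (((i : ℝ) + 1) / ((i : ℝ) + 1) ^ (b + 3)) := by
            rw [hQ]
            ring
        _ = C1 * (2 ^ R + 1) * 2 * 2 ^ K * (((i : ℝ) + 1) / ((i : ℝ) + 1) ^ (b + 3)) *
            2 ^ (R * J) := by
            rw [e1]
            ring
        _ ≤ C1 * (2 ^ R + 1) * 2 * 2 ^ K * (((i : ℝ) + 1) / ((i : ℝ) + 1) ^ (b + 3)) *
            (2 ^ b * ((i : ℝ) + 1) ^ b) := mul_le_mul_of_nonneg_left hpow (by positivity)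
        _ = C1 * (2 * 2 ^ b * (2 ^ R + 1)) * 2 ^ K *
            (((i : ℝ) + 1) / ((i : ℝ) + 1) ^ (b + 3) * ((i : ℝ) + 1) ^ b) := by ring
        _ = _ := by
            congr 1
            rw [pow_add ((i : ℝ) + 1) b 3]
            field_simp
    have hsecond : (2 : ℝ) ^ k * (2 ^ Z * (2 ^ R - 1) ^ J) ≤
        1 * 2 ^ K * (1 / ((i : ℝ) + 1) ^ 2) := by
      have e1 : (2 : ℝ) ^ k * (2 ^ Z * (2 ^ R - 1) ^ J) = 2 ^ K * th ^ J := by
        rw [hth, div_pow, ← hZ, pow_add (2 : ℝ) k (R * J + Z), pow_add (2 : ℝ) (R * J) Z,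
          ← pow_mul]
        have h1 : ∀ a b y z : ℝ, z ≠ 0 → a * (b * y) = a * (z * b) * (y / z) := by
          intro a b y z hz
          field_simp
        exact h1 _ _ _ _ (by positivity)
      have e2 : th ^ J ≤ 1 / ((i : ℝ) + 1) ^ 2 := by
        have h1 : th ^ J ≤ (1 / 4) ^ m := by
          rw [hJ, pow_mul]
          exact pow_le_pow_left₀ (by positivity) hc.le m
        have h2 : (i : ℝ) + 1 ≤ 2 ^ m := by exact_mod_cast hm1.le
        have h3 : ((1 : ℝ) / 4) ^ m = 1 / (2 ^ m) ^ 2 := by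
          rw [one_div_pow]
          congr 1
          rw [← pow_mul, mul_comm, pow_mul]
          norm_num
        rw [h3] at h1
        refine h1.trans ?_
        exact one_div_le_one_div_of_le (by positivity) (pow_le_pow_left₀ hi0r.le h2 2)
      rw [e1, one_mul]
      exact mul_le_mul_of_nonneg_left e2 (by positivity)
    calc (#{t ∈ range (2 ^ K) | (N1 P2 (2 ^ i) (U, w, A) t : ℝ) < Q} : ℝ) ≤
        2 ^ (R * J + Z) * (#{t ∈ range (2 ^ k) | gv 128 (desc P2 k [(U, w, A)] t) < B} : ℝ) +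
          2 ^ k * (2 ^ Z * (2 ^ R - 1) ^ J) := hsub.trans hcount'
      _ ≤ 2 ^ (R * J + Z) * (C1 * (2 ^ k / ((k : ℝ) + 1) ^ 2 + B * ((k : ℝ) + 1))) +
          2 ^ k * (2 ^ Z * (2 ^ R - 1) ^ J) := by
          gcongr
      _ = 2 ^ (R * J + Z) * (C1 * (2 ^ k / ((k : ℝ) + 1) ^ 2)) +
          2 ^ (R * J + Z) * (C1 * (B * ((k : ℝ) + 1))) + 2 ^ k * (2 ^ Z * (2 ^ R - 1) ^ J) := by
          ring
      _ ≤ 4 * C1 * 2 ^ K * (1 / ((i : ℝ) + 1) ^ 2) +
          C1 * (2 * 2 ^ b * (2 ^ R + 1)) * 2 ^ K * (1 / ((i : ℝ) + 1) ^ 2) +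
          1 * 2 ^ K * (1 / ((i : ℝ) + 1) ^ 2) :=
          add_le_add (add_le_add hfirst1 hfirst2) hsecond
      _ ≤ _ := by
          have h1 : 0 ≤ ((i0 : ℝ) + 1) ^ 2 * (2 ^ K * (1 / ((i : ℝ) + 1) ^ 2)) := by positivity
          nlinarith

end Pool.Agent.H800.PPQ5
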