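import Pool.Agent.H558.PP.QStm

set_option autoImplicit false

/-!
# From one section to a residue class, with a loss of a power of the logarithm
-/

namespace Pool.Agent.H558.PP

open PowerSeries Finset Pool.Agent.R836.PP Pool.Agent.H558.KK
open Pool.Agent.K7.H72.MT hiding W few dis DD dis_stable dis_vary DD_stable DD_sum DD_block few_bad
  dis_le DD_le base count

namespace Q6N

theorem pow_lim {α : ℝ} (n : ℕ) (hn : α ≤ n) (L : ℝ) (hL : 0 ≤ L) :
    Filter.Tendsto (fun i : ℕ => ((i : ℝ) + 1) ^ α * (L / 2 ^ i)) Filter.atTop (nhds 0) := by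
  have h2 := (tendsto_pow_const_div_const_pow_of_one_lt n (show (1 : ℝ) < 2 by norm_num))
  have h3 := (Filter.tendsto_add_atTop_iff_nat 1).2 h2
  have h4 := h3.const_mul (2 * L)
  rw [mul_zero] at h4
  refine squeeze_zero (fun i => by positivity) (fun i => ?_) h4
  have h5 : ((i : ℝ) + 1) ^ α ≤ ((i : ℝ) + 1) ^ n := by
    rw [← Real.rpow_natCast]
    exact Real.rpow_le_rpow_of_exponent_le (by linarith [show (0 : ℝ) ≤ i by positivity]) hn
  calc ((i : ℝ) + 1) ^ α * (L / 2 ^ i) ≤ ((i : ℝ) + 1) ^ n * (L / 2 ^ i) := by gcongr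
    _ = 2 * L * (((i + 1 : ℕ) : ℝ) ^ n / 2 ^ (i + 1)) := by
        push_cast
        rw [pow_succ (2 : ℝ) i]
        field_simp

theorem neg_lim {δ : ℝ} (hδ : 0 < δ) (D : ℝ) :
    Filter.Tendsto (fun i : ℕ => D * ((i : ℝ) + 1) ^ (-δ)) Filter.atTop (nhds 0) := by
  have h1 := (tendsto_rpow_neg_atTop hδ).comp
    (Filter.tendsto_atTop_add_const_right _ (1 : ℝ) (tendsto_natCast_atTop_atTop (R := ℝ)))
  have h2 := h1.const_mul D
  rw [mul_zero] at h2
  exact h2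

/-- the choice of the first scale -/
theorem i0_ex {α α' : ℝ} (h : α < α') (b L : ℕ) : ∃ i₀ : ℕ, ∀ i ≥ i₀,
    (L : ℝ) + 2 ^ (b + 1) * 2 ^ i / (((b + i : ℕ) : ℝ) + 1) ^ α' ≤ 2 ^ i / ((i : ℝ) + 1) ^ α ∨
      α' < 0 := by
  by_cases hα' : α' < 0
  · exact ⟨0, fun _ _ => Or.inr hα'⟩
  have hα'0 : 0 ≤ α' := le_of_not_gt hα'
  obtain ⟨n, hn⟩ := exists_nat_ge α
  have h1 := (pow_lim n hn (L : ℝ) (by positivity)).add
    (neg_lim (show 0 < α' - α by linarith) ((2 : ℝ) ^ (b + 1)))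
  rw [add_zero] at h1
  obtain ⟨i₀, hi₀⟩ := Filter.eventually_atTop.1 (h1.eventually (ge_mem_nhds one_pos))
  refine ⟨i₀, fun i hi => Or.inl ?_⟩
  have h2 := hi₀ i hi
  have hi1 : (0 : ℝ) < (i : ℝ) + 1 := by positivity
  have h3 : (0 : ℝ) < ((i : ℝ) + 1) ^ α := by positivity
  have h4 : (0 : ℝ) < ((i : ℝ) + 1) ^ α' := by positivity
  have h5 : ((i : ℝ) + 1) ^ α' ≤ (((b + i : ℕ) : ℝ) + 1) ^ α' := by
    apply Real.rpow_le_rpow hi1.le _ hα'0
    push_cast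
    linarith [show (0 : ℝ) ≤ b by positivity]
  have h6 : ((i : ℝ) + 1) ^ (-(α' - α)) = ((i : ℝ) + 1) ^ α / ((i : ℝ) + 1) ^ α' := by
    rw [← Real.rpow_sub hi1]
    congr 1
    ring
  rw [h6] at h2
  rw [le_div_iff₀ h3]
  have h7 : (0 : ℝ) < 2 ^ i := by positivity
  calc ((L : ℝ) + 2 ^ (b + 1) * 2 ^ i / (((b + i : ℕ) : ℝ) + 1) ^ α') * ((i : ℝ) + 1) ^ α
      ≤ ((L : ℝ) + 2 ^ (b + 1) * 2 ^ i / ((i : ℝ) + 1) ^ α') * ((i : ℝ) + 1) ^ α := by gcongr
    _ = 2 ^ i * (((i : ℝ) + 1) ^ α * (L / 2 ^ i) +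
          2 ^ (b + 1) * (((i : ℝ) + 1) ^ α / ((i : ℝ) + 1) ^ α')) := by
        field_simp
    _ ≤ 2 ^ i * 1 := by gcongr
    _ = 2 ^ i := mul_one _

end Q6N

open Q6N

open scoped Classical in
theorem q6 : S_Q6 := by
  rintro α α' e hα hαα' he U b β t₀ L hβ w A ⟨C', hC', hunit⟩
  obtain ⟨i₀, hi₀⟩ := i0_ex hαα' b L
  refine ⟨C' * ((b : ℝ) + 1) ^ e + (((b + i₀ : ℕ) : ℝ) + 1) ^ e, by positivity, ?_⟩
  intro K x hx1 hxK
  set j : ℕ := Nat.log 2 x with hj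
  have hj0 : (0 : ℝ) < (j : ℝ) + 1 := by positivity
  have htriv : (#{t ∈ range (2 ^ K) | t % 2 ^ b = t₀ ∧
      (cnt P2 b β L U w A t x : ℝ) < x / ((j : ℝ) + 1) ^ α'} : ℝ) ≤ 2 ^ K := by
    have := card_filter_le (range (2 ^ K))
      (fun t => t % 2 ^ b = t₀ ∧ (cnt P2 b β L U w A t x : ℝ) < x / ((j : ℝ) + 1) ^ α')
    rw [card_range] at this
    exact_mod_cast this
  rcases Nat.lt_or_ge j (b + i₀) with hlog | hlog
  · refine htriv.trans ?_
    have h1 : (1 : ℝ) ≤ (((b + i₀ : ℕ) : ℝ) + 1) ^ e * ((j : ℝ) + 1) ^ (-e) := by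
      rw [Real.rpow_neg hj0.le, ← div_eq_mul_inv, one_le_div (by positivity)]
      apply Real.rpow_le_rpow hj0.le _ he
      have : (j : ℝ) ≤ ((b + i₀ : ℕ) : ℝ) := by exact_mod_cast hlog.le
      linarith
    have h2 : 0 ≤ C' * ((b : ℝ) + 1) ^ e * 2 ^ K * ((j : ℝ) + 1) ^ (-e) := by positivity
    nlinarith [show (0 : ℝ) < 2 ^ K by positivity]
  · obtain ⟨i, hi⟩ := Nat.exists_eq_add_of_le (show b ≤ j by omega)
    have hii : i₀ ≤ i := by omega
    have hx2 : 2 ^ (b + i) ≤ x := by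
      rw [← hi]
      exact Nat.pow_log_le_self 2 (by omega)
    have hx3 : x < 2 ^ (b + i + 1) := by
      rw [← hi]
      exact Nat.lt_pow_succ_log_self (by norm_num) _
    have hbK : b + i < K := by
      have : 2 ^ (b + i) < 2 ^ K := by omega
      exact (Nat.pow_lt_pow_iff_right (by norm_num)).1 this
    have hP : 0 < 2 ^ b := by positivity
    have hx3r : (x : ℝ) ≤ 2 ^ (b + 1) * 2 ^ i := by
      rw [← pow_add, show b + 1 + i = b + i + 1 by ring]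
      exact_mod_cast hx3.le
    have h1 := hunit (K - b) i (by omega)
    have hi₀' : (L : ℝ) + 2 ^ (b + 1) * 2 ^ i / ((j : ℝ) + 1) ^ α' ≤
        2 ^ i / ((i : ℝ) + 1) ^ α := by
      rcases hi₀ i hii with h | h
      · rw [hi]
        exact h
      · linarith
    have hcard : #{t ∈ range (2 ^ K) | t % 2 ^ b = t₀ ∧
        (cnt P2 b β L U w A t x : ℝ) < x / ((j : ℝ) + 1) ^ α'} ≤
        #{t ∈ range (2 ^ (K - b)) | (N1 P2 (2 ^ i) (node P2 b β t₀ U,
          (fun a => w (β + 2 ^ b * a)), fun a => A (β + 2 ^ b * a)) t : ℝ) <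
            2 ^ i / ((i : ℝ) + 1) ^ α} := by
      refine card_le_card_of_injOn (fun t => t / 2 ^ b) ?_ ?_
      · intro t ht
        obtain ⟨htK, ht0, h3⟩ := mem_filter.1 ht
        rw [mem_range] at htK
        have hKb : 2 ^ K = 2 ^ b * 2 ^ (K - b) := by
          rw [← pow_add]
          congr 1
          omega
        rw [mem_coe, mem_filter, mem_range]
        refine ⟨Nat.div_lt_of_lt_mul (by rw [← hKb]; exact htK), ?_⟩
        have hi1 : 1 ≤ 2 ^ i := Nat.one_le_two_pow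
        have h4 := N1_cnt P2 (b := b) (β := β) (t := t) (x := x) (y := 2 ^ i - 1) L U w A hβ (by
          rw [pow_add] at hx2
          have h5 : 2 ^ b * (2 ^ i - 1) + 2 ^ b = 2 ^ b * 2 ^ i := by
            rw [← Nat.mul_succ]
            congr 1
            omega
          omega)
        rw [show 2 ^ i - 1 + 1 = 2 ^ i by omega, ht0] at h4
        have h5 : (N1 P2 (2 ^ i) (node P2 b β t₀ U, (fun a => w (β + 2 ^ b * a)),
            fun a => A (β + 2 ^ b * a)) (t / 2 ^ b) : ℝ) ≤ L + cnt P2 b β L U w A t x := by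
          exact_mod_cast h4
        have h6 : (x : ℝ) / ((j : ℝ) + 1) ^ α' ≤ 2 ^ (b + 1) * 2 ^ i / ((j : ℝ) + 1) ^ α' := by
          gcongr
        linarith
      · intro t1 h1 t2 h2 h
        have h1' := (mem_filter.1 (mem_coe.1 h1)).2.1
        have h2' := (mem_filter.1 (mem_coe.1 h2)).2.1
        simp only at h
        rw [← Nat.mod_add_div t1 (2 ^ b), ← Nat.mod_add_div t2 (2 ^ b), h, h1', h2']
    have h2 : (#{t ∈ range (2 ^ K) | t % 2 ^ b = t₀ ∧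
        (cnt P2 b β L U w A t x : ℝ) < x / ((j : ℝ) + 1) ^ α'} : ℝ) ≤
        C' * 2 ^ (K - b) * ((i : ℝ) + 1) ^ (-e) := le_trans (by exact_mod_cast hcard) h1
    have hi0 : (0 : ℝ) < (i : ℝ) + 1 := by positivity
    have hb0 : (0 : ℝ) < (b : ℝ) + 1 := by positivity
    have h3 : ((i : ℝ) + 1) ^ (-e) ≤ ((b : ℝ) + 1) ^ e * ((j : ℝ) + 1) ^ (-e) := by
      rw [Real.rpow_neg hi0.le, Real.rpow_neg hj0.le, ← div_eq_mul_inv, inv_eq_one_div,
        div_le_div_iff₀ (by positivity) (by positivity), one_mul, ← Real.mul_rpow hb0.le hi0.le]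
      apply Real.rpow_le_rpow hj0.le _ he
      have h5 : (j : ℝ) = b + i := by exact_mod_cast hi
      rw [h5]
      nlinarith [show (0 : ℝ) ≤ (b : ℝ) * i by positivity]
    have h4 : (2 : ℝ) ^ (K - b) ≤ 2 ^ K := pow_le_pow_right₀ (by norm_num) (by omega)
    calc _ ≤ C' * 2 ^ (K - b) * ((i : ℝ) + 1) ^ (-e) := h2
      _ ≤ C' * 2 ^ K * (((b : ℝ) + 1) ^ e * ((j : ℝ) + 1) ^ (-e)) := by gcongr
      _ = C' * ((b : ℝ) + 1) ^ e * 2 ^ K * ((j : ℝ) + 1) ^ (-e) := by ring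
      _ ≤ (C' * ((b : ℝ) + 1) ^ e + (((b + i₀ : ℕ) : ℝ) + 1) ^ e) * 2 ^ K *
            ((j : ℝ) + 1) ^ (-e) := by
          have h5 : 0 ≤ (((b + i₀ : ℕ) : ℝ) + 1) ^ e * 2 ^ K * ((j : ℝ) + 1) ^ (-e) := by
            positivity
          nlinarith

end Pool.Agent.H558.PP
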