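import Pool.Agent.H558.PP.QStm

set_option autoImplicit false

/-!
# Progressions: from the residue classes to the progressions, with powers of the logarithm
-/

namespace Pool.Agent.H558.PP

open PowerSeries Finset Pool.Agent.R836.PP Pool.Agent.H558.KK
open Pool.Agent.K7.H72.MT hiding W few dis DD dis_stable dis_vary DD_stable DD_sum DD_block few_bad
  dis_le DD_le base count

open scoped Classical in
/-- the sum over the odd residues -/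
theorem q7x_prog {M m b' : ℕ} (hMm : M = 2 ^ b' * m) (hm : Odd m) (T Bd : ℕ → ℝ)
    (hBd : ∀ x, 0 ≤ Bd x) (ρ L : ℕ)
    (c : Fin (L + 1) → ZMod 2) (w : ℕ → ZMod 2)
    (hcl : ∀ t₀ : ℕ, t₀ % 2 = 1 → t₀ < 2 ^ (b' + 1) → ∃ C : ℝ, 0 < C ∧ ∀ K x : ℕ, 1 ≤ x →
      x < 2 ^ K → (#{t ∈ range (2 ^ K) | t % 2 ^ (b' + 1) = t₀ ∧
        (cnt P2 (b' + 1) ((ρ + L) % 2 ^ (b' + 1)) L (CC c) (fun n => w (n - L))
          (fun n => n % m = (ρ + L) % m) t x : ℝ) < T x} : ℝ) ≤ C * 2 ^ K * Bd x) :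
    ∃ C : ℝ, 0 < C ∧ ∀ K x : ℕ, 1 ≤ x → x < 2 ^ K →
      (#{t ∈ range (2 ^ K) | t % 2 = 1 ∧ (cntP M ρ c w t x : ℝ) < T x} : ℝ) ≤
        C * 2 ^ K * Bd x := by
  set b : ℕ := b' + 1 with hb
  have hP : 0 < 2 ^ b := by positivity
  have h2b : 2 ∣ 2 ^ b := dvd_pow_self 2 (by omega)
  set β : ℕ := (ρ + L) % 2 ^ b with hβ
  have hex : ∀ t₀ : ℕ, ∃ C : ℝ, 0 < C ∧ (t₀ % 2 = 1 → t₀ < 2 ^ b → ∀ K x : ℕ, 1 ≤ x → x < 2 ^ K →
      (#{t ∈ range (2 ^ K) | t % 2 ^ b = t₀ ∧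
        (cnt P2 b β L (CC c) (fun n => w (n - L)) (fun n => n % m = (ρ + L) % m) t x : ℝ) <
          T x} : ℝ) ≤ C * 2 ^ K * Bd x) := by
    intro t₀
    by_cases h1 : t₀ % 2 = 1
    · by_cases h2 : t₀ < 2 ^ b
      · obtain ⟨C, hC, h⟩ := hcl t₀ h1 h2
        exact ⟨C, hC, fun _ _ => h⟩
      · exact ⟨1, one_pos, fun _ h => absurd h h2⟩
    · exact ⟨1, one_pos, fun h => absurd h h1⟩
  choose Cf hCf hCf2 using hex
  refine ⟨∑ t₀ ∈ range (2 ^ b), Cf t₀, sum_pos (fun _ _ => hCf _) ⟨0, mem_range.2 hP⟩, ?_⟩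
  intro K x hx1 hxK
  have hsub : {t ∈ range (2 ^ K) | t % 2 = 1 ∧ (cntP M ρ c w t x : ℝ) < T x} ⊆
      ({t₀ ∈ range (2 ^ b) | t₀ % 2 = 1}).biUnion fun t₀ => {t ∈ range (2 ^ K) | t % 2 ^ b = t₀ ∧
        (cnt P2 b β L (CC c) (fun n => w (n - L)) (fun n => n % m = (ρ + L) % m) t x : ℝ) <
          T x} := by
    intro t ht
    obtain ⟨h1, h2, h5⟩ := mem_filter.1 ht
    rw [mem_biUnion]
    refine ⟨t % 2 ^ b, ?_, ?_⟩
    · rw [mem_filter, mem_range]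
      refine ⟨Nat.mod_lt _ hP, ?_⟩
      rw [Nat.mod_mod_of_dvd _ h2b]
      exact h2
    · rw [mem_filter]
      refine ⟨h1, rfl, lt_of_le_of_lt ?_ h5⟩
      exact_mod_cast cnt_le (ρ := ρ) hMm hm (Nat.le_succ b') c w t x
  have h1 := (card_le_card hsub).trans card_biUnion_le
  have h2 : (0 : ℝ) ≤ 2 ^ K * Bd x := mul_nonneg (by positivity) (hBd x)
  calc (#{t ∈ range (2 ^ K) | t % 2 = 1 ∧ (cntP M ρ c w t x : ℝ) < T x} : ℝ) ≤
      ((∑ t₀ ∈ range (2 ^ b) with t₀ % 2 = 1, #{t ∈ range (2 ^ K) | t % 2 ^ b = t₀ ∧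
        (cnt P2 b β L (CC c) (fun n => w (n - L)) (fun n => n % m = (ρ + L) % m) t x : ℝ) <
          T x} : ℕ) : ℝ) := by exact_mod_cast h1
    _ = ∑ t₀ ∈ range (2 ^ b) with t₀ % 2 = 1, (#{t ∈ range (2 ^ K) | t % 2 ^ b = t₀ ∧
        (cnt P2 b β L (CC c) (fun n => w (n - L)) (fun n => n % m = (ρ + L) % m) t x : ℝ) <
          T x} : ℝ) := by
        push_cast
        rfl
    _ ≤ ∑ t₀ ∈ range (2 ^ b) with t₀ % 2 = 1,
        Cf t₀ * 2 ^ K * Bd x := by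
        refine sum_le_sum fun t₀ ht => ?_
        rw [mem_filter, mem_range] at ht
        exact hCf2 t₀ ht.2 ht.1 K x hx1 hxK
    _ ≤ ∑ t₀ ∈ range (2 ^ b), Cf t₀ * 2 ^ K * Bd x := by
        refine sum_le_sum_of_subset_of_nonneg (filter_subset _ _) fun t₀ _ _ => ?_
        have := (hCf t₀).le
        rw [mul_assoc]
        exact mul_nonneg this h2
    _ = (∑ t₀ ∈ range (2 ^ b), Cf t₀) * 2 ^ K * Bd x := by
        rw [sum_mul, sum_mul]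

theorem q7 (h5 : S_Q5) (h6 : S_Q6) : S_Q7 := by
  classical
  intro M hM
  obtain ⟨b', m, hm, hMm⟩ := Nat.exists_eq_two_pow_mul_odd hM.ne'
  obtain ⟨α, hα, hmain⟩ := h5 m hm.pos
  refine ⟨α + 1, by linarith, ?_⟩
  intro ρ L c hc w
  have h := q7x_prog hMm hm
    (fun x => (x : ℝ) / ((Nat.log 2 x : ℝ) + 1) ^ (α + 1))
    (fun x => ((Nat.log 2 x : ℝ) + 1) ^ (-(2 : ℝ))) (fun x => by positivity) ρ L c w
    (fun t₀ ht1 ht2 => by
      have hβ : (ρ + L) % 2 ^ (b' + 1) < 2 ^ (b' + 1) := Nat.mod_lt _ (by positivity)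
      obtain ⟨m', hm'⟩ := node_ne c hc hβ ht1 ht2
      obtain ⟨C', hC', hb⟩ := hmain (m' + 1)
      exact h6 α (α + 1) 2 hα.le (by linarith) (by norm_num) (CC c) (b' + 1)
        ((ρ + L) % 2 ^ (b' + 1)) t₀ L hβ (fun n => w (n - L)) (fun n => n % m = (ρ + L) % m)
        ⟨C', hC', hb (node P2 (b' + 1) ((ρ + L) % 2 ^ (b' + 1)) t₀ (CC c))
          (fun a => w (((ρ + L) % 2 ^ (b' + 1) + 2 ^ (b' + 1) * a) - L))
          (fun a => ((ρ + L) % 2 ^ (b' + 1) + 2 ^ (b' + 1) * a) % m = (ρ + L) % m)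
          ⟨m', Nat.lt_succ_self m', hm'⟩
          (Dn_odd hm (b' + 1) ((ρ + L) % 2 ^ (b' + 1)) (ρ + L))⟩)
  exact h

theorem q8 (h4 : S_Q4) (h6 : S_Q6) : S_Q8 := by
  classical
  intro s hs b' ρ L c hc
  obtain ⟨C, hC, h⟩ := q7x_prog (M := 2 ^ b') (m := 1) (b' := b') (mul_one _).symm odd_one
    (fun x => (x : ℝ) / ((Nat.log 2 x : ℝ) + 1) ^ (1 + s))
    (fun x => ((Nat.log 2 x : ℝ) + 1) ^ (-(1 + s / 2 / 2))) (fun x => by positivity) ρ L c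
    (fun _ => 0)
    (fun t₀ ht1 ht2 => by
      have hβ : (ρ + L) % 2 ^ (b' + 1) < 2 ^ (b' + 1) := Nat.mod_lt _ (by positivity)
      obtain ⟨m', hm'⟩ := node_ne c hc hβ ht1 ht2
      obtain ⟨C', hC', hb⟩ := h4 (s / 2) (by positivity) (m' + 1)
      have hA : (fun n : ℕ => n % 1 = (ρ + L) % 1) = fun _ => True := by
        funext n
        simp [Nat.mod_one]
      rw [hA]
      exact h6 (1 + s / 2) (1 + s) (1 + s / 2 / 2) (by positivity) (by linarith) (by positivity)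
        (CC c) (b' + 1) ((ρ + L) % 2 ^ (b' + 1)) t₀ L hβ (fun _ => 0) (fun _ => True)
        ⟨C', hC', hb (node P2 (b' + 1) ((ρ + L) % 2 ^ (b' + 1)) t₀ (CC c))
          ⟨m', Nat.lt_succ_self m', hm'⟩⟩)
  exact ⟨C, 1 + s / 2 / 2, hC, by linarith [show 0 < s / 2 / 2 by positivity], h⟩

end Pool.Agent.H558.PP
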