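import Pool.Agent.H558.PP.QStm
import Pool.Agent.H558.KK.Ae

set_option autoImplicit false

/-!
# Almost all 2-adic `t`, with powers of the logarithm
-/

namespace Pool.Agent.H558.PP

open PowerSeries Finset MeasureTheory Pool.Agent.R836.PP Pool.Agent.H558.KK
open Pool.Agent.K7.H72.MT hiding W few dis DD dis_stable dis_vary DD_stable DD_sum DD_block few_bad
  dis_le DD_le base count

theorem q9x_big {α α' : ℝ} (hα : 0 ≤ α) (h : α < α') : ∃ x₀ : ℕ, ∀ x : ℕ, x₀ ≤ x →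
    2 * ((Nat.log 2 x : ℝ) + 1) ^ α ≤ Real.log x ^ α' := by
  have ht : Filter.Tendsto (fun x : ℕ => Real.log (x : ℝ)) Filter.atTop Filter.atTop :=
    Real.tendsto_log_atTop.comp tendsto_natCast_atTop_atTop
  have ht2 : Filter.Tendsto (fun x : ℕ => Real.log (x : ℝ) ^ (α' - α)) Filter.atTop
      Filter.atTop := (tendsto_rpow_atTop (by linarith : 0 < α' - α)).comp ht
  obtain ⟨x₁, h1⟩ := Filter.eventually_atTop.1 (ht.eventually_ge_atTop 1)
  obtain ⟨x₂, h2⟩ := Filter.eventually_atTop.1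
    (ht2.eventually_ge_atTop (2 * (5 / 2 : ℝ) ^ α))
  refine ⟨max (max x₁ x₂) 1, fun x hx => ?_⟩
  have hx1 : x₁ ≤ x := ((le_max_left _ _).trans (le_max_left _ _)).trans hx
  have hx2 : x₂ ≤ x := ((le_max_right _ _).trans (le_max_left _ _)).trans hx
  have hx3 : 1 ≤ x := (le_max_right _ _).trans hx
  have h3 := h1 x hx1
  have h4 := h2 x hx2
  have hl0 : 0 < Real.log (x : ℝ) := by linarith
  have h5 := KK.log_le hx3
  rw [Real.exp_log hl0] at h5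
  have h6 : ((Nat.log 2 x : ℕ) : ℝ) + 1 ≤ 5 / 2 * Real.log x := by linarith
  calc 2 * ((Nat.log 2 x : ℝ) + 1) ^ α ≤ 2 * (5 / 2 * Real.log x) ^ α := by gcongr
    _ = (2 * (5 / 2 : ℝ) ^ α) * Real.log x ^ α := by
        rw [Real.mul_rpow (by norm_num) hl0.le]
        ring
    _ ≤ Real.log x ^ (α' - α) * Real.log x ^ α := by gcongr
    _ = Real.log x ^ α' := by
        rw [← Real.rpow_add hl0]
        congr 1
        ring

theorem q9x_ae (M ρ L : ℕ) (c : Fin (L + 1) → ZMod 2)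
    (w : ℕ → ZMod 2) [MeasurableSpace ℤ_[2]] [BorelSpace ℤ_[2]] (μ : Measure ℤ_[2])
    [IsProbabilityMeasure μ] [μ.IsAddLeftInvariant] {α e C : ℝ} (hα : 0 ≤ α) (he : 1 < e)
    (_hC : 0 < C) (hb : ∀ K x : ℕ, 1 ≤ x → x < 2 ^ K →
      (#{t ∈ range (2 ^ K) | t % 2 = 1 ∧
        (cntP M ρ c w t x : ℝ) < x / ((Nat.log 2 x : ℝ) + 1) ^ α} : ℝ) ≤
        C * 2 ^ K * ((Nat.log 2 x : ℝ) + 1) ^ (-e)) :
    ∀ᵐ t ∂μ, t.appr 1 = 1 → ∀ α' : ℝ, α < α' → ∃ x₀ : ℕ, ∀ x : ℕ, x₀ ≤ x →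
      (x : ℝ) / Real.log x ^ α' ≤ cntZ M ρ c w t x := by
  let s : ℕ → Set ℤ_[2] := fun j => {t | t.appr 1 = 1 ∧
    (cntZ M ρ c w t (2 ^ j) : ℝ) < 2 ^ j / ((j : ℝ) + 1) ^ α}
  have hs : ∀ j, μ (s j) ≤ ENNReal.ofReal (C * ((j : ℝ) + 1) ^ (-e)) := by
    intro j
    set K := j + L + 1 with hK
    have hxK : 2 ^ j + L < 2 ^ K := by
      have h1 : L < 2 ^ L := Nat.lt_two_pow_self
      have h2 : 1 ≤ 2 ^ L := Nat.one_le_two_pow
      have h3 : 2 ^ K = 2 ^ j * 2 ^ L + 2 ^ j * 2 ^ L := by rw [hK]; ring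
      have h4 : 1 ≤ 2 ^ j := Nat.one_le_two_pow
      rw [h3]
      nlinarith
    have hsub : s j ⊆ {t : ℤ_[2] | t.appr K ∈ ({t ∈ range (2 ^ K) | t % 2 = 1 ∧
        (cntP M ρ c w t (2 ^ j) : ℝ) < ((2 ^ j : ℕ) : ℝ) /
          ((Nat.log 2 (2 ^ j) : ℝ) + 1) ^ α} : Finset ℕ)} := by
      intro t ht
      obtain ⟨h1, h2⟩ := ht
      change t.appr K ∈ ({t ∈ range (2 ^ K) | t % 2 = 1 ∧
        (cntP M ρ c w t (2 ^ j) : ℝ) < ((2 ^ j : ℕ) : ℝ) /
          ((Nat.log 2 (2 ^ j) : ℝ) + 1) ^ α} : Finset ℕ)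
      rw [mem_filter, mem_range]
      refine ⟨PadicInt.appr_lt t K, ?_, ?_⟩
      · have h3 := appr_modEq t (show 1 ≤ K by omega)
        rw [pow_one] at h3
        have h4 : t.appr 1 % 2 = t.appr K % 2 := h3
        rw [← h4, h1]
      · rw [← cntZ_eq M ρ c w t hxK, Nat.log_pow (by norm_num)]
        push_cast
        exact h2
    refine (measure_mono hsub).trans ?_
    refine (measure_finset μ K _ (filter_subset _ _)).trans ?_
    apply ENNReal.ofReal_le_ofReal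
    rw [div_le_iff₀ (by positivity)]
    have h1 := hb K (2 ^ j) Nat.one_le_two_pow (by omega)
    rw [Nat.log_pow (by norm_num)] at h1 ⊢
    refine h1.trans (le_of_eq ?_)
    ring
  have hsum : ∑' i, μ (s i) ≠ ⊤ := by
    have h1 : Summable fun i : ℕ => C * ((i : ℝ) + 1) ^ (-e) := by
      apply Summable.mul_left
      have h2 := (summable_nat_add_iff 1).2 (Real.summable_nat_rpow.2 (show -e < -1 by linarith))
      refine h2.congr fun i => ?_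
      push_cast
      rfl
    exact ne_top_of_le_ne_top h1.tsum_ofReal_ne_top (ENNReal.tsum_le_tsum hs)
  filter_upwards [ae_eventually_notMem hsum] with t ht h1 α' hα'
  obtain ⟨i1, hi1⟩ := Filter.eventually_atTop.1 ht
  obtain ⟨x₁, hx₁⟩ := q9x_big hα hα'
  obtain ⟨x₂, hx₂⟩ := Filter.eventually_atTop.1
    ((Real.tendsto_log_atTop.comp tendsto_natCast_atTop_atTop).eventually_ge_atTop 1 :
      ∀ᶠ x : ℕ in Filter.atTop, (1 : ℝ) ≤ (Real.log ∘ (fun n : ℕ => (n : ℝ))) x)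
  refine ⟨2 ^ i1 + x₁ + x₂ + 1, fun x hx => ?_⟩
  have hp : 0 < 2 ^ i1 := by positivity
  have hx0 : x ≠ 0 := by omega
  have h2x : 2 ^ i1 ≤ x := by omega
  set j := Nat.log 2 x with hj
  have hjx : 2 ^ j ≤ x := Nat.pow_log_le_self 2 hx0
  have hjx2 : x < 2 ^ (j + 1) := Nat.lt_pow_succ_log_self (by norm_num) _
  have hjge : i1 ≤ j := Nat.le_log_of_pow_le (by norm_num) h2x
  have h3 : ¬ (t.appr 1 = 1 ∧ (cntZ M ρ c w t (2 ^ j) : ℝ) < 2 ^ j / ((j : ℝ) + 1) ^ α) :=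
    hi1 j hjge
  rw [not_and, not_lt] at h3
  have h4 := h3 h1
  have h5 : (cntZ M ρ c w t (2 ^ j) : ℝ) ≤ cntZ M ρ c w t x := by
    exact_mod_cast cntZ_mono M ρ c w t hjx
  refine le_trans ?_ (h4.trans h5)
  have h6 := hx₁ x (by omega)
  rw [← hj] at h6
  have h7 : (1 : ℝ) ≤ Real.log x := hx₂ x (by omega)
  have h8 : 0 < Real.log (x : ℝ) ^ α' := Real.rpow_pos_of_pos (by linarith) _
  have h9 : (0 : ℝ) < ((j : ℝ) + 1) ^ α := Real.rpow_pos_of_pos (by positivity) _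
  have hx2 : (x : ℝ) ≤ 2 * 2 ^ j := by
    have : (x : ℝ) ≤ 2 ^ (j + 1) := by exact_mod_cast hjx2.le
    rw [pow_succ] at this
    linarith
  rw [div_le_div_iff₀ h8 h9]
  calc (x : ℝ) * ((j : ℝ) + 1) ^ α ≤ (2 * 2 ^ j) * ((j : ℝ) + 1) ^ α := by gcongr
    _ = 2 ^ j * (2 * ((j : ℝ) + 1) ^ α) := by ring
    _ ≤ 2 ^ j * Real.log x ^ α' := by gcongr

theorem q9 (h7 : S_Q7) : S_Q9 := by
  intro w _ _ μ _ _
  have hex : ∀ M : ℕ, ∃ α : ℝ, 0 < α ∧ (0 < M → ∀ (ρ L : ℕ) (c : Fin (L + 1) → ZMod 2),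
      c ≠ 0 → ∀ w : ℕ → ZMod 2, ∃ C : ℝ, 0 < C ∧ ∀ K x : ℕ, 1 ≤ x → x < 2 ^ K →
        (#{t ∈ range (2 ^ K) | t % 2 = 1 ∧
          (cntP M ρ c w t x : ℝ) < x / ((Nat.log 2 x : ℝ) + 1) ^ α} : ℝ) ≤
          C * 2 ^ K * ((Nat.log 2 x : ℝ) + 1) ^ (-(2 : ℝ))) := by
    intro M
    by_cases hM : 0 < M
    · obtain ⟨α, hα, h⟩ := h7 M hM
      exact ⟨α, hα, fun _ => h⟩
    · exact ⟨1, one_pos, fun h => absurd h hM⟩
  choose α hα hmain using hex
  have h : ∀ᵐ t ∂μ, ∀ (M ρ L : ℕ) (c : Fin (L + 1) → ZMod 2), 0 < M → c ≠ 0 →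
      t.appr 1 = 1 → ∀ α' : ℝ, α M < α' → ∃ x₀ : ℕ, ∀ x : ℕ, x₀ ≤ x →
      (x : ℝ) / Real.log x ^ α' ≤ cntZ M ρ c w t x := by
    rw [MeasureTheory.ae_all_iff]
    intro M
    rw [MeasureTheory.ae_all_iff]
    intro ρ
    rw [MeasureTheory.ae_all_iff]
    intro L
    rw [MeasureTheory.ae_all_iff]
    intro c
    by_cases hM : 0 < M
    · by_cases hc : c ≠ 0
      · obtain ⟨C, hC, hb⟩ := hmain M hM ρ L c hc w
        filter_upwards [q9x_ae M ρ L c w μ (hα M).le (by norm_num : (1 : ℝ) < 2) hC hb]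
          with t ht _ _
        exact ht
      · exact Filter.Eventually.of_forall fun t _ h => absurd h hc
    · exact Filter.Eventually.of_forall fun t h => absurd h hM
  filter_upwards [h] with t ht h1 M hM
  refine ⟨α M + 1, by linarith [hα M], fun ρ L c hc => ?_⟩
  exact ht M ρ L c hM hc h1 (α M + 1) (by linarith)

theorem q10 (h8 : S_Q8) : S_Q10 := by
  intro _ _ μ _ _
  have h : ∀ᵐ t ∂μ, ∀ (n b' ρ L : ℕ) (c : Fin (L + 1) → ZMod 2), c ≠ 0 →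
      t.appr 1 = 1 → ∀ α' : ℝ, 1 + 1 / ((n : ℝ) + 1) < α' → ∃ x₀ : ℕ, ∀ x : ℕ, x₀ ≤ x →
      (x : ℝ) / Real.log x ^ α' ≤ cntZ (2 ^ b') ρ c (fun _ => 0) t x := by
    rw [MeasureTheory.ae_all_iff]
    intro n
    rw [MeasureTheory.ae_all_iff]
    intro b'
    rw [MeasureTheory.ae_all_iff]
    intro ρ
    rw [MeasureTheory.ae_all_iff]
    intro L
    rw [MeasureTheory.ae_all_iff]
    intro c
    by_cases hc : c ≠ 0
    · obtain ⟨C, e, hC, he, hb⟩ := h8 (1 / ((n : ℝ) + 1)) (by positivity) b' ρ L c hc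
      filter_upwards [q9x_ae (2 ^ b') ρ L c (fun _ => 0) μ (by positivity) he hC hb]
        with t ht _
      exact ht
    · exact Filter.Eventually.of_forall fun t h => absurd h hc
  filter_upwards [h] with t ht h1 s hs b' ρ L c hc
  obtain ⟨n, hn⟩ := exists_nat_one_div_lt hs
  exact ht n b' ρ L c hc h1 (1 + s) (by linarith)

end Pool.Agent.H558.PP
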