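import Pool.Agent.H558.PP.Asm
import Pool.Agent.H558.PP.Q1
import Pool.Agent.H558.PP.Q2
import Pool.Agent.H558.PP.Q3
import Pool.Agent.H558.PP.Q4
import Pool.Agent.H558.PP.Q5
import Pool.Agent.H558.PP.Q6
import Pool.Agent.H558.PP.Q7
import Pool.Agent.H558.PP.Q9

set_option autoImplicit false

/-!
# Assembly, continued
-/

namespace Pool.Agent.H558.PP

theorem hQ3 : S_Q3 := Pool.Agent.H399.PP.q3 (q2 (q1 hT4 hN1)) hT3

theorem hQ4 : S_Q4 := Pool.Agent.H720.PPQ4.q4 hQ3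

theorem hQ5 : S_Q5 := Pool.Agent.H800.PPQ5.q5 hQ3

theorem hQ7 : S_Q7 := q7 hQ5 q6

theorem hQ8 : S_Q8 := q8 hQ4 q6

theorem hQ9 : S_Q9 := q9 hQ7

theorem hQ10 : S_Q10 := q10 hQ8

end Pool.Agent.H558.PP
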