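import Pool.Agent.H558.PP.TStm

set_option autoImplicit false

/-!
# Odd values at all large scales, with a loss of a power of the logarithm: the statements
-/

namespace Pool.Agent.H558.PP

open PowerSeries Finset Pool.Agent.R836.PP Pool.Agent.H558.KK
open Pool.Agent.K7.H72.MT hiding W few dis DD dis_stable dis_vary DD_stable DD_sum DD_block few_bad
  dis_le DD_le base count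

/-- the part of the exceptional `t` -/
noncomputable def err (m0 : ℕ) (la : ℝ) : ℝ :=
  m0 * la + 4 / (la * ((m0 : ℝ) - 1) ^ 2 * 2 ^ (Nat.log 2 m0) ^ 3)

/-- Q1: the mean of the reciprocals outside a small set -/
def S_Q1 : Prop := ∀ L0 : ℕ, 6 ≤ L0 → Stp L0 → ∀ m0 : ℕ, L0 ≤ m0 → ∀ V0 M0 : ℕ, V0 ≤ 8 ^ M0 →
  ∀ k : ℕ, (M0 - m0) * M0 ≤ k → ∀ (U : S) (w : ℕ → ZMod 2) (A : ℕ → Prop), Gv V0 U →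
  ∀ la : ℝ, 0 < la → ∃ Bad : Finset ℕ, Bad ⊆ range (2 ^ k) ∧ (#Bad : ℝ) ≤ err m0 la * 2 ^ k ∧
    (∀ t ∈ range (2 ^ k) \ Bad, 0 < gv (8 * 8 ^ m0) (desc P2 k [(U, w, A)] t)) ∧
    ∑ t ∈ range (2 ^ k) \ Bad, ((gv (8 * 8 ^ m0) (desc P2 k [(U, w, A)] t) : ℝ))⁻¹ ≤ 2 * m0

/-- Q2: down to the threshold 128 -/
def S_Q2 : Prop := ∀ L0 : ℕ, 6 ≤ L0 → Stp L0 → ∀ m0 : ℕ, L0 ≤ m0 → ∀ μ : ℕ, m0 ≤ 2 ^ μ →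
  ∀ V0 M0 : ℕ, V0 ≤ 8 ^ M0 → ∀ k : ℕ, (M0 - m0) * M0 ≤ k →
  ∀ (U : S) (w : ℕ → ZMod 2) (A : ℕ → Prop), Gv V0 U → ∀ la : ℝ, 0 < la → ∀ B : ℝ, 0 ≤ B →
    (#{t ∈ range (2 ^ (k + 4 * (2 ^ μ - 1))) |
      (gv 128 (desc P2 (k + 4 * (2 ^ μ - 1)) [(U, w, A)] t) : ℝ) < B} : ℝ) ≤
      err m0 la * 2 ^ (k + 4 * (2 ^ μ - 1)) + B * (2 * m0 * Lam μ)

/-- Q3: the number of the `t` with few good sections -/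
def S_Q3 : Prop := ∀ (a : ℕ) (s : ℝ), 0 < s → ∀ V0 : ℕ, ∃ C : ℝ, 0 < C ∧
  ∀ (k : ℕ) (U : S) (w : ℕ → ZMod 2) (A : ℕ → Prop), Gv V0 U → ∀ B : ℝ, 0 ≤ B →
    (#{t ∈ range (2 ^ k) | (gv 128 (desc P2 k [(U, w, A)] t) : ℝ) < B} : ℝ) ≤
      C * (2 ^ k / ((k : ℝ) + 1) ^ a + B * ((k : ℝ) + 1) ^ s)

/-- Q4: nonzero coefficients -/
def S_Q4 : Prop := ∀ s : ℝ, 0 < s → ∀ V0 : ℕ, ∃ C : ℝ, 0 < C ∧ ∀ U : S, Gv V0 U →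
  ∀ K i : ℕ, i ≤ K → (#{t ∈ range (2 ^ K) |
    (N1 P2 (2 ^ i) (U, (fun _ => 0), fun _ => True) t : ℝ) < 2 ^ i / ((i : ℝ) + 1) ^ (1 + s)} : ℝ) ≤
      C * 2 ^ K * ((i : ℝ) + 1) ^ (-(1 + s / 2))

/-- Q5: disagreement with a sequence -/
def S_Q5 : Prop := ∀ R : ℕ, 1 ≤ R → ∃ α : ℝ, 0 < α ∧ ∀ V0 : ℕ, ∃ C : ℝ, 0 < C ∧
  ∀ (U : S) (w : ℕ → ZMod 2) (A : ℕ → Prop), Gv V0 U → Dn R A → ∀ K i : ℕ, i ≤ K →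
    (#{t ∈ range (2 ^ K) | (N1 P2 (2 ^ i) (U, w, A) t : ℝ) < 2 ^ i / ((i : ℝ) + 1) ^ α} : ℝ) ≤
      C * 2 ^ K * ((i : ℝ) + 1) ^ (-(2 : ℝ))

open scoped Classical in
/-- Q6: from one section to a residue class -/
def S_Q6 : Prop := ∀ (α α' e : ℝ), 0 ≤ α → α < α' → 0 ≤ e → ∀ (U : S) (b β t₀ L : ℕ), β < 2 ^ b →
  ∀ (w : ℕ → ZMod 2) (A : ℕ → Prop),
  (∃ C' : ℝ, 0 < C' ∧ ∀ K i : ℕ, i ≤ K →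
      (#{t ∈ range (2 ^ K) | (N1 P2 (2 ^ i) (node P2 b β t₀ U, (fun a => w (β + 2 ^ b * a)),
        fun a => A (β + 2 ^ b * a)) t : ℝ) < 2 ^ i / ((i : ℝ) + 1) ^ α} : ℝ) ≤
        C' * 2 ^ K * ((i : ℝ) + 1) ^ (-e)) →
    ∃ C : ℝ, 0 < C ∧ ∀ K x : ℕ, 1 ≤ x → x < 2 ^ K →
      (#{t ∈ range (2 ^ K) | t % 2 ^ b = t₀ ∧
        (cnt P2 b β L U w A t x : ℝ) < x / ((Nat.log 2 x : ℝ) + 1) ^ α'} : ℝ) ≤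
        C * 2 ^ K * ((Nat.log 2 x : ℝ) + 1) ^ (-e)

/-- Q7: all progressions and patterns -/
def S_Q7 : Prop := ∀ (M : ℕ), 0 < M → ∃ α : ℝ, 0 < α ∧ ∀ (ρ L : ℕ) (c : Fin (L + 1) → ZMod 2),
  c ≠ 0 → ∀ w : ℕ → ZMod 2, ∃ C : ℝ, 0 < C ∧ ∀ K x : ℕ, 1 ≤ x → x < 2 ^ K →
    (#{t ∈ range (2 ^ K) | t % 2 = 1 ∧
      (cntP M ρ c w t x : ℝ) < x / ((Nat.log 2 x : ℝ) + 1) ^ α} : ℝ) ≤
      C * 2 ^ K * ((Nat.log 2 x : ℝ) + 1) ^ (-(2 : ℝ))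

/-- Q8: odd values in progressions modulo powers of 2 -/
def S_Q8 : Prop := ∀ s : ℝ, 0 < s → ∀ (b' ρ L : ℕ) (c : Fin (L + 1) → ZMod 2), c ≠ 0 →
  ∃ C e : ℝ, 0 < C ∧ 1 < e ∧ ∀ K x : ℕ, 1 ≤ x → x < 2 ^ K →
    (#{t ∈ range (2 ^ K) | t % 2 = 1 ∧
      (cntP (2 ^ b') ρ c (fun _ => 0) t x : ℝ) < x / ((Nat.log 2 x : ℝ) + 1) ^ (1 + s)} : ℝ) ≤
      C * 2 ^ K * ((Nat.log 2 x : ℝ) + 1) ^ (-e)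

/-- Q9: almost all 2-adic `t`, all patterns -/
def S_Q9 : Prop := ∀ (w : ℕ → ZMod 2) [MeasurableSpace ℤ_[2]] [BorelSpace ℤ_[2]]
  (μ : MeasureTheory.Measure ℤ_[2]) [MeasureTheory.IsProbabilityMeasure μ] [μ.IsAddLeftInvariant],
  ∀ᵐ t ∂μ, t.appr 1 = 1 → ∀ M : ℕ, 0 < M → ∃ α : ℝ, 0 < α ∧
    ∀ (ρ L : ℕ) (c : Fin (L + 1) → ZMod 2), c ≠ 0 →
    ∃ x₀ : ℕ, ∀ x : ℕ, x₀ ≤ x → (x : ℝ) / Real.log x ^ α ≤ cntZ M ρ c w t x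

/-- Q10: almost all 2-adic `t`, odd values -/
def S_Q10 : Prop := ∀ [MeasurableSpace ℤ_[2]] [BorelSpace ℤ_[2]]
  (μ : MeasureTheory.Measure ℤ_[2]) [MeasureTheory.IsProbabilityMeasure μ] [μ.IsAddLeftInvariant],
  ∀ᵐ t ∂μ, t.appr 1 = 1 → ∀ s : ℝ, 0 < s →
    ∀ (b' ρ L : ℕ) (c : Fin (L + 1) → ZMod 2), c ≠ 0 →
    ∃ x₀ : ℕ, ∀ x : ℕ, x₀ ≤ x →
      (x : ℝ) / Real.log x ^ (1 + s) ≤ cntZ (2 ^ b') ρ c (fun _ => 0) t x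

end Pool.Agent.H558.PP
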